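import Pool.Agent.GH.D7.Fix7
import Pool.Agent.GH.FamA

/-! Norm bounds for the matrices of `U_7`. -/

open PowerSeries Filter Topology

noncomputable section

namespace GH

namespace D7

theorem norm_seven_C7 : ‖(7 : C7)‖ = 7⁻¹ := by
  have h1 : (7 : C7) = algebraMap ℚ_[7] C7 ((7 : ℕ) : ℚ_[7]) := by
    rw [map_natCast]
    norm_num
  rw [h1, norm_algebraMap', Padic.norm_p]
  norm_num

theorem d7i_natCast (n : ℕ) : ‖(n : C7)‖ = ‖(n : ℚ_[7])‖ := by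
  rw [← map_natCast (algebraMap ℚ_[7] C7) n, norm_algebraMap']

theorem d7i_fac_val (n : ℕ) :
    ‖((n.factorial : ℕ) : C7)‖⁻¹ = 7 ^ (padicValNat 7 n.factorial) := by
  have h0 : ((n.factorial : ℕ) : ℚ_[7]) ≠ 0 := by
    exact_mod_cast Nat.factorial_ne_zero n
  rw [d7i_natCast, Padic.norm_eq_zpow_neg_valuation h0, Padic.valuation_natCast]
  rw [← zpow_neg, neg_neg, zpow_natCast]
  norm_num

theorem d7i_fac (n : ℕ) : ‖((n.factorial : ℕ) : C7)‖⁻¹ ≤ (7 / 5 : ℝ) ^ n := by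
  rw [d7i_fac_val]
  have h1 := sub_one_mul_padicValNat_factorial (p := 7) n
  have h2 : 6 * padicValNat 7 n.factorial ≤ n := by omega
  calc (7 : ℝ) ^ (padicValNat 7 n.factorial)
      ≤ ((7 / 5 : ℝ) ^ 6) ^ (padicValNat 7 n.factorial) :=
        pow_le_pow_left₀ (by norm_num) (by norm_num) _
    _ = (7 / 5 : ℝ) ^ (6 * padicValNat 7 n.factorial) := by rw [pow_mul]
    _ ≤ (7 / 5 : ℝ) ^ n := pow_le_pow_right₀ (by norm_num) h2

theorem d7i_int (m : ℤ) : ‖(m : C7)‖ ≤ 1 := IsUltrametricDist.norm_intCast_le_one C7 m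

theorem d7i_nat (m : ℕ) : ‖(m : C7)‖ ≤ 1 := by
  have h := d7i_int (m : ℤ)
  rwa [Int.cast_natCast] at h

/-- The norm of a multiple of `7^k`. -/
theorem d7i_dvd {k : ℕ} {m : ℤ} (h : (7 : ℤ) ^ k ∣ m) : ‖(m : C7)‖ ≤ (7 : ℝ)⁻¹ ^ k := by
  obtain ⟨a, rfl⟩ := h
  push_cast
  rw [norm_mul, norm_pow, norm_seven_C7]
  exact mul_le_of_le_one_right (by positivity) (d7i_int a)

theorem d7i_prod {s : C7} (n : ℕ) (h : ∀ l : ℕ, ‖s - l‖ ≤ 1) :
    ‖∏ i ∈ Finset.range n, (s - i)‖ ≤ 1 := by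
  rw [norm_prod]
  calc ∏ i ∈ Finset.range n, ‖s - i‖ ≤ ∏ _i ∈ Finset.range n, (1 : ℝ) :=
        Finset.prod_le_prod (fun i _ => norm_nonneg _) (fun i _ => h i)
    _ = 1 := by rw [Finset.prod_const_one]

/-- The Gauss norm of radius `r` is at most `c`. -/
def d7i_Bd (r c : ℝ) (F : PowerSeries C7) : Prop := ∀ m, ‖PowerSeries.coeff m F‖ * r ^ m ≤ c

theorem d7i_Bd_iff {r c : ℝ} (hr : 0 < r) {F : PowerSeries C7} :
    d7i_Bd r c F ↔ ∀ m, ‖PowerSeries.coeff m F‖ ≤ c / r ^ m := by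
  unfold d7i_Bd
  refine forall_congr' fun m => ?_
  rw [le_div_iff₀ (by positivity)]

theorem d7i_Bd_nonneg {r c : ℝ} {F : PowerSeries C7} (h : d7i_Bd r c F) : 0 ≤ c := by
  have h1 := h 0
  rw [pow_zero, mul_one] at h1
  exact (norm_nonneg _).trans h1

theorem d7i_Bd_mul {r c c' : ℝ} (hr : 0 < r) {F G : PowerSeries C7} (hF : d7i_Bd r c F)
    (hG : d7i_Bd r c' G) : d7i_Bd r (c * c') (F * G) := by
  have hc := d7i_Bd_nonneg hF
  have hc' := d7i_Bd_nonneg hG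
  rw [d7i_Bd_iff hr]
  intro n
  rw [PowerSeries.coeff_mul]
  refine IsUltrametricDist.norm_sum_le_of_forall_le_of_nonneg (by positivity) fun ij hij => ?_
  rw [Finset.HasAntidiagonal.mem_antidiagonal] at hij
  rw [norm_mul, ← hij, le_div_iff₀ (by positivity), pow_add]
  calc ‖PowerSeries.coeff ij.1 F‖ * ‖PowerSeries.coeff ij.2 G‖ * (r ^ ij.1 * r ^ ij.2)
      = (‖PowerSeries.coeff ij.1 F‖ * r ^ ij.1) * (‖PowerSeries.coeff ij.2 G‖ * r ^ ij.2) := by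
        ring
    _ ≤ c * c' := mul_le_mul (hF _) (hG _) (by positivity) hc

theorem d7i_Bd_one {r c : ℝ} (hc : 1 ≤ c) : d7i_Bd r c 1 := by
  intro n
  rw [PowerSeries.coeff_one]
  split_ifs with h
  · rw [h, norm_one, pow_zero, mul_one]
    exact hc
  · rw [norm_zero, zero_mul]
    linarith

theorem d7i_Bd_pow {r c : ℝ} (hr : 0 < r) {F : PowerSeries C7} (hF : d7i_Bd r c F) (m : ℕ) :
    d7i_Bd r (c ^ m) (F ^ m) := by
  induction m with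
  | zero =>
    rw [pow_zero, pow_zero]
    exact d7i_Bd_one le_rfl
  | succ m ih =>
    rw [pow_succ, pow_succ]
    exact d7i_Bd_mul hr ih hF

/-- The coefficients of `S` and `Y`. -/
theorem d7i_coeff_S (n : ℕ) :
    PowerSeries.coeff n (S7 C7) = ((PowerSeries.coeff n (S7 ℤ) : ℤ) : C7) := by
  rw [← map_S7 ℤ (Int.castRingHom C7), PowerSeries.coeff_map]
  rfl

theorem d7i_coeff_Y (n : ℕ) :
    PowerSeries.coeff n (Y7 C7) = ((PowerSeries.coeff n (Y7 ℤ) : ℤ) : C7) := by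
  rw [← map_Y7 ℤ (Int.castRingHom C7), PowerSeries.coeff_map]
  rfl

/-- `7^(-q) r^n ≤ r^d (r^4/7)^q` for `n ≤ 4 q + d`. -/
theorem d7i_pow {n q d : ℕ} (h : n ≤ 4 * q + d) :
    (7 : ℝ)⁻¹ ^ q * (7 / 5 : ℝ) ^ n ≤ (7 / 5 : ℝ) ^ d * ((7 / 5 : ℝ) ^ 4 / 7) ^ q := by
  calc (7 : ℝ)⁻¹ ^ q * (7 / 5 : ℝ) ^ n ≤ (7 : ℝ)⁻¹ ^ q * (7 / 5 : ℝ) ^ (4 * q + d) :=
        mul_le_mul_of_nonneg_left (pow_le_pow_right₀ (by norm_num) h) (by positivity)
    _ = (7 / 5 : ℝ) ^ d * ((7 / 5 : ℝ) ^ 4 / 7) ^ q := by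
        rw [pow_add, pow_mul, div_pow ((7 / 5 : ℝ) ^ 4) 7 q, inv_pow]
        ring

/-- `|S - 1| ≤ r^4/7` on the disc of radius `r = 7/5`. -/
theorem norm_S7_le (hK : K7) {n : ℕ} (hn : 1 ≤ n) :
    ‖PowerSeries.coeff n (S7 C7)‖ * (7 / 5 : ℝ) ^ n ≤ (7 / 5 : ℝ) ^ 4 / 7 := by
  rw [d7i_coeff_S]
  have h1 := d7i_dvd (S7_dvd hK n)
  have h2 : n ≤ 4 * ((n + 3) / 4) + 0 := by omega
  have h3 := d7i_pow h2
  rw [pow_zero, one_mul] at h3
  have h4 : ((7 / 5 : ℝ) ^ 4 / 7) ^ ((n + 3) / 4) ≤ (7 / 5 : ℝ) ^ 4 / 7 :=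
    pow_le_of_le_one (by positivity) (by norm_num) (by omega)
  exact (mul_le_mul_of_nonneg_right h1 (by positivity)).trans (h3.trans h4)

theorem d7i_Bd_Sm (hK : K7) : d7i_Bd (7 / 5) ((7 / 5 : ℝ) ^ 4 / 7) (S7 C7 - 1) := by
  intro n
  rcases Nat.eq_zero_or_pos n with h | h
  · rw [h, map_sub, PowerSeries.coeff_zero_eq_constantCoeff_apply, constantCoeff_S7,
      PowerSeries.coeff_zero_eq_constantCoeff_apply, map_one, sub_self, norm_zero, zero_mul]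
    positivity
  · rw [map_sub, PowerSeries.coeff_one, if_neg (by omega), sub_zero]
    exact norm_S7_le hK h

theorem d7i_Bd_Y (hK : K7) : d7i_Bd (7 / 5) ((7 / 5 : ℝ) ^ 2) (Y7 C7) := by
  intro n
  rw [d7i_coeff_Y]
  have h1 := d7i_dvd (Y7_dvd hK n)
  have h2 : n ≤ 4 * ((n + 1) / 4) + 2 := by omega
  have h4 : ((7 / 5 : ℝ) ^ 4 / 7) ^ ((n + 1) / 4) ≤ 1 :=
    pow_le_one₀ (by positivity) (by norm_num)
  refine (mul_le_mul_of_nonneg_right h1 (by positivity)).trans ((d7i_pow h2).trans ?_)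
  exact mul_le_of_le_one_right (by positivity) h4

theorem d7i_constS : PowerSeries.constantCoeff (S7 C7 - 1) = 0 := by
  rw [map_sub, constantCoeff_S7, map_one, sub_self]

/-- The powers `S^s`. -/
theorem d7i_Bd_S (hK : K7) {s : C7} (h : ∀ l : ℕ, ‖s - l‖ ≤ 1) :
    d7i_Bd (7 / 5) 1 (ppow (S7 C7) s) := by
  have hr : (0 : ℝ) < 7 / 5 := by norm_num
  have hQ := d7i_Bd_Sm hK
  rw [d7i_Bd_iff hr]
  intro m
  unfold ppow
  rw [fa_coeff_subst d7i_constS]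
  refine IsUltrametricDist.norm_sum_le_of_forall_le_of_nonneg (by positivity) fun n _ => ?_
  rw [le_div_iff₀ (by positivity), norm_mul, binS, coeff_mk, norm_div, div_eq_mul_inv]
  have h1 := d7i_Bd_pow hr hQ n m
  calc ‖∏ i ∈ Finset.range n, (s - i)‖ * ‖((n.factorial : ℕ) : C7)‖⁻¹ *
        ‖PowerSeries.coeff m ((S7 C7 - 1) ^ n)‖ * (7 / 5 : ℝ) ^ m
      = (‖∏ i ∈ Finset.range n, (s - i)‖ * ‖((n.factorial : ℕ) : C7)‖⁻¹) *
        (‖PowerSeries.coeff m ((S7 C7 - 1) ^ n)‖ * (7 / 5 : ℝ) ^ m) := by ring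
    _ ≤ (1 * (7 / 5 : ℝ) ^ n) * ((7 / 5 : ℝ) ^ 4 / 7) ^ n := by
        refine mul_le_mul ?_ h1 (by positivity) (by positivity)
        exact mul_le_mul (d7i_prod n h) (d7i_fac n) (by positivity) (by norm_num)
    _ = (7 / 5 * ((7 / 5 : ℝ) ^ 4 / 7)) ^ n := by rw [one_mul, mul_pow]
    _ ≤ 1 := pow_le_one₀ (by positivity) (by norm_num)

theorem d7i_sub {x : C7} (hx : ‖x‖ ≤ 1) (l : ℕ) : ‖x - l‖ ≤ 1 := by
  rw [sub_eq_add_neg]
  refine (IsUltrametricDist.norm_add_le_max _ _).trans (max_le hx ?_)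
  rw [norm_neg]
  exact d7i_nat l

/-- `|S^x| ≤ 1` on the disc of radius `7/5`. -/
theorem norm_ppow_S7_le (hK : K7) {x : C7} (hx : ‖x‖ ≤ 1) (n : ℕ) :
    ‖PowerSeries.coeff n (ppow (S7 C7) x)‖ * (7 / 5 : ℝ) ^ n ≤ 1 :=
  d7i_Bd_S hK (d7i_sub hx) n

theorem d7i_exp {x : C7} (hx : ‖x‖ ≤ 1) (i c : ℕ) : ‖2 * (i : C7) - x - sh7 c‖ ≤ 1 := by
  have h1 : 2 * (i : C7) - x - sh7 c = ((2 * (i : ℤ) - sh7 c : ℤ) : C7) + (-x) := by
    push_cast
    ring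
  rw [h1]
  refine (IsUltrametricDist.norm_add_le_max _ _).trans (max_le (d7i_int _) ?_)
  rw [norm_neg]
  exact hx

theorem norm_Mat7_le (hK : K7) {c : ℕ} (hc : c ≤ 2) {x : C7} (hx : ‖x‖ ≤ 1) {i j : ℕ}
    (h : j ≤ 7 * i) : ‖Mat7 c x i j‖ * (7 / 5 : ℝ) ^ (7 * i - j) ≤ (7 / 5 : ℝ) ^ 4 := by
  unfold Mat7
  rw [if_pos h]
  have h1 := d7i_Bd_mul (by norm_num) (d7i_Bd_S hK (d7i_sub (d7i_exp hx i c)))
    (d7i_Bd_pow (by norm_num) (d7i_Bd_Y hK) (ey7 c)) (7 * i - j)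
  have h2 : ey7 c ≤ 2 := by
    unfold ey7
    split_ifs <;> norm_num
  refine h1.trans ?_
  rw [one_mul, ← pow_mul]
  exact pow_le_pow_right₀ (by norm_num) (by omega)

/-- The matrix entries are polynomials in `x`. -/
theorem Mat7_isPoly (c i j : ℕ) : ∃ P : Polynomial C7, ∀ x : C7, Mat7 c x i j = P.eval x := by
  by_cases h : j ≤ 7 * i
  · choose P hP using fun n => fa_ppow_poly (K := C7) (constantCoeff_S7 C7) n
    refine ⟨∑ kl ∈ Finset.HasAntidiagonal.antidiagonal (7 * i - j),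
      (P kl.1).comp (Polynomial.C (2 * (i : C7) - sh7 c) - Polynomial.X) *
      Polynomial.C (PowerSeries.coeff kl.2 (Y7 C7 ^ ey7 c)), fun x => ?_⟩
    unfold Mat7
    rw [if_pos h, PowerSeries.coeff_mul, Polynomial.eval_finsetSum]
    refine Finset.sum_congr rfl fun kl _ => ?_
    rw [Polynomial.eval_mul, Polynomial.eval_C, Polynomial.eval_comp, Polynomial.eval_sub,
      Polynomial.eval_C, Polynomial.eval_X, ← hP]
    congr 3
    ring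
  · refine ⟨0, fun x => ?_⟩
    unfold Mat7
    rw [if_neg h, Polynomial.eval_zero]

end D7

end GH
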