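import Pool.Agent.GH.D7.ClE7
import Pool.Agent.GH.D7.UBound7
import Pool.Agent.GH.UMatB_a

/-! The stabilised Eisenstein series. -/

open PowerSeries Filter Topology

noncomputable section

namespace GH

namespace D7

open GP DP

theorem d7k_sigma (p : ℕ) [hp : Fact p.Prime] (j n : ℕ) (hn : n ≠ 0) :
    (ArithmeticFunction.sigma j n : ℚ) -
      (if p ∣ n then (p : ℚ) ^ j * (ArithmeticFunction.sigma j (n / p) : ℚ) else 0) =
      ∑ d ∈ n.divisors, if p ∣ d then 0 else (d : ℚ) ^ j := by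
  have hp0 : 0 < p := hp.out.pos
  have h1 : (ArithmeticFunction.sigma j n : ℚ) =
      ∑ d ∈ n.divisors.filter (fun d => ¬ p ∣ d), (d : ℚ) ^ j +
        ∑ d ∈ n.divisors.filter (fun d => ¬ ¬ p ∣ d), (d : ℚ) ^ j := by
    rw [Finset.sum_filter_add_sum_filter_not, ArithmeticFunction.sigma_apply]
    push_cast
    rfl
  have h2 : ∑ d ∈ n.divisors.filter (fun d => ¬ p ∣ d), (d : ℚ) ^ j =
      ∑ d ∈ n.divisors, if p ∣ d then 0 else (d : ℚ) ^ j := by
    rw [Finset.sum_filter]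
    refine Finset.sum_congr rfl fun d _ => ?_
    rw [ite_not]
  have h3 : ∑ d ∈ n.divisors.filter (fun d => ¬ ¬ p ∣ d), (d : ℚ) ^ j =
      if p ∣ n then (p : ℚ) ^ j * (ArithmeticFunction.sigma j (n / p) : ℚ) else 0 := by
    split_ifs with h
    · obtain ⟨m, rfl⟩ := h
      have hm : m ≠ 0 := fun h0 => hn (by rw [h0, mul_zero])
      have h4 : (p * m).divisors.filter (fun d => ¬ ¬ p ∣ d) =
          m.divisors.image (fun d => p * d) := by
        ext d
        simp only [Finset.mem_filter, Nat.mem_divisors, Finset.mem_image, not_not]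
        constructor
        · rintro ⟨⟨h, _⟩, e, rfl⟩
          exact ⟨e, ⟨Nat.dvd_of_mul_dvd_mul_left hp0 h, hm⟩, rfl⟩
        · rintro ⟨e, ⟨h, _⟩, rfl⟩
          exact ⟨⟨Nat.mul_dvd_mul_left p h, hn⟩, Dvd.intro e rfl⟩
      rw [h4, Finset.sum_image (fun a _ b _ hab => Nat.eq_of_mul_eq_mul_left hp0 hab),
        Nat.mul_div_cancel_left m hp0, ArithmeticFunction.sigma_apply]
      push_cast
      rw [Finset.mul_sum]
      refine Finset.sum_congr rfl fun d _ => ?_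
      rw [mul_pow]
    · refine Finset.sum_eq_zero fun d hd => ?_
      exfalso
      rw [Finset.mem_filter, not_not, Nat.mem_divisors] at hd
      exact h (hd.2.trans hd.1.1)
  rw [h1, h2, h3]
  ring

/-- The stabilisation `(1 - p^{k-1}) E_k^{(p)} = E_k(q) - p^{k-1} E_k(q^p)`. -/
theorem eisStabP_eq (p : ℕ) [Fact p.Prime] (k : ℕ) (hk : 2 ≤ k) :
    C ((1 : ℚ) - (p : ℚ) ^ (k - 1)) * eisStabP p k =
      eisQ k - C ((p : ℚ) ^ (k - 1)) * (eisQ k).expand p (Fact.out : p.Prime).ne_zero := by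
  have hpp : p.Prime := Fact.out
  have hne : (1 : ℚ) - (p : ℚ) ^ (k - 1) ≠ 0 := by
    have h0 : (1 : ℚ) < p := by exact_mod_cast hpp.one_lt
    have h1 : (1 : ℚ) < (p : ℚ) ^ (k - 1) := one_lt_pow₀ h0 (by omega)
    linarith
  ext n
  rw [map_sub (PowerSeries.coeff n), PowerSeries.coeff_C_mul, PowerSeries.coeff_C_mul,
    PowerSeries.coeff_expand]
  unfold eisStabP eisQ
  rw [map_add, map_add, map_add, PowerSeries.coeff_mk, PowerSeries.coeff_mk,
    PowerSeries.coeff_mk, PowerSeries.coeff_one, PowerSeries.coeff_one]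
  by_cases hn : n = 0
  · subst hn
    simp
  · rw [if_neg hn, ← d7k_sigma p (k - 1) n hn]
    have h2 : (1 - (p : ℚ) ^ (k - 1)) * (2 * k / ((1 - (p : ℚ) ^ (k - 1)) * bernoulli k)) =
        2 * k / bernoulli k := by
      rw [mul_div_assoc', mul_div_mul_left _ _ hne]
    by_cases hpn : p ∣ n
    · have h3 : n / p ≠ 0 := by
        have := Nat.div_pos (Nat.le_of_dvd (Nat.pos_of_ne_zero hn) hpn) hpp.pos
        omega
      rw [if_pos hpn, if_pos hpn, if_neg h3]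
      linear_combination (-(ArithmeticFunction.sigma (k - 1) n : ℚ) +
        (p : ℚ) ^ (k - 1) * (ArithmeticFunction.sigma (k - 1) (n / p) : ℚ)) * h2
    · rw [if_neg hpn, if_neg hpn]
      linear_combination (-(ArithmeticFunction.sigma (k - 1) n : ℚ)) * h2

/-! ### bounded power series -/

/-- bounded on the disc of radius `r` -/
def D7kBd (r : ℝ) (u : PowerSeries C7) : Prop :=
  ∃ B : ℝ, ∀ n, ‖PowerSeries.coeff n u‖ * r ^ n ≤ B

theorem d7k_add {r : ℝ} (hr : 0 ≤ r) {u v : PowerSeries C7} (hu : D7kBd r u)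
    (hv : D7kBd r v) : D7kBd r (u + v) := by
  obtain ⟨A, hA⟩ := hu
  obtain ⟨B, hB⟩ := hv
  refine ⟨A + B, fun n => ?_⟩
  rw [map_add]
  have h1 : ‖PowerSeries.coeff n u + PowerSeries.coeff n v‖ * r ^ n ≤
      (‖PowerSeries.coeff n u‖ + ‖PowerSeries.coeff n v‖) * r ^ n :=
    mul_le_mul_of_nonneg_right (norm_add_le _ _) (pow_nonneg hr n)
  have h2 := hA n
  have h3 := hB n
  rw [add_mul] at h1
  linarith

theorem d7k_mul {r : ℝ} (hr : 0 < r) {u v : PowerSeries C7} (hu : D7kBd r u)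
    (hv : D7kBd r v) : D7kBd r (u * v) := by
  obtain ⟨A, hA⟩ := hu
  obtain ⟨B, hB⟩ := hv
  have hA0 : 0 ≤ A := le_trans (mul_nonneg (norm_nonneg _) (pow_nonneg hr.le 0)) (hA 0)
  have hB0 : 0 ≤ B := le_trans (mul_nonneg (norm_nonneg _) (pow_nonneg hr.le 0)) (hB 0)
  refine ⟨A * B, fun n => ?_⟩
  rw [← le_div_iff₀ (pow_pos hr n), PowerSeries.coeff_mul]
  refine IsUltrametricDist.norm_sum_le_of_forall_le_of_nonneg
    (div_nonneg (mul_nonneg hA0 hB0) (pow_nonneg hr.le n)) fun ij hij => ?_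
  rw [Finset.HasAntidiagonal.mem_antidiagonal] at hij
  rw [norm_mul, le_div_iff₀ (pow_pos hr n), ← hij, pow_add]
  calc ‖PowerSeries.coeff ij.1 u‖ * ‖PowerSeries.coeff ij.2 v‖ * (r ^ ij.1 * r ^ ij.2)
      = (‖PowerSeries.coeff ij.1 u‖ * r ^ ij.1) * (‖PowerSeries.coeff ij.2 v‖ * r ^ ij.2) := by
        ring
    _ ≤ A * B := mul_le_mul (hA _) (hB _)
        (mul_nonneg (norm_nonneg _) (pow_nonneg hr.le _)) hA0

theorem d7k_C (r : ℝ) (a : C7) : D7kBd r (C a) := by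
  refine ⟨‖a‖, fun n => ?_⟩
  rw [PowerSeries.coeff_C]
  split_ifs with h
  · rw [h, pow_zero, mul_one]
  · rw [norm_zero, zero_mul]
    exact norm_nonneg _

theorem d7k_X (r : ℝ) (hr : 0 ≤ r) : D7kBd r (X : PowerSeries C7) := by
  refine ⟨r, fun n => ?_⟩
  rw [PowerSeries.coeff_X]
  split_ifs with h
  · rw [h, pow_one, norm_one, one_mul]
  · rw [norm_zero, zero_mul]
    exact hr

theorem d7k_one (r : ℝ) : D7kBd r (1 : PowerSeries C7) := by
  have h := d7k_C r 1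
  rwa [map_one] at h

theorem d7k_pow {r : ℝ} (hr : 0 < r) {u : PowerSeries C7} (hu : D7kBd r u) (m : ℕ) :
    D7kBd r (u ^ m) := by
  induction m with
  | zero =>
    rw [pow_zero]
    exact d7k_one r
  | succ m ih =>
    rw [pow_succ]
    exact d7k_mul hr ih hu

theorem d7k_sum {r : ℝ} (hr : 0 ≤ r) {ι : Type*} (s : Finset ι) {u : ι → PowerSeries C7}
    (hu : ∀ i ∈ s, D7kBd r (u i)) : D7kBd r (∑ i ∈ s, u i) := by
  classical
  induction s using Finset.induction_on with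
  | empty =>
    rw [Finset.sum_empty]
    have h := d7k_C r 0
    rwa [map_zero] at h
  | insert i s hi ih =>
    rw [Finset.sum_insert hi]
    exact d7k_add hr (hu i (Finset.mem_insert_self i s))
      (ih fun j hj => hu j (Finset.mem_insert_of_mem hj))

theorem d7k_neg {r : ℝ} {u : PowerSeries C7} (hu : D7kBd r u) : D7kBd r (-u) := by
  obtain ⟨A, hA⟩ := hu
  refine ⟨A, fun n => ?_⟩
  rw [map_neg, norm_neg]
  exact hA n

/-! ### the parameters -/

theorem d7k_S (hK : K7) : D7kBd (7 / 5) (S7 C7) := by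
  refine ⟨1 + (7 / 5 : ℝ) ^ 4 / 7, fun n => ?_⟩
  rcases Nat.eq_zero_or_pos n with hn | hn
  · subst hn
    rw [PowerSeries.coeff_zero_eq_constantCoeff_apply, constantCoeff_S7, norm_one, pow_zero,
      mul_one]
    norm_num
  · have := norm_S7_le hK hn
    linarith

theorem d7k_inv : invOfUnit (S7 C7 ^ 2) 1 = ppow (S7 C7) (-2) := by
  have hS := constantCoeff_S7 C7
  have h1 : S7 C7 ^ 2 * invOfUnit (S7 C7 ^ 2) 1 = 1 :=
    PowerSeries.mul_invOfUnit _ _ (by rw [map_pow, hS, one_pow]; rfl)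
  have h2 : S7 C7 ^ 2 * ppow (S7 C7) (-2) = 1 := by
    rw [← ub_ppow_nat hS 2, ← ub_ppow_add hS]
    have h3 : ((2 : ℕ) : C7) + -2 = 0 := by push_cast; ring
    rw [h3, ub_ppow_zero hS]
  calc invOfUnit (S7 C7 ^ 2) 1 = (S7 C7 ^ 2 * ppow (S7 C7) (-2)) * invOfUnit (S7 C7 ^ 2) 1 := by
        rw [h2, one_mul]
    _ = (S7 C7 ^ 2 * invOfUnit (S7 C7 ^ 2) 1) * ppow (S7 C7) (-2) := by ring
    _ = _ := by rw [h1, one_mul]

theorem d7k_g (hK : K7) : D7kBd (7 / 5) (gs7 C7) := by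
  unfold gs7
  refine d7k_mul (by norm_num) (d7k_pow (by norm_num) (d7k_X _ (by norm_num)) 7) ?_
  rw [d7k_inv]
  refine ⟨1, fun n => norm_ppow_S7_le hK ?_ n⟩
  rw [norm_neg]
  have h := IsUltrametricDist.norm_natCast_le_one C7 2
  simpa using h

/-- polynomials in a series -/
theorem d7k_poly (P : Polynomial ℚ) :
    PowerSeries.map (algebraMap ℚ C7)
      (∑ i ∈ Finset.range (P.natDegree + 1), C (P.coeff i) * hauptmodul 7 ℚ ^ i) =
      ∑ i ∈ Finset.range (P.natDegree + 1),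
        C (algebraMap ℚ C7 (P.coeff i)) * hauptmodul 7 C7 ^ i := by
  rw [map_sum]
  refine Finset.sum_congr rfl fun i _ => ?_
  rw [map_mul, map_pow, map_hauptmodul, PowerSeries.map_C]

theorem d7k_subst (N : ℕ) (c : ℕ → C7) (t : PowerSeries C7) :
    (∑ i ∈ Finset.range N, C (c i) * t ^ i).subst (hauptmodul 7 C7) =
      ∑ i ∈ Finset.range N, C (c i) * (t.subst (hauptmodul 7 C7)) ^ i := by
  have hs : HasSubst (hauptmodul 7 C7) := fx_hasSubst 7
  rw [← PowerSeries.coe_substAlgHom hs, map_sum]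
  refine Finset.sum_congr rfl fun i _ => ?_
  rw [map_mul, map_pow]
  congr 1
  rw [PowerSeries.coe_substAlgHom hs]
  exact PowerSeries.subst_C _

/-- The classical points. -/
theorem stab7 (hK : K7) (m : ℕ) (hm : 1 ≤ m) :
    ∃ u : PowerSeries C7, PowerSeries.coeff 0 u = 1 ∧
      (∃ B : ℝ, ∀ n, ‖PowerSeries.coeff n u‖ * (7 / 5 : ℝ) ^ n ≤ B) ∧
      PowerSeries.map (algebraMap ℚ C7) (eisStabP 7 (6 * m)) =
        phi7 C7 ^ (2 * m) * u.subst (hauptmodul 7 C7) := by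
  obtain ⟨P, hP⟩ := eisQ_eq_phi7 hK m hm
  have hs : HasSubst (hauptmodul 7 C7) := fx_hasSubst 7
  have hr : (0 : ℝ) < 7 / 5 := by norm_num
  obtain ⟨c, hc⟩ : ∃ c : ℕ → C7, ∀ i, c i = algebraMap ℚ C7 (P.coeff i) := ⟨_, fun _ => rfl⟩
  obtain ⟨Q, hQ⟩ : ∃ Q : PowerSeries C7,
    Q = ∑ i ∈ Finset.range (P.natDegree + 1), C (c i) * X ^ i := ⟨_, rfl⟩
  obtain ⟨G, hG⟩ : ∃ G : PowerSeries C7,
    G = ∑ i ∈ Finset.range (P.natDegree + 1), C (c i) * gs7 C7 ^ i := ⟨_, rfl⟩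
  have hQf : Q.subst (hauptmodul 7 C7) =
      ∑ i ∈ Finset.range (P.natDegree + 1), C (c i) * hauptmodul 7 C7 ^ i := by
    rw [hQ, d7k_subst, PowerSeries.subst_X hs]
  have hGf : G.subst (hauptmodul 7 C7) = PowerSeries.expand 7 seven_ne (Q.subst (hauptmodul 7 C7)) := by
    rw [hG, d7k_subst, hQf, map_sum]
    refine Finset.sum_congr rfl fun i _ => ?_
    rw [map_mul, map_pow, gs7_subst, PowerSeries.expand_C]
  have hE1 : PowerSeries.map (algebraMap ℚ C7) (eisQ (6 * m)) =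
      phi7 C7 ^ (2 * m) * Q.subst (hauptmodul 7 C7) := by
    rw [hP, map_mul, map_pow, map_phi7, d7k_poly, hQf]
    congr 1
    exact Finset.sum_congr rfl fun i _ => by rw [hc]
  have hE2 : PowerSeries.map (algebraMap ℚ C7) ((eisQ (6 * m)).expand 7 seven_ne) =
      phi7 C7 ^ (2 * m) * (S7 C7 ^ m * G).subst (hauptmodul 7 C7) := by
    rw [PowerSeries.map_expand, hE1, map_mul, ← hGf, PowerSeries.subst_mul hs,
      PowerSeries.subst_pow hs, map_pow, pow_mul, pow_mul, ← mul_assoc, ← mul_pow, S7_subst,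
      ← map_pow]
  have hne : (1 : C7) - 7 ^ (6 * m - 1) ≠ 0 := by
    intro h0
    have h1 : (1 : C7) = 7 ^ (6 * m - 1) := sub_eq_zero.1 h0
    have h2 : (((1 : ℕ)) : C7) = ((7 ^ (6 * m - 1) : ℕ) : C7) := by push_cast; exact h1
    have h3 : 1 = 7 ^ (6 * m - 1) := Nat.cast_injective h2
    have h4 : 7 ^ 1 ≤ 7 ^ (6 * m - 1) := Nat.pow_le_pow_right (by norm_num) (by omega)
    omega
  obtain ⟨a, ha⟩ : ∃ a : C7, a = (1 : C7) - 7 ^ (6 * m - 1) := ⟨_, rfl⟩
  obtain ⟨d, hd⟩ : ∃ d : C7, d = (7 : C7) ^ (6 * m - 1) := ⟨_, rfl⟩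
  rw [← ha] at hne
  have hcc : algebraMap ℚ C7 ((1 : ℚ) - ((7 : ℕ) : ℚ) ^ (6 * m - 1)) = a := by
    rw [ha]; simp
  have hdd : algebraMap ℚ C7 (((7 : ℕ) : ℚ) ^ (6 * m - 1)) = d := by
    rw [hd]; simp
  have hS1 := congrArg (PowerSeries.map (algebraMap ℚ C7)) (eisStabP_eq 7 (6 * m) (by omega))
  rw [map_mul, PowerSeries.map_C, hcc, map_sub (PowerSeries.map (algebraMap ℚ C7)),
    map_mul (PowerSeries.map (algebraMap ℚ C7)), PowerSeries.map_C, hdd, hE2, hE1] at hS1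
  have hCs : ∀ (b : C7) (w : PowerSeries C7),
      (C b * w).subst (hauptmodul 7 C7) = C b * w.subst (hauptmodul 7 C7) := by
    intro b w
    rw [PowerSeries.subst_mul hs]
    exact congrArg (fun z => z * w.subst (hauptmodul 7 C7)) (PowerSeries.subst_C b)
  have heq : PowerSeries.map (algebraMap ℚ C7) (eisStabP 7 (6 * m)) =
      phi7 C7 ^ (2 * m) * (C a⁻¹ * (Q - C d * (S7 C7 ^ m * G))).subst (hauptmodul 7 C7) := by
    rw [hCs, PowerSeries.subst_sub hs, hCs]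
    have h1 : (C a⁻¹ : PowerSeries C7) * C a = 1 := by
      rw [← map_mul, inv_mul_cancel₀ hne, map_one]
    calc PowerSeries.map (algebraMap ℚ C7) (eisStabP 7 (6 * m))
        = (C a⁻¹ * C a) * PowerSeries.map (algebraMap ℚ C7) (eisStabP 7 (6 * m)) := by
          rw [h1, one_mul]
      _ = C a⁻¹ * (C a * PowerSeries.map (algebraMap ℚ C7) (eisStabP 7 (6 * m))) := by ring
      _ = _ := by rw [hS1]; ring
  refine ⟨C a⁻¹ * (Q - C d * (S7 C7 ^ m * G)), ?_, ?_, heq⟩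
  · have h1 := congrArg (PowerSeries.constantCoeff) heq
    rw [map_mul, map_pow, constantCoeff_phi7, one_pow, one_mul,
      ← PowerSeries.coeff_zero_eq_constantCoeff_apply,
      ← PowerSeries.coeff_zero_eq_constantCoeff_apply, fx_coeff_subst, PowerSeries.coeff_map,
      Finset.sum_range_zero, zero_add] at h1
    rw [← h1]
    unfold eisStabP
    rw [map_add, PowerSeries.coeff_mk]
    simp
  · have hQb : D7kBd (7 / 5) Q := by
      rw [hQ]
      exact d7k_sum hr.le _ fun i _ => d7k_mul hr (d7k_C _ _) (d7k_pow hr (d7k_X _ hr.le) i)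
    have hGb : D7kBd (7 / 5) G := by
      rw [hG]
      exact d7k_sum hr.le _ fun i _ => d7k_mul hr (d7k_C _ _) (d7k_pow hr (d7k_g hK) i)
    refine d7k_mul hr (d7k_C _ _) ?_
    rw [sub_eq_add_neg]
    exact d7k_add hr.le hQb (d7k_neg (d7k_mul hr (d7k_C _ _)
      (d7k_mul hr (d7k_pow hr (d7k_S hK) m) hGb)))

end D7

end GH
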