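import Pool.Agent.GH.Base
import Pool.Agent.GH.DefsU

/-!
# Ghost conjecture `(7,1)`: definitions used in the proof

`phi7 = E(q)^7/E(q^7)` (weight three), `dlog7 = θf/f`, `nser7 = φ^{4/3} (1+13f+49f²)^{1/3}`
(weight four). `h = f(q)`, `g = f(q^7) = h^7/S(h)²` with `S(f) = φ(q^7)²/φ(q)²`,
`Y = (1+5h+h²)/(1+245g+2401g²)`; the matrices `Mat7 c x` of `U_7` in the bases
`φ^{2x} D_c f^j`, `D_c = 1, θf/f, nser7` (`c = 0, 1, 2`) of the forms of weight `6x + 2c` on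
the component `c`, and the parametrisation `w = (15^6)^x - 1` of the weights `z^{6x}`.
-/

open PowerSeries Filter Topology

noncomputable section

namespace GH

namespace D7

instance fact_prime_seven : Fact (Nat.Prime 7) := ⟨by norm_num⟩

theorem seven_ne : (7 : ℕ) ≠ 0 := by norm_num

/-- `φ = ∏ (1-q^n)^7/(1-q^{7n})`. -/
def phi7 (R : Type*) [CommRing R] : PowerSeries R := euler R 1 ^ 7 * invOfUnit (euler R 7) 1

/-- `θF = q dF/dq`. -/
def thq7 {R : Type*} [CommRing R] (F : PowerSeries R) : PowerSeries R :=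
  PowerSeries.mk fun n ↦ (n : R) * PowerSeries.coeff n F

/-- `θf/f` for the series `f = q ∏ ((1-q^{7n})/(1-q^n))^4`, computed as `θ(u)/u + 1` for
`f = q u`. -/
def dlog7 (R : Type*) [CommRing R] : PowerSeries R :=
  1 + thq7 ((euler R 7 * invOfUnit (euler R 1) 1) ^ 4) *
    invOfUnit ((euler R 7 * invOfUnit (euler R 1) 1) ^ 4) 1

/-- The series `S` in one variable `h` with `S(f(q)) = φ(q^7)²/φ(q)²`. -/
def S7 (R : Type*) [CommRing R] : PowerSeries R :=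
  PowerSeries.mk fun n ↦
    fcoeff 7 ((phi7 R ^ 2).expand 7 seven_ne * invOfUnit (phi7 R ^ 2) 1) n

/-- `g = h^7/S(h)²`: `f(q^7)` in terms of `h = f(q)`. -/
def gs7 (R : Type*) [CommRing R] : PowerSeries R := X ^ 7 * invOfUnit (S7 R ^ 2) 1

/-- `Y = (1 + 5h + h²)/(1 + 245g + 2401g²)`. -/
def Y7 (R : Type*) [CommRing R] : PowerSeries R :=
  (1 + C (5 : R) * X + X ^ 2) *
    invOfUnit (1 + C (245 : R) * gs7 R + C (2401 : R) * gs7 R ^ 2) 1

/-- The exponent of `Y`: `2, 0, 1`. -/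
def ey7 (c : ℕ) : ℕ := if c = 0 then 2 else if c = 1 then 0 else 1

/-- The shift in the exponent of `S`: `1, 0, 1`. -/
def sh7 (c : ℕ) : ℕ := if c = 1 then 0 else 1

/-- The matrix of `U_7` in the basis `φ^{2x} D_c f^j`, `c = 0, 1, 2`:
`[h^{7i-j}] S^{2i - x - s_c} Y^{e_c}`. -/
def Mat7 {K : Type*} [Field K] (c : ℕ) (x : K) (i j : ℕ) : K :=
  if j ≤ 7 * i then
    PowerSeries.coeff (7 * i - j) (ppow (S7 K) (2 * (i : K) - x - sh7 c) * Y7 K ^ ey7 c)
  else 0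

/-- `φ^{2x}`, a form of weight `6x`. -/
def phiPow7 {K : Type*} [Field K] (x : K) : PowerSeries K := ppow (phi7 K ^ 2) x

/-- `φ^{4/3} (1+13f+49f²)^{1/3}`, a form of weight four. -/
def nser7 (K : Type*) [Field K] : PowerSeries K :=
  ppow (phi7 K) (4 / 3) *
    (ppow (1 + C (13 : K) * X + C (49 : K) * X ^ 2) (1 / 3)).subst (hauptmodul 7 K)

/-- `D_c = 1, θf/f, φ^{4/3} (1+13f+49f²)^{1/3}`. -/
def dser7 (K : Type*) [Field K] (c : ℕ) : PowerSeries K :=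
  if c = 0 then 1 else if c = 1 then dlog7 K else nser7 K

/-- The field `ℂ_7`. -/
abbrev C7 : Type := PadicComplex 7

/-- `w(x) = (15^6)^x - 1 = ∑_{n ≥ 1} binom(x, n) (15^6-1)^n`. -/
def wx7 (x : C7) : C7 :=
  ∑' n : ℕ, PowerSeries.coeff (n + 1) (binS x) * (15 ^ 6 - 1) ^ (n + 1)

/-- The theorem on the central disc. -/
def CentralTheorem7 : Prop :=
  ∀ c : ℕ, c ≤ 2 → ∀ x : C7, ‖x‖ ≤ 1 →
    newtonPolygon 7 (fred (Mat7 c x)) =
      newtonPolygon 7 (ghostG 7 c (225 ^ c * (1 + wx7 x) - 1))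

end D7

end GH
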