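import Pool.Agent.GH.D7.Ser7
import Pool.Agent.GH.ClEk
import Pool.Agent.GH.DP.BaseP

/-! Eisenstein series of weight divisible by six in terms of `φ` and `f`. -/

open PowerSeries Filter Topology

noncomputable section

namespace GH

namespace D7

open GP DP
open scoped MatrixGroups
open ModularForm UpperHalfPlane

/-- level one forms of weight `6m` with rational q-expansion -/
theorem d7j_main (m : ℕ) : ∀ (k : ℤ), k = 6 * m → ∀ (f : ModularForm 𝒮ℒ k) (F : PowerSeries ℚ),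
    qExpansion 1 f = c2m F → ∃ c : ℕ → ℚ, F = ∑ b ∈ Finset.range (m / 2 + 1),
      C (c b) * eisQ 6 ^ (m - 2 * b) * c2D ^ b := by
  induction m using Nat.strong_induction_on with
  | _ m ih =>
  intro k hk f F hF
  obtain ⟨r, hr⟩ : ∃ r : ℚ, r = PowerSeries.coeff 0 F := ⟨_, rfl⟩
  obtain ⟨e, he⟩ : ∃ e : ModularForm 𝒮ℒ k, e = ModularForm.mcast (by rw [hk]; ring)
    (E₆.pow m) := ⟨_, rfl⟩
  have hqe : qExpansion 1 e = c2m (eisQ 6 ^ m) := by
    rw [he]
    rw [ModularForm.qExpansion_mcast, ModularForm.qExpansion_pow one_pos one_mem_strictPeriods_SL,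
      c2_eis _ ⟨3, rfl⟩, map_pow]
  obtain ⟨f', hf'⟩ : ∃ f' : ModularForm 𝒮ℒ k, f' = f - (r : ℂ) • e := ⟨_, rfl⟩
  have hq : qExpansion 1 f' = c2m (F - C r * eisQ 6 ^ m) := by
    rw [hf', show ((f - (r : ℂ) • e : ModularForm 𝒮ℒ k) : ℍ → ℂ) = ⇑f - ⇑((r : ℂ) • e) from rfl,
      ModularForm.qExpansion_sub one_pos one_mem_strictPeriods_SL f ((r : ℂ) • e),
      show (((r : ℂ) • e : ModularForm 𝒮ℒ k) : ℍ → ℂ) = (r : ℂ) • ⇑e from rfl,
      ModularForm.qExpansion_smul one_pos one_mem_strictPeriods_SL (r : ℂ) e, hF, hqe, map_sub,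
      map_mul, PowerSeries.map_C, PowerSeries.smul_eq_C_mul]
    rfl
  have hE0 : PowerSeries.constantCoeff (eisQ 6) = 1 := by
    unfold eisQ
    rw [map_add, map_one, ← PowerSeries.coeff_zero_eq_constantCoeff_apply, PowerSeries.coeff_mk]
    simp
  have hcusp : (qExpansion 1 f').coeff 0 = 0 := by
    rw [hq, PowerSeries.coeff_map, map_sub]
    have h1 : PowerSeries.coeff 0 (C r * eisQ 6 ^ m) = r := by
      rw [PowerSeries.coeff_zero_eq_constantCoeff_apply, map_mul, map_pow, hE0, one_pow, mul_one]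
      exact PowerSeries.constantCoeff_C r
    rw [h1, ← hr, sub_self, map_zero]
  have hfac := qExpansion_eq_qExpansion_discriminant_mul f' hcusp
  obtain ⟨g, hg⟩ : ∃ g : ModularForm 𝒮ℒ (k - 12),
    g = CuspForm.discriminantEquiv (toCuspForm f' hcusp) := ⟨_, rfl⟩
  rw [← hg, hq, c2_disc'] at hfac
  rcases lt_or_ge m 2 with hm | hm
  · have hg0 : (g : ℍ → ℂ) = 0 :=
      ModularFormClass.levelOne_neg_weight_eq_zero (k := k - 12) (by omega) g
    rw [hg0, qExpansion_zero, mul_zero] at hfac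
    have h1 := c2m_inj (hfac.trans (map_zero c2m).symm)
    refine ⟨fun _ => r, ?_⟩
    have h2 : m / 2 = 0 := Nat.div_eq_of_lt hm
    rw [h2, zero_add, Finset.sum_range_one, mul_zero, Nat.sub_zero, pow_zero, mul_one]
    exact sub_eq_zero.1 h1
  · obtain ⟨G', hG', hFG⟩ := c2_rat (F := F - C r * eisQ 6 ^ m) (u := euler ℚ 1 ^ 24)
      (G := qExpansion 1 g) (by rw [map_pow, c2_euler_zero, one_pow]) hfac
    obtain ⟨c', hc'⟩ := ih (m - 2) (by omega) (k - 12) (by omega) g G' hG'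
    refine ⟨fun b => if b = 0 then r else c' (b - 1), ?_⟩
    have h2 : m / 2 + 1 = ((m - 2) / 2 + 1) + 1 := by omega
    rw [h2, Finset.sum_range_succ']
    have h3 : F = (X * euler ℚ 1 ^ 24) * G' + C r * eisQ 6 ^ m := by
      rw [← hFG]; ring
    rw [h3, hc', Finset.mul_sum]
    beta_reduce
    rw [if_pos rfl, mul_zero, Nat.sub_zero, pow_zero, mul_one]
    congr 1
    refine Finset.sum_congr rfl fun b _ => ?_
    rw [if_neg (Nat.succ_ne_zero b), Nat.add_sub_cancel,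
      show m - 2 * (b + 1) = m - 2 - 2 * b by omega, pow_succ c2D b]
    unfold c2D
    ring

/-- Level one forms of weight `6m`: polynomials in `E_6` and `Δ`. -/
theorem eisQ_eq_sum7 (m : ℕ) (hm : 1 ≤ m) : ∃ c : ℕ → ℚ,
    eisQ (6 * m) = ∑ j ∈ Finset.range (m / 2 + 1),
      C (c j) * eisQ 6 ^ (m - 2 * j) * (X * euler ℚ 1 ^ 24) ^ j := by
  have hk : 3 ≤ 6 * m := by omega
  have hk2 : Even (6 * m) := ⟨3 * m, by ring⟩
  exact d7j_main m _ (by push_cast; ring) (ModularForm.E hk) (eisQ (6 * m)) (c2_eis hk hk2)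

/-- `E_{6m} = φ^{2m} P(f)`. -/
theorem eisQ_eq_phi7 (hK : K7) (m : ℕ) (hm : 1 ≤ m) :
    ∃ P : Polynomial ℚ, eisQ (6 * m) = phi7 ℚ ^ (2 * m) *
      ∑ i ∈ Finset.range (P.natDegree + 1), C (P.coeff i) * hauptmodul 7 ℚ ^ i := by
  obtain ⟨c, hc⟩ := eisQ_eq_sum7 m hm
  have hd := hauptmodul7_mul_phi ℚ
  obtain ⟨h, hh⟩ : ∃ h : PowerSeries ℚ, h = hauptmodul 7 ℚ := ⟨_, rfl⟩
  obtain ⟨t, ht⟩ : ∃ t : PowerSeries ℚ, t = phi7 ℚ := ⟨_, rfl⟩
  obtain ⟨P, hP⟩ : ∃ P : Polynomial ℚ, P = ∑ b ∈ Finset.range (m / 2 + 1),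
      Polynomial.C (c b) * (1 - Polynomial.C 490 * Polynomial.X -
        Polynomial.C 21609 * Polynomial.X ^ 2 - Polynomial.C 235298 * Polynomial.X ^ 3 -
        Polynomial.C 823543 * Polynomial.X ^ 4) ^ (m - 2 * b) * Polynomial.X ^ b := ⟨_, rfl⟩
  refine ⟨P, ?_⟩
  have h1 : ∑ i ∈ Finset.range (P.natDegree + 1), C (P.coeff i) * hauptmodul 7 ℚ ^ i =
      Polynomial.aeval (hauptmodul 7 ℚ) P := by
    rw [Polynomial.aeval_eq_sum_range]
    refine Finset.sum_congr rfl fun i _ => ?_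
    rw [PowerSeries.smul_eq_C_mul]
  rw [h1, hP, map_sum, hc, Finset.mul_sum]
  refine Finset.sum_congr rfl fun b hb => ?_
  rw [Finset.mem_range] at hb
  rw [map_mul, map_mul, map_pow, map_pow, map_sub, map_sub, map_sub, map_sub, map_one, map_mul,
    map_mul, map_mul, map_mul, map_pow, map_pow, map_pow, Polynomial.aeval_X,
    Polynomial.aeval_C, Polynomial.aeval_C, Polynomial.aeval_C, Polynomial.aeval_C,
    Polynomial.aeval_C, ← hd, hK.k1, ← hh, ← ht]
  have h2 : (algebraMap ℚ (PowerSeries ℚ)) 490 = C 490 := rfl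
  have h3 : (algebraMap ℚ (PowerSeries ℚ)) (c b) = C (c b) := rfl
  have h5 : (algebraMap ℚ (PowerSeries ℚ)) 21609 = C 21609 := rfl
  have h6 : (algebraMap ℚ (PowerSeries ℚ)) 235298 = C 235298 := rfl
  have h7 : (algebraMap ℚ (PowerSeries ℚ)) 823543 = C 823543 := rfl
  rw [h2, h3, h5, h6, h7]
  have h4 : t ^ (2 * m) = (t ^ 2) ^ (m - 2 * b) * (t ^ 4) ^ b := by
    rw [← pow_mul, ← pow_mul, ← pow_add]
    congr 1
    have : 2 * b ≤ m := by omega
    omega
  rw [h4, mul_pow, mul_pow]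
  ring

end D7

end GH
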