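import Pool.Agent.GH.D7.Base7
import Pool.Agent.GH.D3.ClG12b

/-! The functions `f = (η(7z)/η(z))^4` and `φ² = η(z)^14/η(7z)^2` on the upper half plane and
their transformations under `Γ_0(7)`. -/

open PowerSeries Filter Topology

noncomputable section

namespace GH

namespace D7

open ModularForm
open Complex (I exp)

/-- `f = (η(7z)/η(z))^4`. -/
def f7z (z : ℂ) : ℂ := (eta (7 * z) / eta z) ^ 4

/-- `φ² = η(z)^14/η(7z)^2`. -/
def p7z (z : ℂ) : ℂ := eta z ^ 14 / eta (7 * z) ^ 2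

/-- Invariance of weight `k` under `T = (1 1; 0 1)`, `V = (1 0; 7 1)` and the elliptic elements
`(-3 -1; 7 2)`, `(2 -1; 7 -3)` of `Γ_0(7)`. -/
structure Inv7 (k : ℕ) (F : ℂ → ℂ) : Prop where
  T : ∀ z : ℂ, F (z + 1) = F z
  V : ∀ z : ℂ, 0 < z.im → F (z / (7 * z + 1)) = (7 * z + 1) ^ k * F z
  g1 : ∀ z : ℂ, 0 < z.im → F ((-3 * z - 1) / (7 * z + 2)) = (7 * z + 2) ^ k * F z
  g3 : ∀ z : ℂ, 0 < z.im → F ((2 * z - 1) / (7 * z - 3)) = (7 * z - 3) ^ k * F z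

/-! ### Auxiliary facts -/

theorem d7a_im {z : ℂ} (hz : 0 < z.im) : 0 < (7 * z).im := by
  have := GH.D3.im_nat_mul hz (n := 7) (by norm_num)
  simpa using this

theorem d7a_ne {z : ℂ} (hz : 0 < z.im) : z ≠ 0 := by
  rintro rfl
  simp at hz

theorem d7a_sqrt_two {z : ℂ} (hz : z ≠ 0) : Complex.sqrt z ^ 2 = z := by
  rw [_root_.sqrt_eq_exp hz, ← Complex.exp_nat_mul]
  have : ((2 : ℕ) : ℂ) * (Complex.log z / 2) = Complex.log z := by
    push_cast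
    ring
  rw [this, Complex.exp_log hz]

theorem d7a_S {z : ℂ} (hz : 0 < z.im) : eta (-1 / z) ^ 2 = -I * z * eta z ^ 2 := by
  have hz0 := d7a_ne hz
  have h := eta_comp_eq_csqrt_I_inv hz
  have h1 : eta (-1 / z) = (Complex.sqrt I)⁻¹ * (Complex.sqrt z * eta z) := h
  rw [h1, mul_pow, inv_pow, mul_pow, d7a_sqrt_two hz0, d7a_sqrt_two Complex.I_ne_zero,
    Complex.inv_I]
  ring

theorem d7a_f_eq (z : ℂ) : f7z z = (eta (7 * z) ^ 2 / eta z ^ 2) ^ 2 := by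
  rw [f7z, ← div_pow, ← pow_mul]

theorem d7a_p_eq (z : ℂ) : p7z z = (eta z ^ 2) ^ 7 / eta (7 * z) ^ 2 := by
  rw [p7z, ← pow_mul]

/-- the twenty-fourth root of unity -/
def d7a_zt : ℂ := exp (Real.pi * I / 12)

theorem d7a_zt_pow : d7a_zt ^ 24 = 1 := by
  rw [d7a_zt, ← Complex.exp_nat_mul]
  have : ((24 : ℕ) : ℂ) * (Real.pi * I / 12) = 2 * Real.pi * I := by
    push_cast
    ring
  rw [this, Complex.exp_two_pi_mul_I]

theorem d7a_zt_ne : d7a_zt ≠ 0 := Complex.exp_ne_zero _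

theorem d7a_T (z : ℂ) : eta (z + 1) = d7a_zt * eta z := by
  rw [eta, eta, ← mul_assoc]
  congr 1
  · rw [Function.Periodic.qParam, Function.Periodic.qParam, d7a_zt, ← Complex.exp_add]
    congr 1
    push_cast
    ring
  · congr 1
    funext n
    rw [eta_q_eq_pow, eta_q_eq_pow, mul_add, Complex.exp_add, mul_one,
      Complex.exp_two_pi_mul_I, mul_one]

theorem d7a_T7 (z : ℂ) : eta (7 * (z + 1)) = d7a_zt ^ 7 * eta (7 * z) := by
  have h : 7 * (z + 1) = 7 * z + 1 + 1 + 1 + 1 + 1 + 1 + 1 := by ring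
  rw [h, d7a_T, d7a_T, d7a_T, d7a_T, d7a_T, d7a_T, d7a_T]
  ring

theorem f7z_ne {z : ℂ} (hz : 0 < z.im) : f7z z ≠ 0 :=
  pow_ne_zero _ (div_ne_zero (eta_ne_zero (d7a_im hz)) (eta_ne_zero hz))

theorem p7z_ne {z : ℂ} (hz : 0 < z.im) : p7z z ≠ 0 :=
  div_ne_zero (pow_ne_zero _ (eta_ne_zero hz)) (pow_ne_zero _ (eta_ne_zero (d7a_im hz)))

theorem d7a_seven {z : ℂ} (hz : 0 < z.im) : 7 * (-1 / (7 * z)) = -1 / z := by
  have hz0 := d7a_ne hz
  field_simp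

theorem f7z_W {z : ℂ} (hz : 0 < z.im) : f7z (-1 / (7 * z)) = (49 * f7z z)⁻¹ := by
  have hz0 := d7a_ne hz
  have hA : eta z ^ 2 ≠ 0 := pow_ne_zero _ (eta_ne_zero hz)
  have hA7 : eta (7 * z) ^ 2 ≠ 0 := pow_ne_zero _ (eta_ne_zero (d7a_im hz))
  have hI : I ≠ 0 := Complex.I_ne_zero
  rw [d7a_f_eq, d7a_f_eq, d7a_seven hz, d7a_S hz, d7a_S (d7a_im hz)]
  generalize eta z ^ 2 = A at *
  generalize eta (7 * z) ^ 2 = B at *
  field_simp
  norm_num

theorem p7z_W {z : ℂ} (hz : 0 < z.im) :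
    p7z (-1 / (7 * z)) = -(7 ^ 7 * z ^ 6 * p7z z * f7z z ^ 4) := by
  have hz0 := d7a_ne hz
  have hA : eta z ^ 2 ≠ 0 := pow_ne_zero _ (eta_ne_zero hz)
  have hA7 : eta (7 * z) ^ 2 ≠ 0 := pow_ne_zero _ (eta_ne_zero (d7a_im hz))
  have hI : I ≠ 0 := Complex.I_ne_zero
  have hI6 : I ^ 6 = -1 := by
    have : I ^ 6 = (I ^ 2) ^ 3 := by ring
    rw [this, Complex.I_sq]
    norm_num
  rw [d7a_p_eq, d7a_p_eq, d7a_f_eq, d7a_seven hz, d7a_S hz, d7a_S (d7a_im hz)]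
  generalize eta z ^ 2 = A at *
  generalize eta (7 * z) ^ 2 = B at *
  have h1 : (-I * (7 * z) * B) ^ 7 / (-I * z * A) = I ^ 6 * (7 ^ 7 * z ^ 6 * (B ^ 7 / A)) := by
    field_simp
  rw [h1, hI6]
  field_simp

theorem f7z_diff {z : ℂ} (hz : 0 < z.im) : DifferentiableAt ℂ f7z z := by
  have h1 : DifferentiableAt ℂ (fun t : ℂ ↦ eta (7 * t)) z :=
    DifferentiableAt.comp (g := eta) (f := fun t : ℂ ↦ 7 * t) z
      (differentiableAt_eta_of_mem_upperHalfPlaneSet (d7a_im hz)) (by fun_prop)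
  exact (h1.div (differentiableAt_eta_of_mem_upperHalfPlaneSet hz) (eta_ne_zero hz)).pow 4

theorem p7z_diff {z : ℂ} (hz : 0 < z.im) : DifferentiableAt ℂ p7z z := by
  have h1 : DifferentiableAt ℂ (fun t : ℂ ↦ eta (7 * t)) z :=
    DifferentiableAt.comp (g := eta) (f := fun t : ℂ ↦ 7 * t) z
      (differentiableAt_eta_of_mem_upperHalfPlaneSet (d7a_im hz)) (by fun_prop)
  exact ((differentiableAt_eta_of_mem_upperHalfPlaneSet hz).pow 14).div (h1.pow 2)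
    (pow_ne_zero _ (eta_ne_zero (d7a_im hz)))

theorem d7a_f_T (z : ℂ) : f7z (z + 1) = f7z z := by
  have h1 : d7a_zt ^ 7 * eta (7 * z) / (d7a_zt * eta z) = d7a_zt ^ 6 * (eta (7 * z) / eta z) := by
    have h2 : d7a_zt ^ 7 * eta (7 * z) = d7a_zt * (d7a_zt ^ 6 * eta (7 * z)) := by ring
    rw [h2, mul_div_mul_left _ _ d7a_zt_ne, mul_div_assoc]
  rw [f7z, f7z, d7a_T7, d7a_T, h1, mul_pow, ← pow_mul, d7a_zt_pow, one_mul]

theorem d7a_p_T (z : ℂ) : p7z (z + 1) = p7z z := by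
  rw [p7z, p7z, d7a_T7, d7a_T, mul_pow, mul_pow, ← pow_mul,
    mul_div_mul_left _ _ (pow_ne_zero _ d7a_zt_ne)]

/-! ### The element `V` -/

theorem d7a_v {u : ℂ} (hu : 0 < u.im) : ∃ v : ℂ, 0 < v.im ∧ u / (7 * u + 1) = -1 / (7 * v) ∧
    v + 1 = -1 / (7 * u) ∧ 7 * (v * u) = -(7 * u + 1) := by
  have hu0 := d7a_ne hu
  have h31 : 7 * u + 1 ≠ 0 := by
    intro h
    have h1 := congrArg Complex.im h
    have h2 := d7a_im hu
    rw [Complex.add_im, Complex.one_im, Complex.zero_im, add_zero] at h1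
    linarith
  have hw : 0 < (-1 / (7 * u)).im := GH.D3.im_S (d7a_im hu)
  refine ⟨-1 / (7 * u) - 1, ?_, ?_, by ring, ?_⟩
  · rw [Complex.sub_im, Complex.one_im, sub_zero]
    exact hw
  · have h3 : (7 : ℂ) * (-1 / (7 * u) - 1) = -((7 * u + 1) / u) := by
      field_simp
      ring
    rw [h3]
    field_simp
  · field_simp
    ring

theorem d7a_f_V {u : ℂ} (hu : 0 < u.im) : f7z (u / (7 * u + 1)) = f7z u := by
  obtain ⟨v, hv, h1, h2, -⟩ := d7a_v hu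
  rw [h1, f7z_W hv, ← d7a_f_T v, h2, f7z_W hu]
  have := f7z_ne hu
  field_simp

theorem d7a_p_V {u : ℂ} (hu : 0 < u.im) : p7z (u / (7 * u + 1)) = (7 * u + 1) ^ 6 * p7z u := by
  obtain ⟨v, hv, h1, h2, h3⟩ := d7a_v hu
  have hf := f7z_ne hu
  have h4 : (7 * u + 1) ^ 6 = 7 ^ 6 * v ^ 6 * u ^ 6 := by
    have h5 : 7 * u + 1 = -(7 * (v * u)) := by rw [h3, neg_neg]
    rw [h5]
    ring
  rw [h1, p7z_W hv, ← d7a_f_T v, ← d7a_p_T v, h2, f7z_W hu, p7z_W hu, h4]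
  field_simp
  ring

/-! ### Elliptic elements -/

open scoped MatrixGroups
open UpperHalfPlane in
theorem d7a_SL (a b c d : ℤ) (h : a * d - b * c = 1) {z : ℂ} (hz : 0 < z.im) :
    0 < ((a * z + b) / (c * z + d)).im ∧ c * z + d ≠ 0 ∧
    eta ((a * z + b) / (c * z + d)) ^ 24 = (c * z + d) ^ 12 * eta z ^ 24 := by
  obtain ⟨A, hA⟩ : ∃ A : SL(2, ℤ), A = ⟨!![a, b; c, d], by
    rw [Matrix.det_fin_two_of, h]⟩ := ⟨_, rfl⟩
  obtain ⟨τ, hτ⟩ : ∃ τ : ℍ, (τ : ℂ) = z := ⟨⟨z, hz⟩, rfl⟩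
  have h1 : ((A • τ : ℍ) : ℂ) = (a * z + b) / (c * z + d) := by
    rw [coe_specialLinearGroup_apply, hA, hτ]
    simp
  have hd : denom A τ = c * z + d := by
    rw [denom, hA, hτ]
    simp
  have hd0 : (c : ℂ) * z + d ≠ 0 := by
    rw [← hd]
    exact denom_ne_zero _ _
  have h2 := congrFun (SlashInvariantForm.slash_action_generators_SL2Z discriminant_S_invariant
    discriminant_T_invariant A) τ
  rw [SL_slash_apply, hd] at h2
  refine ⟨?_, hd0, ?_⟩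
  · rw [← h1]
    exact (A • τ).im_pos
  · have h3 : eta ((a * z + b) / (c * z + d)) ^ 24 * (c * z + d) ^ (-12 : ℤ) = eta z ^ 24 := by
      rw [← h1, ← hτ]
      rw [← hτ] at h2
      exact h2
    rw [zpow_neg] at h3
    have h4 : ((c : ℂ) * z + d) ^ (12 : ℤ) = (c * z + d) ^ 12 := by norm_cast
    rw [h4] at h3
    rw [← h3, mul_left_comm, mul_inv_cancel₀ (pow_ne_zero _ hd0), mul_one]

theorem d7a_const {F : ℂ → ℂ} (hF : ∀ z : ℂ, 0 < z.im → ContinuousAt F z) {n : ℕ} (hn : 0 < n)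
    (h : ∀ z : ℂ, 0 < z.im → F z ^ n = 1) {z₀ : ℂ} (hz₀ : 0 < z₀.im) (h0 : F z₀ = 1) {z : ℂ}
    (hz : 0 < z.im) : F z = 1 := by
  have hfin : {x : ℂ | x ^ n = 1}.Finite := by
    refine ((Polynomial.nthRoots n (1 : ℂ)).toFinset.finite_toSet).subset fun x hx ↦ ?_
    rw [Finset.mem_coe, Multiset.mem_toFinset, Polynomial.mem_nthRoots hn]
    exact hx
  have hc : IsPreconnected {z : ℂ | 0 < z.im} := (convex_halfSpace_im_gt 0).isPreconnected
  have h1 : ContinuousOn F {z : ℂ | 0 < z.im} := fun z hz ↦ (hF z hz).continuousWithinAt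
  have h2 : Set.MapsTo F {z : ℂ | 0 < z.im} {x : ℂ | x ^ n = 1} := fun z hz ↦ h z hz
  rw [← h0]
  exact hc.constant_of_mapsTo hfin.isDiscrete h1 h2 hz hz₀

theorem d7a_ell (a b d : ℤ) (h : a * d - 7 * b = 1) {z₀ : ℂ} (hz₀ : 0 < z₀.im)
    (hfix : a * z₀ + b = z₀ * (7 * z₀ + d)) (h6 : (7 * z₀ + d) ^ 6 = 1) :
    (∀ z : ℂ, 0 < z.im → f7z ((a * z + b) / (7 * z + d)) = f7z z) ∧
    ∀ z : ℂ, 0 < z.im → p7z ((a * z + b) / (7 * z + d)) = (7 * z + d) ^ 6 * p7z z := by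
  have hA : ∀ z : ℂ, 0 < z.im → 0 < ((a * z + b) / (7 * z + d)).im ∧ 7 * z + d ≠ 0 ∧
      eta ((a * z + b) / (7 * z + d)) ^ 24 = (7 * z + d) ^ 12 * eta z ^ 24 := by
    intro z hz
    have := d7a_SL a b 7 d (by linarith) hz
    push_cast at this
    exact this
  have hB : ∀ z : ℂ, 0 < z.im → eta (7 * ((a * z + b) / (7 * z + d))) ^ 24 =
      (7 * z + d) ^ 12 * eta (7 * z) ^ 24 := by
    intro z hz
    have := (d7a_SL a (7 * b) 1 d (by linarith) (d7a_im hz)).2.2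
    push_cast at this
    rw [one_mul] at this
    rw [← this]
    congr 2
    rw [← mul_div_assoc]
    congr 1
    ring
  have hd₀ : 7 * z₀ + d ≠ 0 := (hA z₀ hz₀).2.1
  have hfix' : (a * z₀ + b) / (7 * z₀ + d) = z₀ := by
    rw [hfix, mul_div_cancel_right₀ _ hd₀]
  have hmob : ∀ z : ℂ, 0 < z.im →
      ContinuousAt (fun z : ℂ ↦ (a * z + b) / (7 * z + d)) z := by
    intro z hz
    exact ContinuousAt.div (by fun_prop) (by fun_prop) (hA z hz).2.1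
  have hf : ∀ z : ℂ, 0 < z.im → f7z ((a * z + b) / (7 * z + d)) = f7z z := by
    have h1 : ∀ z : ℂ, 0 < z.im → f7z ((a * z + b) / (7 * z + d)) / f7z z = 1 := by
      intro z hz
      refine d7a_const (F := fun z ↦ f7z ((a * z + b) / (7 * z + d)) / f7z z) (n := 6)
        ?_ (by norm_num) ?_ hz₀ ?_ hz
      · intro z hz
        refine ContinuousAt.div ?_ (f7z_diff hz).continuousAt (f7z_ne hz)
        exact ContinuousAt.comp (g := f7z) (f := fun z : ℂ ↦ (a * z + b) / (7 * z + d))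
          (f7z_diff (hA z hz).1).continuousAt (hmob z hz)
      · intro z hz
        obtain ⟨h2, h3, h4⟩ := hA z hz
        have h5 := hB z hz
        have e1 : ∀ w : ℂ, f7z w ^ 6 = eta (7 * w) ^ 24 / eta w ^ 24 := by
          intro w
          rw [f7z, ← pow_mul, div_pow]
        show (f7z ((a * z + b) / (7 * z + d)) / f7z z) ^ 6 = 1
        rw [div_pow, e1, e1, h4, h5, mul_div_mul_left _ _ (pow_ne_zero _ h3)]
        exact div_self (div_ne_zero (pow_ne_zero _ (eta_ne_zero (d7a_im hz)))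
          (pow_ne_zero _ (eta_ne_zero hz)))
      · show f7z ((a * z₀ + b) / (7 * z₀ + d)) / f7z z₀ = 1
        rw [hfix', div_self (f7z_ne hz₀)]
    intro z hz
    exact (div_eq_one_iff_eq (f7z_ne hz)).1 (h1 z hz)
  refine ⟨hf, ?_⟩
  have h1 : ∀ z : ℂ, 0 < z.im →
      p7z ((a * z + b) / (7 * z + d)) / ((7 * z + d) ^ 6 * p7z z) = 1 := by
    intro z hz
    refine d7a_const
      (F := fun z ↦ p7z ((a * z + b) / (7 * z + d)) / ((7 * z + d) ^ 6 * p7z z)) (n := 2)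
      ?_ (by norm_num) ?_ hz₀ ?_ hz
    · intro z hz
      refine ContinuousAt.div ?_ (ContinuousAt.mul (by fun_prop) (p7z_diff hz).continuousAt)
        (mul_ne_zero (pow_ne_zero _ (hA z hz).2.1) (p7z_ne hz))
      exact ContinuousAt.comp (g := p7z) (f := fun z : ℂ ↦ (a * z + b) / (7 * z + d))
        (p7z_diff (hA z hz).1).continuousAt (hmob z hz)
    · intro z hz
      obtain ⟨h2, h3, h4⟩ := hA z hz
      have e1 : ∀ w : ℂ, 0 < w.im → p7z w ^ 2 = eta w ^ 24 / f7z w := by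
        intro w hw
        have e2 := eta_ne_zero hw
        have e3 := eta_ne_zero (d7a_im hw)
        rw [p7z, f7z]
        field_simp
      show (p7z ((a * z + b) / (7 * z + d)) / ((7 * z + d) ^ 6 * p7z z)) ^ 2 = 1
      rw [div_pow, mul_pow, e1 _ h2, e1 _ hz, hf z hz, h4]
      have e4 := f7z_ne hz
      have e5 := eta_ne_zero hz
      field_simp
    · show p7z ((a * z₀ + b) / (7 * z₀ + d)) / ((7 * z₀ + d) ^ 6 * p7z z₀) = 1
      rw [hfix', h6, one_mul, div_self (p7z_ne hz₀)]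
  intro z hz
  exact (div_eq_one_iff_eq (mul_ne_zero (pow_ne_zero _ (hA z hz).2.1) (p7z_ne hz))).1 (h1 z hz)

theorem d7a_sq3 : ((Real.sqrt 3 : ℝ) : ℂ) ^ 2 = 3 := by
  rw [← Complex.ofReal_pow, Real.sq_sqrt (by norm_num)]
  norm_num

theorem d7a_om : ((-1 + Real.sqrt 3 * I) / 2) ^ 6 = 1 := by
  have h1 := d7a_sq3
  have h2 := Complex.I_sq
  have h3 : ((Real.sqrt 3 : ℝ) : ℂ) ^ 2 * I ^ 2 = -3 := by
    rw [h1, h2]
    norm_num
  obtain ⟨w, hw⟩ : ∃ w : ℂ, w = (-1 + Real.sqrt 3 * I) / 2 := ⟨_, rfl⟩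
  have h4 : w ^ 2 = -w - 1 := by
    rw [hw]
    linear_combination h3 / 4
  rw [← hw]
  linear_combination (w ^ 4 - w ^ 3 + w - 1) * h4

theorem d7a_g1 : (∀ z : ℂ, 0 < z.im → f7z ((-3 * z - 1) / (7 * z + 2)) = f7z z) ∧
    ∀ z : ℂ, 0 < z.im → p7z ((-3 * z - 1) / (7 * z + 2)) = (7 * z + 2) ^ 6 * p7z z := by
  have h3 : ((Real.sqrt 3 : ℝ) : ℂ) ^ 2 * I ^ 2 = -3 := by
    rw [d7a_sq3, Complex.I_sq]
    norm_num
  have h := d7a_ell (-3) (-1) 2 (by norm_num) (z₀ := (-5 + Real.sqrt 3 * I) / 14) ?_ ?_ ?_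
  · push_cast at h
    simp only [← sub_eq_add_neg] at h
    exact h
  · have e1 : ((-5 + Real.sqrt 3 * I) / 14 : ℂ) = ((-5 / 14 : ℝ) : ℂ) +
        ((Real.sqrt 3 / 14 : ℝ) : ℂ) * I := by
      push_cast
      ring
    rw [e1, Complex.add_im, Complex.ofReal_im, Complex.im_ofReal_mul, Complex.I_im]
    have := Real.sqrt_pos.2 (show (0 : ℝ) < 3 by norm_num)
    positivity
  · push_cast
    linear_combination -h3 / 28
  · rw [← d7a_om]
    congr 1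
    push_cast
    ring

theorem d7a_g3 : (∀ z : ℂ, 0 < z.im → f7z ((2 * z - 1) / (7 * z - 3)) = f7z z) ∧
    ∀ z : ℂ, 0 < z.im → p7z ((2 * z - 1) / (7 * z - 3)) = (7 * z - 3) ^ 6 * p7z z := by
  have h3 : ((Real.sqrt 3 : ℝ) : ℂ) ^ 2 * I ^ 2 = -3 := by
    rw [d7a_sq3, Complex.I_sq]
    norm_num
  have h := d7a_ell 2 (-1) (-3) (by norm_num) (z₀ := (5 + Real.sqrt 3 * I) / 14) ?_ ?_ ?_
  · push_cast at h
    simp only [← sub_eq_add_neg] at h
    exact h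
  · have e1 : ((5 + Real.sqrt 3 * I) / 14 : ℂ) = ((5 / 14 : ℝ) : ℂ) +
        ((Real.sqrt 3 / 14 : ℝ) : ℂ) * I := by
      push_cast
      ring
    rw [e1, Complex.add_im, Complex.ofReal_im, Complex.im_ofReal_mul, Complex.I_im]
    have := Real.sqrt_pos.2 (show (0 : ℝ) < 3 by norm_num)
    positivity
  · push_cast
    linear_combination -h3 / 28
  · rw [← d7a_om]
    congr 1
    push_cast
    ring

theorem inv7_f : Inv7 0 f7z where
  T := d7a_f_T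
  V z hz := by rw [pow_zero, one_mul, d7a_f_V hz]
  g1 z hz := by rw [pow_zero, one_mul, d7a_g1.1 z hz]
  g3 z hz := by rw [pow_zero, one_mul, d7a_g3.1 z hz]

theorem inv7_p : Inv7 6 p7z where
  T := d7a_p_T
  V _ hz := d7a_p_V hz
  g1 z hz := d7a_g1.2 z hz
  g3 z hz := d7a_g3.2 z hz

end D7

end GH
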