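import Pool.Agent.GH.D7.Ser7

/-! The octic equation of `S` and the growth of `S`, `Y`. -/

open PowerSeries Filter Topology

noncomputable section

namespace GH

namespace D7

/-! ### the equation -/

lemma d7e_subst_inj {R : Type*} [CommRing R] {F G : PowerSeries R}
    (h : F.subst (hauptmodul 7 R) = G.subst (hauptmodul 7 R)) : F = G := by
  have h1 := congrArg (fcoeff 7) h
  rw [fcoeff_subst, fcoeff_subst] at h1
  ext n
  exact congrFun h1 n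

lemma d7e_subst_C {R : Type*} [CommRing R] (a : R) :
    (C a : PowerSeries R).subst (hauptmodul 7 R) = C a :=
  PowerSeries.subst_C a

lemma d7e_subst_one {R : Type*} [CommRing R] :
    (1 : PowerSeries R).subst (hauptmodul 7 R) = 1 := by
  have h := d7e_subst_C (1 : R)
  rwa [map_one] at h

lemma d7e_ne_zero {F : PowerSeries ℚ} (h : PowerSeries.constantCoeff F = 1) : F ≠ 0 := by
  rintro rfl
  simp at h

/-- `S e(g) = P` over `ℚ`. -/
lemma d7e_Q (hK : K7) : S7 ℚ * (1 - C (490 : ℚ) * gs7 ℚ - C (21609 : ℚ) * gs7 ℚ ^ 2 -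
      C (235298 : ℚ) * gs7 ℚ ^ 3 - C (823543 : ℚ) * gs7 ℚ ^ 4) =
    1 + C (14 : ℚ) * X + C (63 : ℚ) * X ^ 2 + C (70 : ℚ) * X ^ 3 - C (7 : ℚ) * X ^ 4 := by
  have hs : HasSubst (hauptmodul 7 ℚ) := fx_hasSubst 7
  apply d7e_subst_inj
  have h1 := hK.k2
  have h2 := congrArg (PowerSeries.expand 7 seven_ne) hK.k1
  rw [h1] at h2
  have h3 : (PowerSeries.expand 7 seven_ne) (phi7 ℚ ^ 2 *
      (1 - C (490 : ℚ) * hauptmodul 7 ℚ - C (21609 : ℚ) * hauptmodul 7 ℚ ^ 2 -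
      C (235298 : ℚ) * hauptmodul 7 ℚ ^ 3 - C (823543 : ℚ) * hauptmodul 7 ℚ ^ 4)) =
      (phi7 ℚ ^ 2 * (S7 ℚ).subst (hauptmodul 7 ℚ)) *
      (1 - C (490 : ℚ) * (gs7 ℚ).subst (hauptmodul 7 ℚ) -
        C (21609 : ℚ) * (gs7 ℚ).subst (hauptmodul 7 ℚ) ^ 2 -
        C (235298 : ℚ) * (gs7 ℚ).subst (hauptmodul 7 ℚ) ^ 3 -
        C (823543 : ℚ) * (gs7 ℚ).subst (hauptmodul 7 ℚ) ^ 4) := by
    rw [S7_subst, gs7_subst]
    simp only [map_mul, map_sub, map_one, map_pow, PowerSeries.expand_C]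
  rw [h3, mul_assoc] at h2
  have h4 : phi7 ℚ ^ 2 ≠ 0 := pow_ne_zero 2 (d7e_ne_zero (constantCoeff_phi7 ℚ))
  have h5 := mul_left_cancel₀ h4 h2
  have e1 : (S7 ℚ * (1 - C (490 : ℚ) * gs7 ℚ - C (21609 : ℚ) * gs7 ℚ ^ 2 -
      C (235298 : ℚ) * gs7 ℚ ^ 3 - C (823543 : ℚ) * gs7 ℚ ^ 4)).subst (hauptmodul 7 ℚ) =
      (S7 ℚ).subst (hauptmodul 7 ℚ) *
      (1 - C (490 : ℚ) * (gs7 ℚ).subst (hauptmodul 7 ℚ) -
        C (21609 : ℚ) * (gs7 ℚ).subst (hauptmodul 7 ℚ) ^ 2 -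
        C (235298 : ℚ) * (gs7 ℚ).subst (hauptmodul 7 ℚ) ^ 3 -
        C (823543 : ℚ) * (gs7 ℚ).subst (hauptmodul 7 ℚ) ^ 4) := by
    rw [subst_mul hs, subst_sub hs, subst_sub hs, subst_sub hs, subst_sub hs, subst_mul hs,
      subst_mul hs, subst_mul hs, subst_mul hs, subst_pow hs, subst_pow hs, subst_pow hs,
      d7e_subst_C, d7e_subst_C, d7e_subst_C, d7e_subst_C, d7e_subst_one]
  have e2 : (1 + C (14 : ℚ) * X + C (63 : ℚ) * X ^ 2 + C (70 : ℚ) * X ^ 3 -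
      C (7 : ℚ) * X ^ 4 : PowerSeries ℚ).subst (hauptmodul 7 ℚ) =
      1 + C (14 : ℚ) * hauptmodul 7 ℚ + C (63 : ℚ) * hauptmodul 7 ℚ ^ 2 +
      C (70 : ℚ) * hauptmodul 7 ℚ ^ 3 - C (7 : ℚ) * hauptmodul 7 ℚ ^ 4 := by
    rw [subst_sub hs, subst_add hs, subst_add hs, subst_add hs, subst_mul hs,
      subst_mul hs, subst_mul hs, subst_mul hs, subst_pow hs, subst_pow hs, subst_pow hs,
      subst_X hs, d7e_subst_C, d7e_subst_C, d7e_subst_C, d7e_subst_C, d7e_subst_one]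
  rw [e1, e2]
  exact h5.symm

/-- `S e(g) = P` over `ℤ`. -/
lemma d7e_Z (hK : K7) : S7 ℤ * (1 - C (490 : ℤ) * gs7 ℤ - C (21609 : ℤ) * gs7 ℤ ^ 2 -
      C (235298 : ℤ) * gs7 ℤ ^ 3 - C (823543 : ℤ) * gs7 ℤ ^ 4) =
    1 + C (14 : ℤ) * X + C (63 : ℤ) * X ^ 2 + C (70 : ℤ) * X ^ 3 - C (7 : ℤ) * X ^ 4 := by
  have hinj : Function.Injective (PowerSeries.map (Int.castRingHom ℚ)) := by
    intro F G h
    ext n
    have h1 := congrArg (PowerSeries.coeff n) h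
    rw [PowerSeries.coeff_map, PowerSeries.coeff_map] at h1
    exact Int.cast_injective h1
  apply hinj
  have h := d7e_Q hK
  simp only [map_mul, map_sub, map_add, map_one, map_pow, PowerSeries.map_C, PowerSeries.map_X,
    map_S7, map_gs7]
  simpa using h

/-- `S e(g) = P`. -/
lemma d7e_R (hK : K7) (R : Type*) [CommRing R] :
    S7 R * (1 - C (490 : R) * gs7 R - C (21609 : R) * gs7 R ^ 2 -
      C (235298 : R) * gs7 R ^ 3 - C (823543 : R) * gs7 R ^ 4) =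
    1 + C (14 : R) * X + C (63 : R) * X ^ 2 + C (70 : R) * X ^ 3 - C (7 : R) * X ^ 4 := by
  have h := congrArg (PowerSeries.map (Int.castRingHom R)) (d7e_Z hK)
  simp only [map_mul, map_sub, map_add, map_one, map_pow, PowerSeries.map_C, PowerSeries.map_X,
    map_S7, map_gs7] at h
  simpa using h

/-- The octic equation of `S`: `S e(g) = 1 + 14h + 63h² + 70h³ - 7h⁴`. -/
theorem S7_fix (hK : K7) (R : Type*) [CommRing R] : S7 R ^ 8 =
    (1 + C (14 : R) * X + C (63 : R) * X ^ 2 + C (70 : R) * X ^ 3 - C (7 : R) * X ^ 4) *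
      S7 R ^ 7 + C (490 : R) * X ^ 7 * S7 R ^ 6 + C (21609 : R) * X ^ 14 * S7 R ^ 4 +
      C (235298 : R) * X ^ 21 * S7 R ^ 2 + C (823543 : R) * X ^ 28 := by
  have h := d7e_R hK R
  have hg := gs7_mul R
  rw [← h]
  have e1 : (X : PowerSeries R) ^ 14 = (X ^ 7) ^ 2 := by ring
  have e2 : (X : PowerSeries R) ^ 21 = (X ^ 7) ^ 3 := by ring
  have e3 : (X : PowerSeries R) ^ 28 = (X ^ 7) ^ 4 := by ring
  rw [e1, e2, e3, ← hg]
  ring

/-! ### growth -/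

/-- `7^⌈n/4⌉` divides the coefficient of `T^n` for `n < N`. -/
def d7e_P (N : ℕ) (F : PowerSeries ℤ) : Prop :=
  ∀ n < N, (7 : ℤ) ^ ((n + 3) / 4) ∣ PowerSeries.coeff n F

lemma d7e_one (N : ℕ) : d7e_P N 1 := by
  intro n _
  rw [PowerSeries.coeff_one]
  split_ifs with h
  · subst h; simp
  · exact dvd_zero _

lemma d7e_add {N : ℕ} {F G : PowerSeries ℤ} (hF : d7e_P N F) (hG : d7e_P N G) :
    d7e_P N (F + G) := by
  intro n hn
  rw [map_add]
  exact dvd_add (hF n hn) (hG n hn)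

lemma d7e_mul {N : ℕ} {F G : PowerSeries ℤ} (hF : d7e_P N F) (hG : d7e_P N G) :
    d7e_P N (F * G) := by
  intro n hn
  rw [PowerSeries.coeff_mul]
  refine Finset.dvd_sum fun p hp ↦ ?_
  have hp' := Finset.HasAntidiagonal.mem_antidiagonal.mp hp
  have h1 : (7 : ℤ) ^ ((n + 3) / 4) ∣ 7 ^ ((p.1 + 3) / 4) * 7 ^ ((p.2 + 3) / 4) := by
    rw [← pow_add]
    exact pow_dvd_pow _ (by omega)
  exact h1.trans (mul_dvd_mul (hF _ (by omega)) (hG _ (by omega)))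

lemma d7e_pow {N : ℕ} {F : PowerSeries ℤ} (hF : d7e_P N F) (k : ℕ) : d7e_P N (F ^ k) := by
  induction k with
  | zero => simpa using d7e_one N
  | succ k ih => rw [pow_succ]; exact d7e_mul ih hF

lemma d7e_inv {N : ℕ} {F G : PowerSeries ℤ} (hF : d7e_P N F)
    (h0 : PowerSeries.constantCoeff F = 1) (h : F * G = 1) : d7e_P N G := by
  intro n
  induction n using Nat.strong_induction_on with
  | _ n ih =>
    intro hn
    have e : G = 1 + (1 - F) * G := by linear_combination h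
    have e2 := congrArg (PowerSeries.coeff n) e
    rw [map_add, PowerSeries.coeff_mul] at e2
    rw [e2]
    refine dvd_add (d7e_one N n hn) (Finset.dvd_sum fun p hp ↦ ?_)
    have hp' := Finset.HasAntidiagonal.mem_antidiagonal.mp hp
    by_cases h1 : p.1 = 0
    · have h2 : PowerSeries.coeff p.1 (1 - F) = 0 := by rw [h1]; simp [h0]
      rw [h2, zero_mul]
      exact dvd_zero _
    · have h2 : PowerSeries.coeff p.1 (1 - F) = -PowerSeries.coeff p.1 F := by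
        simp [PowerSeries.coeff_one, h1]
      rw [h2]
      have h3 : (7 : ℤ) ^ ((n + 3) / 4) ∣ 7 ^ ((p.1 + 3) / 4) * 7 ^ ((p.2 + 3) / 4) := by
        rw [← pow_add]
        exact pow_dvd_pow _ (by omega)
      exact h3.trans (mul_dvd_mul ((hF _ (by omega)).neg_right) (ih p.2 (by omega) (by omega)))

/-- Multiplication by `c X^k`, `7^a ∣ c`, `⌈k/4⌉ ≤ a` up to the shift `b`. -/
lemma d7e_X {N : ℕ} {F : PowerSeries ℤ} (hF : d7e_P N F) (c : ℤ) (a k : ℕ) (hc : 7 ^ a ∣ c)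
    (hk : k ≤ 4 * a) : d7e_P (N + k) (C c * (X ^ k * F)) := by
  intro n hn
  rw [PowerSeries.coeff_C_mul, PowerSeries.coeff_X_pow_mul']
  split_ifs with h
  · have h1 : (7 : ℤ) ^ ((n + 3) / 4) ∣ 7 ^ a * 7 ^ ((n - k + 3) / 4) := by
      rw [← pow_add]
      exact pow_dvd_pow _ (by omega)
    exact h1.trans (mul_dvd_mul hc (hF _ (by omega)))
  · rw [mul_zero]
    exact dvd_zero _

lemma d7e_mono {M N : ℕ} {F : PowerSeries ℤ} (h : d7e_P N F) (hM : M ≤ N) : d7e_P M F :=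
  fun n hn ↦ h n (lt_of_lt_of_le hn hM)

/-- `1/S²`. -/
def d7e_V : PowerSeries ℤ := invOfUnit (S7 ℤ ^ 2) 1

lemma d7e_V_mul : S7 ℤ ^ 2 * d7e_V = 1 :=
  PowerSeries.mul_invOfUnit _ _ (by rw [map_pow, constantCoeff_S7]; simp)

lemma d7e_PV {N : ℕ} (h : d7e_P N (S7 ℤ)) : d7e_P N d7e_V :=
  d7e_inv (d7e_pow h 2) (by rw [map_pow, constantCoeff_S7, one_pow]) d7e_V_mul

lemma d7e_gs : gs7 ℤ = X ^ 7 * d7e_V := rfl

lemma d7e_eq (hK : K7) : S7 ℤ = 1 + C (14 : ℤ) * (X ^ 1 * 1) + C (63 : ℤ) * (X ^ 2 * 1) +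
    C (70 : ℤ) * (X ^ 3 * 1) + C (-7 : ℤ) * (X ^ 4 * 1) +
    C (490 : ℤ) * (X ^ 7 * (d7e_V * S7 ℤ)) + C (21609 : ℤ) * (X ^ 14 * (d7e_V ^ 2 * S7 ℤ)) +
    C (235298 : ℤ) * (X ^ 21 * (d7e_V ^ 3 * S7 ℤ)) +
    C (823543 : ℤ) * (X ^ 28 * (d7e_V ^ 4 * S7 ℤ)) := by
  have h := d7e_Z hK
  rw [d7e_gs] at h
  have hn : (C (-7 : ℤ) : PowerSeries ℤ) = -C 7 := by rw [map_neg]
  rw [hn]
  linear_combination h

lemma d7e_PS (hK : K7) (N : ℕ) : d7e_P N (S7 ℤ) := by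
  induction N with
  | zero => intro n hn; omega
  | succ N ih =>
    have hV := d7e_PV ih
    rw [d7e_eq hK]
    have h1 := d7e_X (d7e_one N) 14 1 1 (by norm_num) (by norm_num)
    have h2 := d7e_X (d7e_one N) 63 1 2 (by norm_num) (by norm_num)
    have h3 := d7e_X (d7e_one N) 70 1 3 (by norm_num) (by norm_num)
    have h4 := d7e_X (d7e_one N) (-7) 1 4 (by norm_num) (by norm_num)
    have h5 := d7e_X (d7e_mul hV ih) 490 2 7 (by norm_num) (by norm_num)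
    have h6 := d7e_X (d7e_mul (d7e_pow hV 2) ih) 21609 4 14 (by norm_num) (by norm_num)
    have h7 := d7e_X (d7e_mul (d7e_pow hV 3) ih) 235298 6 21 (by norm_num) (by norm_num)
    have h8 := d7e_X (d7e_mul (d7e_pow hV 4) ih) 823543 7 28 (by norm_num) (by norm_num)
    exact d7e_add (d7e_add (d7e_add (d7e_add (d7e_add (d7e_add (d7e_add (d7e_add (d7e_one _)
      (d7e_mono h1 (by omega))) (d7e_mono h2 (by omega))) (d7e_mono h3 (by omega)))
      (d7e_mono h4 (by omega))) (d7e_mono h5 (by omega))) (d7e_mono h6 (by omega)))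
      (d7e_mono h7 (by omega))) (d7e_mono h8 (by omega))

/-- Growth of `S`: `v(S_n) ≥ n/4` (and `≥ 1` for `n ≥ 1`). -/
theorem S7_dvd (hK : K7) (n : ℕ) : (7 : ℤ) ^ ((n + 3) / 4) ∣ PowerSeries.coeff n (S7 ℤ) :=
  d7e_PS hK (n + 1) n (Nat.lt_succ_self n)

/-- Growth of `Y`: `v(Y_n) ≥ (n-2)/4`. -/
theorem Y7_dvd (hK : K7) (n : ℕ) : (7 : ℤ) ^ ((n + 1) / 4) ∣ PowerSeries.coeff n (Y7 ℤ) := by
  have hV : d7e_P (n + 1) d7e_V := d7e_PV (d7e_PS hK _)
  set D : PowerSeries ℤ := 1 + C (245 : ℤ) * gs7 ℤ + C (2401 : ℤ) * gs7 ℤ ^ 2 with hD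
  have hD1 : D = 1 + C (245 : ℤ) * (X ^ 7 * d7e_V) + C (2401 : ℤ) * (X ^ 14 * d7e_V ^ 2) := by
    rw [hD, d7e_gs]
    ring
  have hD2 : d7e_P (n + 1) D := by
    rw [hD1]
    exact d7e_add (d7e_add (d7e_one _)
      (d7e_mono (d7e_X hV 245 2 7 (by norm_num) (by norm_num)) (by omega)))
      (d7e_mono (d7e_X (d7e_pow hV 2) 2401 4 14 (by norm_num) (by norm_num)) (by omega))
  have hD3 : PowerSeries.constantCoeff D = 1 := by
    rw [hD1]
    simp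
  have hI : d7e_P (n + 1) (invOfUnit D 1) :=
    d7e_inv hD2 hD3 (PowerSeries.mul_invOfUnit _ _ (by rw [hD3]; simp))
  have hY : Y7 ℤ = invOfUnit D 1 + C (5 : ℤ) * (X ^ 1 * invOfUnit D 1) +
      X ^ 2 * invOfUnit D 1 := by
    rw [Y7, ← hD]
    ring
  rw [hY, map_add, map_add, PowerSeries.coeff_C_mul, PowerSeries.coeff_X_pow_mul',
    PowerSeries.coeff_X_pow_mul']
  refine dvd_add (dvd_add ?_ ?_) ?_
  · exact (pow_dvd_pow _ (by omega)).trans (hI n (by omega))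
  · split_ifs with h
    · exact ((pow_dvd_pow _ (by omega)).trans (hI (n - 1) (by omega))).mul_left 5
    · rw [mul_zero]
      exact dvd_zero _
  · split_ifs with h
    · exact (pow_dvd_pow _ (by omega)).trans (hI (n - 2) (by omega))
    · exact dvd_zero _

end D7

end GH
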