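import Pool.Agent.GH.D7.Rel7
import Pool.Agent.GH.D7.Stab7
import Pool.Agent.GH.DP.BaseP
import Pool.Agent.GH.D5.EisW2
import Pool.Agent.GH.UMatB_a

/-! The Eisenstein series of weight two and four on `Γ_0(7)`. -/

open PowerSeries Filter Topology

noncomputable section

namespace GH

namespace D7

open GP DP

/-! ### weight two -/

lemma d7l_dlog (R : Type*) [CommRing R] : dlog7 R = 1 + 4 * (D5.d5S R 1 - D5.d5S R 7) := by
  have h1 : D5.thq (euler R 7 * invOfUnit (euler R 1) 1) =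
      (D5.d5S R 1 - D5.d5S R 7) * (euler R 7 * invOfUnit (euler R 1) 1) := by
    rw [D5.d5_thq_mul, D5.d5_euler 7 (by norm_num), D5.d5_inv]
    ring
  have h2 := D5.d5_pow _ _ h1 4
  have h3 : (euler R 7 * invOfUnit (euler R 1) 1) ^ 4 *
      invOfUnit ((euler R 7 * invOfUnit (euler R 1) 1) ^ 4) 1 = 1 := by
    refine PowerSeries.mul_invOfUnit _ _ ?_
    rw [map_pow, map_mul, fx_constantCoeff_euler, fx_constantCoeff_inv]
    simp
  have h4 : thq7 ((euler R 7 * invOfUnit (euler R 1) 1) ^ 4) =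
      D5.thq ((euler R 7 * invOfUnit (euler R 1) 1) ^ 4) := rfl
  unfold dlog7
  rw [h4, h2, mul_assoc, h3]
  push_cast
  ring

/-- `θf/f = 1 + 4 ∑ (∑_{d ∣ n, 7 ∤ d} d) q^n`. -/
theorem dlog7_eq : dlog7 ℚ = eisStabP 7 2 := by
  rw [d7l_dlog]
  unfold eisStabP
  congr 1
  ext n
  have h4 : (4 : PowerSeries ℚ) = C (4 : ℚ) := by rw [map_ofNat]
  rw [h4, PowerSeries.coeff_C_mul, map_sub, PowerSeries.coeff_mk]
  unfold D5.d5S
  rw [PowerSeries.coeff_mk, PowerSeries.coeff_mk, ← Finset.sum_sub_distrib]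
  have h5 : -(2 * ((2 : ℕ) : ℚ) / ((1 - ((7 : ℕ) : ℚ) ^ (2 - 1)) * bernoulli 2)) = 4 := by
    rw [bernoulli_two]
    norm_num
  rw [h5]
  congr 1
  refine Finset.sum_congr rfl fun d _ => ?_
  rw [if_pos (one_dvd d)]
  split_ifs <;> simp

/-! ### weight four -/

section

open UpperHalfPlane ModularForm MatrixGroups EisensteinSeries

/-- `E_4^3 = E_6^2 + 1728 Δ` as q-series. -/
lemma d7l_E46 : eisQ 4 ^ 3 = eisQ 6 ^ 2 + C (1728 : ℚ) * (X * euler ℚ 1 ^ 24) := by
  obtain ⟨F, hF⟩ : ∃ F : ModularForm 𝒮ℒ 12, F = ModularForm.mcast (by decide) (E₄.pow 3) -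
    ModularForm.mcast (by decide) (E₆.pow 2) := ⟨_, rfl⟩
  have h1 : qExpansion 1 F = qExpansion 1 E₄ ^ 3 - qExpansion 1 E₆ ^ 2 := by
    rw [hF]
    simp only [FunLike.coe_sub, coe_mcast,
      ModularForm.qExpansion_sub one_pos one_mem_strictPeriods_SL,
      ModularForm.qExpansion_pow one_pos one_mem_strictPeriods_SL]
  have h2 : (F : ℍ → ℂ) = (((1728 : ℂ) • CuspForm.discriminant : CuspForm 𝒮ℒ 12) : ℍ → ℂ) := by
    funext z
    rw [hF]
    show E₄ z ^ 3 - E₆ z ^ 2 = (1728 : ℂ) * discriminant z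
    rw [discriminant_eq_E₄_cube_sub_E₆_sq z]
    ring
  have h3 : qExpansion 1 F = (1728 : ℂ) • qExpansion 1 discriminant := by
    rw [h2]
    exact ModularForm.qExpansion_smul one_pos one_mem_strictPeriods_SL (1728 : ℂ)
      CuspForm.discriminant
  have h4 : qExpansion 1 E₄ = c2m (eisQ 4) := c2_eis _ ⟨2, rfl⟩
  have h6 : qExpansion 1 E₆ = c2m (eisQ 6) := c2_eis _ ⟨3, rfl⟩
  rw [h1, h4, h6, c2_disc', PowerSeries.smul_eq_C_mul] at h3
  apply c2m_inj
  rw [map_add, map_pow, map_pow, map_mul, ← c2D, PowerSeries.map_C]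
  have h7 : algebraMap ℚ ℂ 1728 = 1728 := by simp
  rw [h7]
  linear_combination h3

end

lemma d7l_cube {F G : PowerSeries ℚ} (hF : PowerSeries.constantCoeff F = 1)
    (hG : PowerSeries.constantCoeff G = 1) (h : F ^ 3 = G ^ 3) : F = G := by
  have h1 : (F - G) * (F ^ 2 + F * G + G ^ 2) = 0 := by linear_combination h
  rcases mul_eq_zero.1 h1 with h2 | h2
  · exact sub_eq_zero.1 h2
  · exfalso
    have h3 := congrArg PowerSeries.constantCoeff h2
    rw [map_add, map_add, map_pow, map_mul, map_pow, hF, hG, map_zero] at h3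
    norm_num at h3

section

variable {K : Type*} [Field K]

lemma d7l_cN : PowerSeries.constantCoeff (1 + C (13 : K) * X + C (49 : K) * X ^ 2 : PowerSeries K)
    = 1 := by
  simp

lemma d7l_hc : PowerSeries.constantCoeff (hauptmodul 7 K) = 0 := by
  rw [← PowerSeries.coeff_zero_eq_constantCoeff_apply, coeff_zero_hauptmodul]

lemma d7l_subst_C (a : K) : (C a : PowerSeries K).subst (hauptmodul 7 K) = C a :=
  PowerSeries.subst_C a

lemma d7l_subst_one : (1 : PowerSeries K).subst (hauptmodul 7 K) = 1 := by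
  have h := d7l_subst_C (1 : K)
  rwa [map_one] at h

/-- A quadratic polynomial in `f`. -/
lemma d7l_subst_quad (a b : K) : (1 + C a * X + C b * X ^ 2 : PowerSeries K).subst
    (hauptmodul 7 K) = 1 + C a * hauptmodul 7 K + C b * hauptmodul 7 K ^ 2 := by
  have hs : HasSubst (hauptmodul 7 K) := fx_hasSubst 7
  rw [subst_add hs, subst_add hs, subst_mul hs, subst_mul hs, subst_pow hs, subst_X hs,
    d7l_subst_C, d7l_subst_C, d7l_subst_one]

variable [CharZero K]

lemma d7l_pow3 {u : PowerSeries K} (hu : PowerSeries.constantCoeff u = 1) (s : K) :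
    ppow u s ^ 3 = ppow u (s * 3) := by
  rw [show s * 3 = s + s + s by ring, ub_ppow_add hu, ub_ppow_add hu]
  ring

lemma d7l_nser_const : PowerSeries.constantCoeff (nser7 K) = 1 := by
  unfold nser7
  rw [map_mul, ub_const_ppow (constantCoeff_phi7 K), ub_const_subst d7l_hc,
    ub_const_ppow d7l_cN, one_mul]

/-- `nser³ = φ⁴ (1 + 13f + 49f²)`. -/
lemma d7l_nser_cube : nser7 K ^ 3 = phi7 K ^ 4 *
    (1 + C (13 : K) * hauptmodul 7 K + C (49 : K) * hauptmodul 7 K ^ 2) := by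
  have hs : HasSubst (hauptmodul 7 K) := fx_hasSubst 7
  have h3 : (3 : K) ≠ 0 := by norm_num
  have e1 : ppow (phi7 K) (4 / 3) ^ 3 = phi7 K ^ 4 := by
    rw [d7l_pow3 (constantCoeff_phi7 K), div_mul_cancel₀ _ h3]
    have h := ub_ppow_nat (constantCoeff_phi7 K) 4
    rwa [show ((4 : ℕ) : K) = 4 by norm_num] at h
  have e2 : ppow (1 + C (13 : K) * X + C (49 : K) * X ^ 2) (1 / 3 : K) ^ 3 =
      1 + C (13 : K) * X + C (49 : K) * X ^ 2 := by
    rw [d7l_pow3 d7l_cN, div_mul_cancel₀ _ h3, ub_ppow_one d7l_cN]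
  unfold nser7
  rw [mul_pow, e1, ← subst_pow hs, e2, d7l_subst_quad]

end

/-- `E_4 = φ^{4/3} (1+13f+49f²)^{1/3} (1+245f+2401f²)`. -/
theorem eisQ_four7 (hK : K7) : eisQ 4 = nser7 ℚ *
    (1 + C (245 : ℚ) * hauptmodul 7 ℚ + C (2401 : ℚ) * hauptmodul 7 ℚ ^ 2) := by
  apply d7l_cube
  · unfold eisQ
    rw [map_add, map_one, ← PowerSeries.coeff_zero_eq_constantCoeff_apply, PowerSeries.coeff_mk]
    simp
  · rw [map_mul, d7l_nser_const]
    simp [d7l_hc]
  · rw [d7l_E46, hK.k1, mul_pow (phi7 ℚ ^ 2), mul_pow (nser7 ℚ), d7l_nser_cube,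
      ← hauptmodul7_mul_phi]
    have c1 : (C (490 : ℚ) : PowerSeries ℚ) = 490 := by rw [map_ofNat]
    have c2 : (C (21609 : ℚ) : PowerSeries ℚ) = 21609 := by rw [map_ofNat]
    have c3 : (C (235298 : ℚ) : PowerSeries ℚ) = 235298 := by rw [map_ofNat]
    have c4 : (C (823543 : ℚ) : PowerSeries ℚ) = 823543 := by rw [map_ofNat]
    have c5 : (C (1728 : ℚ) : PowerSeries ℚ) = 1728 := by rw [map_ofNat]
    have c6 : (C (13 : ℚ) : PowerSeries ℚ) = 13 := by rw [map_ofNat]
    have c7 : (C (49 : ℚ) : PowerSeries ℚ) = 49 := by rw [map_ofNat]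
    have c8 : (C (245 : ℚ) : PowerSeries ℚ) = 245 := by rw [map_ofNat]
    have c9 : (C (2401 : ℚ) : PowerSeries ℚ) = 2401 := by rw [map_ofNat]
    rw [c1, c2, c3, c4, c5, c6, c7, c8, c9]
    ring

/-- `w = 1 + (245/57) h - (343/57) h²`. -/
def wser7 (K : Type*) [Field K] : PowerSeries K :=
  1 + C (245 / 57 : K) * X - C (343 / 57 : K) * X ^ 2

lemma d7l_wser_subst (K : Type*) [Field K] : (wser7 K).subst (hauptmodul 7 K) =
    1 + C (245 / 57 : K) * hauptmodul 7 K - C (343 / 57 : K) * hauptmodul 7 K ^ 2 := by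
  have h : wser7 K = 1 + C (245 / 57 : K) * X + C (-(343 / 57) : K) * X ^ 2 := by
    unfold wser7
    rw [map_neg]
    ring
  rw [h, d7l_subst_quad, map_neg]
  ring

/-- `Y (1 + 245g + 2401g²) = 1 + 5h + h²`. -/
lemma d7l_Y (R : Type*) [CommRing R] : Y7 R * (1 + C (245 : R) * gs7 R + C (2401 : R) * gs7 R ^ 2) =
    1 + C (5 : R) * X + X ^ 2 := by
  have h0 : PowerSeries.constantCoeff (gs7 R) = 0 := by
    unfold gs7
    rw [map_mul, map_pow, PowerSeries.constantCoeff_X, zero_pow seven_ne, zero_mul]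
  have h1 : (1 + C (245 : R) * gs7 R + C (2401 : R) * gs7 R ^ 2) *
      invOfUnit (1 + C (245 : R) * gs7 R + C (2401 : R) * gs7 R ^ 2) 1 = 1 :=
    PowerSeries.mul_invOfUnit _ _ (by simp [h0])
  unfold Y7
  linear_combination (1 + C (5 : R) * X + X ^ 2) * h1

/-- `E_4(q^7) = nser7 (1 + 5f + f²)`. -/
lemma d7l_four_expand (hK : K7) : (eisQ 4).expand 7 seven_ne =
    nser7 ℚ * (1 + C (5 : ℚ) * hauptmodul 7 ℚ + hauptmodul 7 ℚ ^ 2) := by
  have hs : HasSubst (hauptmodul 7 ℚ) := fx_hasSubst 7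
  have h1 := congrArg (fun F : PowerSeries ℚ => F.subst (hauptmodul 7 ℚ)) (d7l_Y ℚ)
  rw [subst_mul hs, subst_add hs, subst_add hs, subst_mul hs, subst_mul hs, subst_pow hs,
    d7l_subst_C, d7l_subst_C, d7l_subst_one, gs7_subst, subst_add hs, subst_add hs, subst_mul hs,
    subst_pow hs, subst_X hs, d7l_subst_C, d7l_subst_one] at h1
  rw [eisQ_four7 hK]
  simp only [map_mul, map_add, map_one, map_pow, PowerSeries.expand_C]
  rw [nser7_expand hK, mul_assoc, h1]

/-- `E_4^{(7)} = φ^{4/3} (1+13f+49f²)^{1/3} w(f)`. -/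
theorem eisStab_four7 (hK : K7) : eisStabP 7 4 =
    nser7 ℚ * (wser7 ℚ).subst (hauptmodul 7 ℚ) := by
  have h1 := eisStabP_eq 7 4 (by norm_num)
  have h2 : (eisQ 4).expand 7 (Fact.out : (7 : ℕ).Prime).ne_zero =
      (eisQ 4).expand 7 seven_ne := rfl
  rw [h2, d7l_four_expand hK, eisQ_four7 hK] at h1
  rw [d7l_wser_subst]
  have e1 : (1 : ℚ) - ((7 : ℕ) : ℚ) ^ (4 - 1) = -342 := by norm_num
  have e2 : ((7 : ℕ) : ℚ) ^ (4 - 1) = 343 := by norm_num
  rw [e1, e2] at h1
  have c0 : (C (-342 : ℚ) : PowerSeries ℚ) = -342 := by rw [map_neg, map_ofNat]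
  have c1 : (C (343 : ℚ) : PowerSeries ℚ) = 343 := by rw [map_ofNat]
  have c2 : (C (245 : ℚ) : PowerSeries ℚ) = 245 := by rw [map_ofNat]
  have c3 : (C (2401 : ℚ) : PowerSeries ℚ) = 2401 := by rw [map_ofNat]
  have c4 : (C (5 : ℚ) : PowerSeries ℚ) = 5 := by rw [map_ofNat]
  have c5 : (342 : PowerSeries ℚ) * C (245 / 57 : ℚ) = 1470 := by
    rw [← map_ofNat (C (R := ℚ)) 342, ← map_mul, ← map_ofNat (C (R := ℚ)) 1470]
    congr 1
    norm_num
  have c6 : (342 : PowerSeries ℚ) * C (343 / 57 : ℚ) = 2058 := by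
    rw [← map_ofNat (C (R := ℚ)) 342, ← map_mul, ← map_ofNat (C (R := ℚ)) 2058]
    congr 1
    norm_num
  rw [c0, c1, c2, c3, c4] at h1
  have h3 : (342 : PowerSeries ℚ) ≠ 0 := by
    rw [← map_ofNat (C (R := ℚ)) 342]
    intro h
    have h4 := congrArg PowerSeries.constantCoeff h
    rw [PowerSeries.constantCoeff_C, map_zero] at h4
    norm_num at h4
  apply mul_left_cancel₀ h3
  linear_combination -h1 - nser7 ℚ * hauptmodul 7 ℚ * c5 + nser7 ℚ * hauptmodul 7 ℚ ^ 2 * c6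

/-! ### base change -/

section

variable {K L : Type*} [Field K] [Field L]

lemma d7l_map_subst {a : PowerSeries K} (ha : PowerSeries.HasSubst a) (h : K →+* L)
    (f : PowerSeries K) :
    PowerSeries.map h (f.subst a) = (PowerSeries.map h f).subst (PowerSeries.map h a) :=
  PowerSeries.map_subst ha f

lemma d7l_map_binS (h : K →+* L) (s : K) : PowerSeries.map h (binS s) = binS (h s) := by
  ext n
  unfold binS
  rw [PowerSeries.coeff_map, PowerSeries.coeff_mk, PowerSeries.coeff_mk, map_div₀, map_prod]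
  simp

lemma d7l_map_ppow (h : K →+* L) {u : PowerSeries K} (hu : PowerSeries.constantCoeff u = 1)
    (s : K) : PowerSeries.map h (ppow u s) = ppow (PowerSeries.map h u) (h s) := by
  have hs : HasSubst (u - 1) := by
    apply HasSubst.of_constantCoeff_zero'
    rw [map_sub, hu, map_one, sub_self]
  unfold ppow
  rw [d7l_map_subst hs, d7l_map_binS, map_sub, map_one]

end

theorem map_nser7 : PowerSeries.map (algebraMap ℚ C7) (nser7 ℚ) = nser7 C7 := by
  unfold nser7
  rw [map_mul, d7l_map_ppow _ (constantCoeff_phi7 ℚ), d7l_map_subst (fx_hasSubst 7),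
    d7l_map_ppow _ d7l_cN, map_phi7, map_hauptmodul]
  congr 2
  · simp
  · simp

/-! ### norms -/

lemma d7l_norm_57 : ‖(57 : C7)‖ = 1 := by
  have h1 : (57 : C7) = 1 + 7 * 8 := by norm_num
  have h2 : ‖(8 : C7)‖ ≤ 1 := by
    have h := IsUltrametricDist.norm_natCast_le_one C7 8
    simpa using h
  have h3 : ‖(7 * 8 : C7)‖ < 1 := by
    rw [norm_mul, norm_seven_C7]
    calc (7 : ℝ)⁻¹ * ‖(8 : C7)‖ ≤ 7⁻¹ * 1 := mul_le_mul_of_nonneg_left h2 (by norm_num)
      _ < 1 := by norm_num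
  rw [h1, IsUltrametricDist.norm_add_eq_max_of_norm_ne_norm (by rw [norm_one]; exact h3.ne'),
    norm_one, max_eq_left h3.le]

lemma d7l_norm_245 : ‖(245 / 57 : C7)‖ ≤ 7⁻¹ := by
  have h2 : ‖(35 : C7)‖ ≤ 1 := by
    have h := IsUltrametricDist.norm_natCast_le_one C7 35
    simpa using h
  rw [norm_div, d7l_norm_57, div_one, show (245 : C7) = 7 * 35 by norm_num, norm_mul,
    norm_seven_C7]
  calc (7 : ℝ)⁻¹ * ‖(35 : C7)‖ ≤ 7⁻¹ * 1 := mul_le_mul_of_nonneg_left h2 (by norm_num)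
    _ = 7⁻¹ := mul_one _

lemma d7l_norm_343 : ‖(343 / 57 : C7)‖ ≤ 7⁻¹ ^ 2 := by
  rw [norm_div, d7l_norm_57, div_one, show (343 : C7) = 7 ^ 3 by norm_num, norm_pow,
    norm_seven_C7]
  norm_num

theorem norm_wser7 (n : ℕ) : ‖PowerSeries.coeff n (wser7 C7)‖ * (7 : ℝ) ^ n ≤ 1 := by
  have h : PowerSeries.coeff n (wser7 C7) = if n = 0 then 1 else if n = 1 then 245 / 57 else
      if n = 2 then -(343 / 57) else 0 := by
    unfold wser7
    rw [map_sub, map_add, PowerSeries.coeff_C_mul, PowerSeries.coeff_C_mul, PowerSeries.coeff_one,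
      PowerSeries.coeff_X, PowerSeries.coeff_X_pow]
    split_ifs <;> first | omega | simp
  rw [h]
  split_ifs with h0 h1 h2
  · subst h0
    simp
  · subst h1
    calc ‖(245 / 57 : C7)‖ * (7 : ℝ) ^ 1 ≤ 7⁻¹ * 7 ^ 1 :=
          mul_le_mul_of_nonneg_right d7l_norm_245 (by positivity)
      _ = 1 := by norm_num
  · subst h2
    rw [norm_neg]
    calc ‖(343 / 57 : C7)‖ * (7 : ℝ) ^ 2 ≤ 7⁻¹ ^ 2 * 7 ^ 2 :=
          mul_le_mul_of_nonneg_right d7l_norm_343 (by positivity)
      _ = 1 := by norm_num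
  · rw [norm_zero, zero_mul]
    exact zero_le_one

lemma d7l_inv {r : ℝ} (hr : 0 < r) {F G : PowerSeries C7}
    (hF0 : PowerSeries.constantCoeff F = 1) (hF : ∀ n, ‖PowerSeries.coeff n F‖ * r ^ n ≤ 1)
    (hFG : F * G = 1) (n : ℕ) : ‖PowerSeries.coeff n G‖ * r ^ n ≤ 1 := by
  induction n using Nat.strong_induction_on with
  | _ n ih =>
    have h32 : (0 : ℝ) < r ^ n := by positivity
    have h1 : PowerSeries.coeff n G = (if n = 0 then 1 else 0) -
        ∑ ij ∈ (Finset.HasAntidiagonal.antidiagonal n).erase (0, n),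
          PowerSeries.coeff ij.1 F * PowerSeries.coeff ij.2 G := by
      have h2 := congrArg (PowerSeries.coeff n) hFG
      rw [PowerSeries.coeff_mul, PowerSeries.coeff_one,
        ← Finset.add_sum_erase _ _ (Finset.HasAntidiagonal.mem_antidiagonal.2
          (show ((0, n) : ℕ × ℕ).1 + ((0, n) : ℕ × ℕ).2 = n from zero_add n)),
        PowerSeries.coeff_zero_eq_constantCoeff_apply, hF0, one_mul] at h2
      exact eq_sub_of_add_eq h2
    rw [← le_div_iff₀ h32, h1, sub_eq_add_neg]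
    refine (IsUltrametricDist.norm_add_le_max _ _).trans (max_le ?_ ?_)
    · rcases Nat.eq_zero_or_pos n with h | h
      · subst h
        simp
      · rw [if_neg (by omega), norm_zero]
        positivity
    · rw [norm_neg]
      refine IsUltrametricDist.norm_sum_le_of_forall_le_of_nonneg (by positivity) fun ij hij => ?_
      rw [Finset.mem_erase, Finset.HasAntidiagonal.mem_antidiagonal] at hij
      have hlt : ij.2 < n := by
        rcases Nat.lt_or_ge ij.2 n with h | h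
        · exact h
        · exact absurd (Prod.ext (by show ij.1 = 0; omega) (by show ij.2 = n; omega)) hij.1
      rw [le_div_iff₀ h32, norm_mul, ← hij.2, pow_add]
      calc ‖PowerSeries.coeff ij.1 F‖ * ‖PowerSeries.coeff ij.2 G‖ *
            (r ^ ij.1 * r ^ ij.2)
          = (‖PowerSeries.coeff ij.1 F‖ * r ^ ij.1) *
            (‖PowerSeries.coeff ij.2 G‖ * r ^ ij.2) := by ring
        _ ≤ 1 * 1 := mul_le_mul (hF _) (ih _ hlt) (by positivity) zero_le_one
        _ = 1 := one_mul 1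

theorem norm_wser7_inv (n : ℕ) :
    ‖PowerSeries.coeff n ((wser7 C7)⁻¹)‖ * (7 : ℝ) ^ n ≤ 1 := by
  have h0 : PowerSeries.constantCoeff (wser7 C7) = 1 := by simp [wser7]
  exact d7l_inv (by norm_num) h0 norm_wser7
    (PowerSeries.mul_inv_cancel _ (by rw [h0]; exact one_ne_zero)) n

/-! ### the form over `ℤ_7` -/

lemma d7l_exists_57 : ∃ e : ℤ_[7], 57 * e = 1 := by
  have h : IsUnit (57 : ℤ_[7]) := by
    rw [PadicInt.isUnit_iff]
    have h1 := norm_io (p := 7) (57 : ℤ_[7])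
    rw [map_ofNat] at h1
    rw [← h1]
    exact d7l_norm_57
  obtain ⟨u, hu⟩ := h
  exact ⟨((u⁻¹ : (ℤ_[7])ˣ) : ℤ_[7]), by rw [← hu]; exact u.mul_inv⟩

/-- `∑_{d ∣ n, 7 ∤ d} d³`. -/
def d7lS (n : ℕ) : ℕ := ∑ d ∈ n.divisors, if 7 ∣ d then 0 else d ^ 3

lemma d7l_stab (n : ℕ) : PowerSeries.coeff n (eisStabP 7 4) =
    (if n = 0 then 1 else 0) + -(40 / 57) * (d7lS n : ℚ) := by
  have h5 : -(2 * ((4 : ℕ) : ℚ) / ((1 - ((7 : ℕ) : ℚ) ^ (4 - 1)) * bernoulli 4)) =
      -(40 / 57) := by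
    have hb : bernoulli 4 = -1 / 30 := by
      rw [bernoulli_eq_bernoulli'_of_ne_one (by norm_num), bernoulli'_four]
    rw [hb]
    norm_num
  unfold eisStabP d7lS
  rw [map_add, PowerSeries.coeff_one, PowerSeries.coeff_mk, h5]
  congr 2
  push_cast
  refine Finset.sum_congr rfl fun d _ => ?_
  split_ifs <;> simp

/-- The form `E_{z^{2c}}` over `ℤ_7`. -/
theorem exists_frame7 (hK : K7) {c : ℕ} (hc : c ≤ 2) : ∃ D : PowerSeries ℤ_[7],
    PowerSeries.constantCoeff D = 1 ∧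
    cpl D = dser7 C7 c * (if c = 2 then (wser7 C7).subst (hauptmodul 7 C7) else 1) ∧
    (1 ≤ c → cpl D = PowerSeries.map (algebraMap ℚ C7) (eisStabP 7 (2 * c))) ∧
    (c = 0 → D = 1) := by
  have hcases : c = 0 ∨ c = 1 ∨ c = 2 := by omega
  rcases hcases with rfl | rfl | rfl
  · refine ⟨1, by simp, ?_, fun h => absurd h (by norm_num), fun _ => rfl⟩
    unfold cpl dser7
    rw [map_one, if_pos rfl, if_neg (by norm_num), one_mul]
  · refine ⟨dlog7 ℤ_[7], constantCoeff_dlog7 _, ?_, fun _ => ?_, fun h => absurd h (by norm_num)⟩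
    · unfold cpl dser7
      rw [map_dlog7, if_neg (by norm_num), if_pos rfl, if_neg (by norm_num), mul_one]
    · unfold cpl
      rw [map_dlog7, show 2 * 1 = 2 from rfl, ← dlog7_eq, map_dlog7]
  · obtain ⟨e, he⟩ := d7l_exists_57
    have hio : io 7 e = 1 / 57 := by
      have h := congrArg (io 7) he
      rw [map_mul, map_one, map_ofNat] at h
      have h57 : (57 : C7) ≠ 0 := by norm_num
      field_simp
      linear_combination h
    set D : PowerSeries ℤ_[7] := 1 + PowerSeries.mk fun n => -(40 * e) * (d7lS n : ℤ_[7]) with hD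
    have h1 : cpl D = PowerSeries.map (algebraMap ℚ C7) (eisStabP 7 4) := by
      ext n
      unfold cpl
      have g1 : io 7 (if n = 0 then 1 else 0) = if n = 0 then 1 else 0 := by
        split_ifs <;> simp
      have g2 : algebraMap ℚ C7 (if n = 0 then 1 else 0) = if n = 0 then 1 else 0 := by
        split_ifs <;> simp
      have g3 : algebraMap ℚ C7 (-(40 / 57)) = -(40 / 57) := by simp
      rw [PowerSeries.coeff_map, PowerSeries.coeff_map, d7l_stab, hD, map_add,
        PowerSeries.coeff_one, PowerSeries.coeff_mk, map_add, map_mul, map_neg, map_mul, hio,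
        map_natCast, map_ofNat, map_add (algebraMap ℚ C7), map_mul (algebraMap ℚ C7),
        map_natCast (algebraMap ℚ C7), g1, g2, g3]
      ring
    refine ⟨D, ?_, ?_, fun _ => h1, fun h => absurd h (by norm_num)⟩
    · rw [hD, map_add, map_one, ← PowerSeries.coeff_zero_eq_constantCoeff_apply,
        PowerSeries.coeff_mk]
      simp [d7lS]
    · rw [h1, eisStab_four7 hK, map_mul, map_nser7, d7l_map_subst (fx_hasSubst 7), map_hauptmodul,
        if_pos rfl]
      have h2 : dser7 C7 2 = nser7 C7 := by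
        unfold dser7
        rw [if_neg (by norm_num), if_neg (by norm_num)]
      have h3 : PowerSeries.map (algebraMap ℚ C7) (wser7 ℚ) = wser7 C7 := by
        unfold wser7
        simp only [map_sub, map_add, map_mul, map_one, map_pow, PowerSeries.map_C,
          PowerSeries.map_X]
        congr 3
        · congr 1
          simp
        · congr 1
          simp
      rw [h2, h3]

end D7

end GH
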