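import Pool.Agent.GH.D7.Param7

open PowerSeries Filter Topology

noncomputable section

namespace GH

namespace D7

open GP

/-! Valuations of the ghost coefficients, `p = 7`. -/

/-- The zeros: `t l = 15^{6l} - 1`. -/
def zero7 (l : ℕ) : ℤ_[7] := 15 ^ (6 * l) - 1

theorem norm_zero7 (l : ℕ) : ‖zero7 l‖ ≤ ((7 : ℕ) : ℝ)⁻¹ := by
  have h1 : ∃ c : ℕ, 15 ^ (6 * l) = 7 * c + 1 := by
    induction l with
    | zero => exact ⟨0, rfl⟩
    | succ l ih =>
      obtain ⟨c, hc⟩ := ih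
      exact ⟨11390625 * c + 1627232, by
        rw [show 6 * (l + 1) = 6 * l + 6 by ring, pow_add, hc]; ring⟩
  obtain ⟨c, hc⟩ := h1
  have h2 : zero7 l = ((7 : ℕ) : ℤ_[7]) * (c : ℤ_[7]) := by
    unfold zero7
    have h3 : (15 : ℤ_[7]) ^ (6 * l) = ((15 ^ (6 * l) : ℕ) : ℤ_[7]) := by push_cast; rfl
    rw [h3, hc]
    push_cast
    ring
  rw [h2, norm_mul, PadicInt.norm_p]
  exact mul_le_of_le_one_right (by positivity) (PadicInt.norm_le_one _)

/-- The dimension in level one. -/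
def d7p_t (c l : ℕ) : ℕ := if c = 1 then (l - 1) / 2 else l / 2

/-- The dimension in level seven. -/
def d7p_D (c l : ℕ) : ℕ := if c = 2 then 4 * l + 1 else 4 * l - 1

theorem d7p_dimOne {c : ℕ} (hc : c ≤ 2) (l : ℕ) : dimOne (2 * c + 6 * l) = d7p_t c l := by
  unfold dimOne d7p_t
  split_ifs <;> omega

theorem d7p_dimG {c : ℕ} (hc : c ≤ 2) (l : ℕ) : dimG 7 (2 * c + 6 * l) = d7p_D c l := by
  unfold dimG d7p_D
  have h2 : nell2 7 = 0 := by
    unfold nell2
    norm_num
  have h3 : nell3 7 = 2 := by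
    unfold nell3
    norm_num
  rw [h2, h3, zero_mul, zero_add]
  split_ifs <;> omega

/-- The multiplicities. -/
theorem d7p_mult {c : ℕ} (hc : c ≤ 2) (n l : ℕ) : multG 7 n (2 * c + 6 * l) =
    min (n - d7p_t c l) (d7p_D c l - d7p_t c l - n) := by
  unfold multG sfun dimNewG
  rw [d7p_dimOne hc, d7p_dimG hc]
  generalize d7p_t c l = t
  generalize d7p_D c l = D
  split_ifs <;> omega

theorem multG7_supp {c : ℕ} (hc : c ≤ 2) (n l : ℕ) (h : 2 * n + 3 ≤ l) :
    multG 7 n (2 * c + 6 * l) = 0 := by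
  rw [d7p_mult hc]
  unfold d7p_t
  split_ifs <;> omega

/-- The increments of the multiplicities. -/
theorem d7p_succ (t D n : ℕ) : min (n + 1 - t) (D - t - (n + 1)) +
      (if D ≤ 2 * n ∧ n + 1 + t ≤ D then 1 else 0) =
    min (n - t) (D - t - n) + (if t ≤ n ∧ 2 * n + 2 ≤ D then 1 else 0) := by
  split_ifs <;> omega

theorem d7p_neg {c : ℕ} (hc : c ≤ 2) (n M : ℕ) (hM : n + 1 ≤ M) :
    ∑ l ∈ Finset.range M, (if d7p_D c l ≤ 2 * n ∧ n + 1 + d7p_t c l ≤ d7p_D c l then 1 else 0) =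
      if c = 0 then n / 2 - (2 * n + 2) / 7 else
        if c = 1 then n / 2 + 1 - (2 * n + 8) / 7 else (n + 1) / 2 - (2 * n + 5) / 7 := by
  rw [← Finset.card_filter]
  have h0 : c = 0 ∨ c = 1 ∨ c = 2 := by omega
  rcases h0 with rfl | rfl | rfl
  · have h1 : (Finset.range M).filter (fun l => d7p_D 0 l ≤ 2 * n ∧
        n + 1 + d7p_t 0 l ≤ d7p_D 0 l) = Finset.Ico ((2 * n + 2) / 7 + 1) (n / 2 + 1) := by
      ext l
      rw [Finset.mem_filter, Finset.mem_range, Finset.mem_Ico]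
      unfold d7p_D d7p_t
      rw [if_neg (by norm_num), if_neg (by norm_num)]
      omega
    rw [h1, Nat.card_Ico, if_pos rfl]
    omega
  · have h1 : (Finset.range M).filter (fun l => d7p_D 1 l ≤ 2 * n ∧
        n + 1 + d7p_t 1 l ≤ d7p_D 1 l) = Finset.Ico ((2 * n + 8) / 7) (n / 2 + 1) := by
      ext l
      rw [Finset.mem_filter, Finset.mem_range, Finset.mem_Ico]
      unfold d7p_D d7p_t
      rw [if_neg (by norm_num), if_pos rfl]
      omega
    rw [h1, Nat.card_Ico, if_neg (by norm_num), if_pos rfl]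
  · have h1 : (Finset.range M).filter (fun l => d7p_D 2 l ≤ 2 * n ∧
        n + 1 + d7p_t 2 l ≤ d7p_D 2 l) = Finset.Ico ((2 * n + 5) / 7) ((n + 1) / 2) := by
      ext l
      rw [Finset.mem_filter, Finset.mem_range, Finset.mem_Ico]
      unfold d7p_D d7p_t
      rw [if_pos rfl, if_neg (by norm_num)]
      omega
    rw [h1, Nat.card_Ico, if_neg (by norm_num), if_neg (by norm_num)]

theorem d7p_pos {c : ℕ} (hc : c ≤ 2) (n M : ℕ) (hM : 2 * n + 3 ≤ M) :
    ∑ l ∈ Finset.range M, (if d7p_t c l ≤ n ∧ 2 * n + 2 ≤ d7p_D c l then 1 else 0) =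
      if c = 0 then 2 * n + 2 - (n + 3) / 2 else
        if c = 1 then 2 * n + 3 - (n + 3) / 2 else 2 * n + 2 - (n + 2) / 2 := by
  rw [← Finset.card_filter]
  have h0 : c = 0 ∨ c = 1 ∨ c = 2 := by omega
  rcases h0 with rfl | rfl | rfl
  · have h1 : (Finset.range M).filter (fun l => d7p_t 0 l ≤ n ∧ 2 * n + 2 ≤ d7p_D 0 l) =
        Finset.Ico ((n + 3) / 2) (2 * n + 2) := by
      ext l
      rw [Finset.mem_filter, Finset.mem_range, Finset.mem_Ico]
      unfold d7p_D d7p_t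
      rw [if_neg (by norm_num), if_neg (by norm_num)]
      omega
    rw [h1, Nat.card_Ico, if_pos rfl]
  · have h1 : (Finset.range M).filter (fun l => d7p_t 1 l ≤ n ∧ 2 * n + 2 ≤ d7p_D 1 l) =
        Finset.Ico ((n + 3) / 2) (2 * n + 3) := by
      ext l
      rw [Finset.mem_filter, Finset.mem_range, Finset.mem_Ico]
      unfold d7p_D d7p_t
      rw [if_pos rfl, if_neg (by norm_num)]
      omega
    rw [h1, Nat.card_Ico, if_neg (by norm_num), if_pos rfl]
  · have h1 : (Finset.range M).filter (fun l => d7p_t 2 l ≤ n ∧ 2 * n + 2 ≤ d7p_D 2 l) =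
        Finset.Ico ((n + 2) / 2) (2 * n + 2) := by
      ext l
      rw [Finset.mem_filter, Finset.mem_range, Finset.mem_Ico]
      unfold d7p_D d7p_t
      rw [if_neg (by norm_num), if_pos rfl]
      omega
    rw [h1, Nat.card_Ico, if_neg (by norm_num), if_neg (by norm_num)]

theorem d7p_sum {c : ℕ} (hc : c ≤ 2) (n M : ℕ) (hM : 2 * n + 3 ≤ M) :
    ∑ l ∈ Finset.range M, min (n - d7p_t c l) (d7p_D c l - d7p_t c l - n) =
      ∑ l ∈ Finset.range n, (9 * (l + 1) + if c = 0 then 0 else if c = 1 then 6 else 3) / 7 := by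
  induction n generalizing M with
  | zero =>
    rw [Finset.sum_eq_zero fun l _ => by rw [Nat.zero_sub, Nat.zero_min]]
    rfl
  | succ n ih =>
    have h1 : ∑ l ∈ Finset.range M, (min (n + 1 - d7p_t c l) (d7p_D c l - d7p_t c l - (n + 1)) +
        (if d7p_D c l ≤ 2 * n ∧ n + 1 + d7p_t c l ≤ d7p_D c l then 1 else 0)) =
        ∑ l ∈ Finset.range M, (min (n - d7p_t c l) (d7p_D c l - d7p_t c l - n) +
          (if d7p_t c l ≤ n ∧ 2 * n + 2 ≤ d7p_D c l then 1 else 0)) :=
      Finset.sum_congr rfl fun l _ => d7p_succ _ _ n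
    rw [Finset.sum_add_distrib, Finset.sum_add_distrib, d7p_neg hc n M (by omega),
      d7p_pos hc n M (by omega), ih M (by omega)] at h1
    rw [Finset.sum_range_succ]
    generalize ∑ l ∈ Finset.range n,
      (9 * (l + 1) + if c = 0 then 0 else if c = 1 then 6 else 3) / 7 = B at h1 ⊢
    have h0 : c = 0 ∨ c = 1 ∨ c = 2 := by omega
    rcases h0 with rfl | rfl | rfl
    · rw [if_pos rfl, if_pos rfl] at h1
      rw [if_pos rfl]
      have e1 : (n + 3) / 2 + n / 2 = n + 1 := by omega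
      have e2 : (9 * (n + 1) + 0) / 7 = n + 1 + (2 * n + 2) / 7 := by omega
      have e3 : (2 * n + 2) / 7 ≤ n / 2 := by omega
      have e4 : (n + 3) / 2 ≤ 2 * n + 2 := by omega
      omega
    · rw [if_neg (by norm_num), if_pos rfl, if_neg (by norm_num), if_pos rfl] at h1
      rw [if_neg (by norm_num), if_pos rfl]
      have e1 : (n + 3) / 2 + n / 2 = n + 1 := by omega
      have e2 : (9 * (n + 1) + 6) / 7 = n + 1 + (2 * n + 8) / 7 := by omega
      have e3 : (2 * n + 8) / 7 ≤ n / 2 + 1 := by omega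
      have e4 : (n + 3) / 2 ≤ 2 * n + 3 := by omega
      omega
    · rw [if_neg (by norm_num), if_neg (by norm_num), if_neg (by norm_num),
        if_neg (by norm_num)] at h1
      rw [if_neg (by norm_num), if_neg (by norm_num)]
      have e1 : (n + 2) / 2 + (n + 1) / 2 = n + 1 := by omega
      have e2 : (9 * (n + 1) + 3) / 7 = n + 1 + (2 * n + 5) / 7 := by omega
      have e3 : (2 * n + 5) / 7 ≤ (n + 1) / 2 := by omega
      have e4 : (n + 2) / 2 ≤ 2 * n + 2 := by omega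
      omega

/-- The number of zeros of `g_n`: `∑_{l ≤ n} ⌊(9l + (0, 6, 3)_c)/7⌋`. -/
theorem sum_mult7 {c : ℕ} (hc : c ≤ 2) (n : ℕ) :
    ∑ l ∈ Finset.range (2 * n + 3), multG 7 n (2 * c + 6 * l) =
      ∑ l ∈ Finset.range n, (9 * (l + 1) + if c = 0 then 0 else if c = 1 then 6 else 3) / 7 := by
  rw [Finset.sum_congr rfl fun l _ => d7p_mult hc n l]
  exact d7p_sum hc n _ le_rfl

theorem d7p_norm_fifteen : ‖(15 : C7)‖ = 1 := by
  have h1 : (15 : C7) = algebraMap ℚ_[7] C7 ((15 : ℕ) : ℚ_[7]) := by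
    rw [map_natCast]
    norm_num
  rw [h1, norm_algebraMap', Padic.norm_natCast_eq_one_iff]
  decide

theorem d7p_io (l : ℕ) : io 7 (zero7 l) = (15 : C7) ^ (6 * l) - 1 := by
  unfold zero7
  rw [map_sub, map_pow, map_one, map_ofNat]

/-- The norm of the ghost coefficient. -/
theorem norm_ghostG7 {c : ℕ} (hc : c ≤ 2) {w : C7} (hw : ‖w‖ < 1) (n : ℕ) :
    ‖ghostG 7 c (225 ^ c * (1 + w) - 1) n‖ =
      ∏ l ∈ Finset.range (2 * n + 3), ‖w - io 7 (zero7 l)‖ ^ multG 7 n (2 * c + 6 * l) := by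
  classical
  have _ := hw
  have h225 : ‖((225 : C7)) ^ c‖ = 1 := by
    rw [show (225 : C7) = 15 ^ 2 by norm_num, norm_pow, norm_pow, d7p_norm_fifteen, one_pow,
      one_pow]
  have hfac : ∀ l, (225 : C7) ^ c * (1 + w) - 1 - ((1 + 2 * ((7 : ℕ) : C7)) ^ (2 * c + 6 * l) - 1) =
      225 ^ c * (w - io 7 (zero7 l)) := by
    intro l
    rw [d7p_io, show (1 + 2 * ((7 : ℕ) : C7)) = 15 by norm_num, pow_add, pow_mul,
      show ((15 : C7) ^ 2) = 225 by norm_num]
    ring
  have hprod : ghostG 7 c ((225 : C7) ^ c * (1 + w) - 1) n =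
      ∏ l ∈ Finset.range (2 * n + 3),
        ((225 : C7) ^ c * (w - io 7 (zero7 l))) ^ multG 7 n (2 * c + 6 * l) := by
    unfold ghostG
    rw [finprod_eq_prod_of_mulSupport_subset
      (s := (Finset.range (2 * n + 3)).image fun l => 2 * c + 6 * l)]
    · rw [Finset.prod_image (fun a _ b _ h => by simpa using h)]
      refine Finset.prod_congr rfl fun l _ => ?_
      rw [if_pos, hfac]
      refine ⟨?_, ?_⟩
      · rw [Nat.even_iff]
        omega
      · unfold Nat.ModEq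
        omega
    · intro k hk
      rw [Function.mem_mulSupport] at hk
      by_cases hev : Even k ∧ k ≡ 2 * c [MOD 7 - 1]
      · rw [if_pos hev] at hk
        obtain ⟨hev1, hev2⟩ := hev
        unfold Nat.ModEq at hev2
        have hk2 : k = 2 * c + 6 * (k / 6) := by omega
        rw [Finset.coe_image, Set.mem_image]
        refine ⟨k / 6, ?_, hk2.symm⟩
        rw [Finset.mem_coe, Finset.mem_range]
        by_contra hcon
        apply hk
        rw [hk2, multG7_supp hc n _ (by omega), pow_zero]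
      · rw [if_neg hev] at hk
        exact absurd rfl hk
  rw [hprod, norm_prod]
  refine Finset.prod_congr rfl fun l _ => ?_
  rw [norm_pow, norm_mul, h225, one_mul]

/-- The norm of the ghost coefficient on the central disc. -/
theorem norm_ghostG7_wx {c : ℕ} (hc : c ≤ 2) {x : C7} (hx : ‖x‖ ≤ 1) (n : ℕ) :
    ‖ghostG 7 c (225 ^ c * (1 + wx7 x) - 1) n‖ =
      ∏ l ∈ Finset.range (2 * n + 3), (‖x - (l : C7)‖ / 7) ^ multG 7 n (2 * c + 6 * l) := by
  have hw : ‖wx7 x‖ < 1 := by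
    rw [norm_wx7 hx]
    linarith
  rw [norm_ghostG7 hc hw n]
  refine Finset.prod_congr rfl fun l _ => ?_
  have h2 : io 7 (zero7 l) = wx7 ((l : ℕ) : C7) := by
    rw [d7p_io, wx7_natCast, pow_mul]
  rw [h2, norm_wx7_sub hx (IsUltrametricDist.norm_natCast_le_one C7 _)]

end D7

end GH
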