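import Pool.Agent.GH.D7.Base7
import Pool.Agent.GH.OrdP

open PowerSeries Filter Topology

noncomputable section

namespace GH

namespace D7

/-! The ordinary eigenvector of `U_7` of weight `6x`, analytic in `x`. -/

/-- `u n x`, `n ≥ 0`, is the ordinary vector of the matrix `Mat7 0 x`. -/
structure OrdVec7 (u : ℕ → C7 → C7) : Prop where
  eqs : ∀ x : C7, ‖x‖ ≤ 1 → u 0 x = 1 ∧ (∀ n, ‖u n x‖ * (7 / 5 : ℝ) ^ n ≤ 1) ∧
        ∀ i, u i x = ∑ j ∈ Finset.range (7 * i + 1), Mat7 0 x i j * u j x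
  tate : ∀ n, IsTate (u n)
  uniq : ∀ x : C7, ‖x‖ ≤ 1 → ∀ v : ℕ → C7, v 0 = 1 →
        (∃ B : ℝ, ∀ n, ‖v n‖ * (7 / 5 : ℝ) ^ n ≤ B) →
        (∀ i, v i = ∑ j ∈ Finset.range (7 * i + 1), Mat7 0 x i j * v j) →
        ∀ n, v n = u n x

theorem d7ord_inv (n : ℕ) : (5 / 7 : ℝ) ^ n * (7 / 5 : ℝ) ^ n = 1 := by
  rw [← mul_pow]
  norm_num

theorem d7ord_contr (M : ℕ → ℕ → C7) (h0 : M 0 0 = 1)
    (hle : ∀ i j : ℕ, j ≤ 7 * i → ‖M i j‖ * (7 / 5 : ℝ) ^ (7 * i - j) ≤ (7 / 5 : ℝ) ^ 4) :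
    OP.Contr M 7 (5 / 7) ((5 / 7) ^ 2) where
  ρ0 := by norm_num
  ρ1 := by norm_num
  δ0 := by norm_num
  δ1 := by norm_num
  c00 := h0
  ent := by
    intro i j hj hij
    have h1 := hle i j hij
    have h2 : ‖M i j‖ ≤ (7 / 5 : ℝ) ^ 4 * (5 / 7 : ℝ) ^ (7 * i - j) := by
      calc ‖M i j‖ = ‖M i j‖ * (7 / 5 : ℝ) ^ (7 * i - j) * (5 / 7 : ℝ) ^ (7 * i - j) := by
            rw [mul_assoc, mul_comm ((7 / 5 : ℝ) ^ (7 * i - j)), d7ord_inv, mul_one]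
        _ ≤ _ := mul_le_mul_of_nonneg_right h1 (by positivity)
    have h3 : ‖M i j‖ * (5 / 7 : ℝ) ^ j ≤
        (7 / 5 : ℝ) ^ 4 * (5 / 7 : ℝ) ^ (7 * i - j) * (5 / 7 : ℝ) ^ j :=
      mul_le_mul_of_nonneg_right h2 (by positivity)
    refine h3.trans ?_
    have h4 : 7 * i - j + j = 4 + (7 * i - 4) := by omega
    rw [mul_assoc, ← pow_add, h4, pow_add, ← mul_assoc, mul_comm ((7 / 5 : ℝ) ^ 4), d7ord_inv,
      one_mul, ← pow_add]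
    exact pow_le_pow_of_le_one (by norm_num) (by norm_num) (by omega)
  col := by
    intro i hi
    have h1 := hle i 0 (Nat.zero_le _)
    rw [Nat.sub_zero] at h1
    have h2 : ‖M i 0‖ ≤ (7 / 5 : ℝ) ^ 4 * (5 / 7 : ℝ) ^ (7 * i) := by
      calc ‖M i 0‖ = ‖M i 0‖ * (7 / 5 : ℝ) ^ (7 * i) * (5 / 7 : ℝ) ^ (7 * i) := by
            rw [mul_assoc, mul_comm ((7 / 5 : ℝ) ^ (7 * i)), d7ord_inv, mul_one]
        _ ≤ _ := mul_le_mul_of_nonneg_right h1 (by positivity)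
    refine h2.trans ?_
    have h4 : 7 * i = 4 + (7 * i - 4) := by omega
    rw [h4, pow_add, ← mul_assoc, mul_comm ((7 / 5 : ℝ) ^ 4), d7ord_inv, one_mul]
    exact pow_le_pow_of_le_one (by norm_num) (by norm_num) (by omega)

theorem exists_ord7
    (h0 : ∀ y : C7, Mat7 0 y 0 0 = 1)
    (hle : ∀ y : C7, ‖y‖ ≤ 1 → ∀ i j : ℕ, j ≤ 7 * i →
      ‖Mat7 0 y i j‖ * (7 / 5 : ℝ) ^ (7 * i - j) ≤ (7 / 5 : ℝ) ^ 4)
    (hpoly : ∀ i j : ℕ, ∃ P : Polynomial C7, ∀ y : C7, Mat7 0 y i j = P.eval y) :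
    ∃ u : ℕ → C7 → C7, OrdVec7 u := by
  have hc : ∀ y : C7, ‖y‖ ≤ 1 → OP.Contr (fun i j => Mat7 0 y i j) 7 (5 / 7) ((5 / 7) ^ 2) :=
    fun y hy => d7ord_contr _ (h0 y) (hle y hy)
  have hentry : ∀ i j, IsTate fun y : C7 => Mat7 0 y i j := by
    intro i j
    obtain ⟨P, hP⟩ := hpoly i j
    exact (IsTate.poly P).congr fun y _ => (hP y).symm
  refine ⟨fun i y => OP.fx (fun i j => Mat7 0 y i j) 7 i,
    ⟨fun y hy => ⟨OP.fx_zero _ _, fun n => ?_, fun i => ?_⟩,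
    fun n => ?_, fun y hy v hv0 hvB hv n => ?_⟩⟩
  · calc ‖OP.fx (fun i j => Mat7 0 y i j) 7 n‖ * (7 / 5 : ℝ) ^ n
        ≤ (5 / 7 : ℝ) ^ n * (7 / 5 : ℝ) ^ n :=
          mul_le_mul_of_nonneg_right ((hc y hy).fx_bound n) (by positivity)
      _ = 1 := d7ord_inv n
  · exact (hc y hy).fx_eq i
  · exact OP.isTate_fx (fun y i j => Mat7 0 y i j) 7 hc hentry n
  · obtain ⟨B, hB⟩ := hvB
    refine (hc y hy).unique v hv0 (B := B) (fun m => ?_) hv n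
    calc ‖v m‖ = (‖v m‖ * (7 / 5 : ℝ) ^ m) * (5 / 7 : ℝ) ^ m := by
          rw [mul_assoc, mul_comm ((7 / 5 : ℝ) ^ m), d7ord_inv, mul_one]
      _ ≤ B * (5 / 7 : ℝ) ^ m := mul_le_mul_of_nonneg_right (hB m) (by positivity)

end D7

end GH
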