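import Pool.Agent.GH.D7.Base7
import Pool.Agent.GH.GaussP

open PowerSeries Filter Topology

noncomputable section

namespace GH

namespace D7

open GP

/-! The parametrisation `w = (15^6)^x - 1` of the disc `‖w‖ ≤ 1/7`. -/

/-! ### norms of some numbers -/

lemma d7m_norm_natCast (n : ℕ) : ‖(n : C7)‖ = ‖(n : ℚ_[7])‖ := by
  rw [← map_natCast (algebraMap ℚ_[7] C7) n, norm_algebraMap']

lemma d7m_norm_seven : ‖(7 : C7)‖ = 1 / 7 := by
  have h := d7m_norm_natCast 7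
  have h2 : ‖((7 : ℕ) : ℚ_[7])‖ = ((7 : ℕ) : ℝ)⁻¹ := Padic.norm_p
  rw [h2] at h
  simpa using h

lemma d7m_norm_u : ‖(1627232 : C7)‖ = 1 := by
  have h := d7m_norm_natCast 1627232
  have h2 : ‖((1627232 : ℕ) : ℚ_[7])‖ = 1 := by
    rw [Padic.norm_natCast_eq_one_iff]
    norm_num
  rw [h2] at h
  simpa using h

lemma d7m_norm_q : ‖(15 ^ 6 - 1 : C7)‖ = 1 / 7 := by
  have h : (15 ^ 6 - 1 : C7) = 1627232 * 7 := by norm_num
  rw [h, norm_mul, d7m_norm_u, d7m_norm_seven, one_mul]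

lemma d7m_norm_fact (n : ℕ) : ‖((n + 1).factorial : C7)‖⁻¹ ≤ (3 / 2) ^ n := by
  have h0 : ((n + 1).factorial : ℚ_[7]) ≠ 0 := by
    exact_mod_cast (n + 1).factorial_ne_zero
  rw [d7m_norm_natCast, Padic.norm_eq_zpow_neg_valuation h0, Padic.valuation_natCast, zpow_neg,
    inv_inv, zpow_natCast]
  have h1 : (7 - 1) * padicValNat 7 (n + 1).factorial < n + 1 :=
    sub_one_mul_padicValNat_factorial_lt_of_ne_zero 7 n.succ_ne_zero
  have h2 : 6 * padicValNat 7 (n + 1).factorial ≤ n := by omega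
  calc ((7 : ℕ) : ℝ) ^ padicValNat 7 (n + 1).factorial
      ≤ ((3 / 2 : ℝ) ^ 6) ^ padicValNat 7 (n + 1).factorial :=
        pow_le_pow_left₀ (by norm_num) (by norm_num) _
    _ = (3 / 2 : ℝ) ^ (6 * padicValNat 7 (n + 1).factorial) := (pow_mul _ _ _).symm
    _ ≤ (3 / 2 : ℝ) ^ n := pow_le_pow_right₀ (by norm_num) h2

lemma d7m_norm_sub_nat {x : C7} (hx : ‖x‖ ≤ 1) (i : ℕ) : ‖x - i‖ ≤ 1 := by
  rw [sub_eq_add_neg]
  refine (IsUltrametricDist.norm_add_le_max _ _).trans (max_le hx ?_)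
  rw [norm_neg]
  exact IsUltrametricDist.norm_natCast_le_one C7 i

lemma d7m_norm_prod {x : C7} (hx : ‖x‖ ≤ 1) (n : ℕ) :
    ‖∏ i ∈ Finset.range n, (x - i)‖ ≤ 1 := by
  rw [norm_prod]
  exact Finset.prod_le_one (fun i _ => norm_nonneg _) fun i _ => d7m_norm_sub_nat hx i

lemma d7m_norm_prod_sub {x y : C7} (hx : ‖x‖ ≤ 1) (hy : ‖y‖ ≤ 1) (n : ℕ) :
    ‖(∏ i ∈ Finset.range n, (x - i)) - ∏ i ∈ Finset.range n, (y - i)‖ ≤ ‖x - y‖ := by
  induction n with
  | zero => simp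
  | succ n ih =>
    rw [Finset.prod_range_succ, Finset.prod_range_succ]
    have h1 : (∏ i ∈ Finset.range n, (x - i)) * (x - n) - (∏ i ∈ Finset.range n, (y - i)) * (y - n)
        = ((∏ i ∈ Finset.range n, (x - i)) - ∏ i ∈ Finset.range n, (y - i)) * (x - n) +
          (∏ i ∈ Finset.range n, (y - i)) * (x - y) := by ring
    rw [h1]
    refine (IsUltrametricDist.norm_add_le_max _ _).trans (max_le ?_ ?_)
    · rw [norm_mul]
      calc _ ≤ ‖x - y‖ * 1 := mul_le_mul ih (d7m_norm_sub_nat hx n) (norm_nonneg _) (norm_nonneg _)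
        _ = ‖x - y‖ := mul_one _
    · rw [norm_mul]
      calc _ ≤ 1 * ‖x - y‖ := mul_le_mul_of_nonneg_right (d7m_norm_prod hy n) (norm_nonneg _)
        _ = ‖x - y‖ := one_mul _

/-- the terms of the series `w(x)` -/
def d7m_T (x : C7) (n : ℕ) : C7 := PowerSeries.coeff (n + 1) (binS x) * (15 ^ 6 - 1) ^ (n + 1)

lemma d7m_T_eq (x : C7) (n : ℕ) : d7m_T x n =
    (∏ i ∈ Finset.range (n + 1), (x - i)) * ((15 ^ 6 - 1) ^ (n + 1) * ((n + 1).factorial : C7)⁻¹) := by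
  unfold d7m_T binS
  rw [PowerSeries.coeff_mk]
  ring

lemma d7m_norm_const (n : ℕ) : ‖(15 ^ 6 - 1 : C7) ^ (n + 1) * ((n + 1).factorial : C7)⁻¹‖ ≤
    1 / 7 * (3 / 14) ^ n := by
  rw [norm_mul, norm_pow, norm_inv, d7m_norm_q]
  calc (1 / 7 : ℝ) ^ (n + 1) * ‖((n + 1).factorial : C7)‖⁻¹ ≤ (1 / 7 : ℝ) ^ (n + 1) * (3 / 2) ^ n :=
        mul_le_mul_of_nonneg_left (d7m_norm_fact n) (by positivity)
    _ = 1 / 7 * (3 / 14) ^ n := by
        rw [pow_succ, mul_right_comm, ← mul_pow]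
        norm_num
        ring

lemma d7m_norm_T {x : C7} (hx : ‖x‖ ≤ 1) (n : ℕ) : ‖d7m_T x n‖ ≤ 1 / 7 * (3 / 14) ^ n := by
  rw [d7m_T_eq, norm_mul]
  calc _ ≤ 1 * (1 / 7 * (3 / 14) ^ n) :=
        mul_le_mul (d7m_norm_prod hx _) (d7m_norm_const n) (norm_nonneg _) zero_le_one
    _ = _ := one_mul _

lemma d7m_norm_T_sub {x y : C7} (hx : ‖x‖ ≤ 1) (hy : ‖y‖ ≤ 1) (n : ℕ) :
    ‖d7m_T x n - d7m_T y n‖ ≤ ‖x - y‖ * (1 / 7 * (3 / 14) ^ n) := by
  rw [d7m_T_eq, d7m_T_eq, ← sub_mul, norm_mul]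
  exact mul_le_mul (d7m_norm_prod_sub hx hy _) (d7m_norm_const n) (norm_nonneg _) (norm_nonneg _)

lemma d7m_geo (c r : ℝ) (K : ℕ) (h0 : 0 ≤ r) (h1 : r < 1) :
    HasSum (fun n : ℕ => c * r ^ (n + K)) (c * r ^ K * (1 - r)⁻¹) := by
  have h := (hasSum_geometric_of_lt_one h0 h1).mul_left (c * r ^ K)
  have e : (fun n : ℕ => c * r ^ (n + K)) = fun n => c * r ^ K * r ^ n := by
    funext n
    rw [pow_add]
    ring
  rw [e]
  exact h

lemma d7m_summable_geo : Summable fun n : ℕ => (1 / 7 : ℝ) * (3 / 14) ^ n :=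
  (summable_geometric_of_lt_one (by norm_num) (by norm_num)).mul_left _

lemma d7m_summable {x : C7} (hx : ‖x‖ ≤ 1) : Summable (d7m_T x) :=
  Summable.of_norm_bounded d7m_summable_geo (d7m_norm_T hx)

lemma d7m_wx (x : C7) : wx7 x = ∑' n, d7m_T x n := rfl

/-- the part of `w(x)` of degree at least two -/
def d7m_R (x : C7) : C7 := ∑' n, d7m_T x (n + 1)

lemma d7m_T_zero (x : C7) : d7m_T x 0 = (15 ^ 6 - 1) * x := by
  rw [d7m_T_eq]
  simp
  ring

lemma d7m_wx_eq {x : C7} (hx : ‖x‖ ≤ 1) : wx7 x = (15 ^ 6 - 1) * x + d7m_R x := by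
  rw [d7m_wx, (d7m_summable hx).tsum_eq_zero_add, d7m_T_zero]
  rfl

lemma d7m_norm_R_sub {x y : C7} (hx : ‖x‖ ≤ 1) (hy : ‖y‖ ≤ 1) :
    ‖d7m_R x - d7m_R y‖ ≤ ‖x - y‖ * (3 / 98) := by
  have sx : Summable fun n => d7m_T x (n + 1) := (summable_nat_add_iff 1).2 (d7m_summable hx)
  have sy : Summable fun n => d7m_T y (n + 1) := (summable_nat_add_iff 1).2 (d7m_summable hy)
  unfold d7m_R
  rw [← sx.tsum_sub sy]
  refine IsUltrametricDist.norm_tsum_le_of_forall_le_of_nonneg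
    (mul_nonneg (norm_nonneg _) (by norm_num)) fun n => ?_
  refine (d7m_norm_T_sub hx hy (n + 1)).trans ?_
  have h1 : (3 / 14 : ℝ) ^ (n + 1) ≤ 3 / 14 := by
    rw [pow_succ]
    have : ((3 / 14 : ℝ)) ^ n ≤ 1 := pow_le_one₀ (by norm_num) (by norm_num)
    linarith
  exact mul_le_mul_of_nonneg_left (by linarith) (norm_nonneg _)

theorem norm_wx7_sub {x y : C7} (hx : ‖x‖ ≤ 1) (hy : ‖y‖ ≤ 1) :
    ‖wx7 x - wx7 y‖ = ‖x - y‖ / 7 := by
  rw [d7m_wx_eq hx, d7m_wx_eq hy]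
  have h1 : (15 ^ 6 - 1) * x + d7m_R x - ((15 ^ 6 - 1) * y + d7m_R y) = (15 ^ 6 - 1) * (x - y) + (d7m_R x - d7m_R y) := by ring
  rw [h1]
  have h2 : ‖(15 ^ 6 - 1) * (x - y)‖ = ‖x - y‖ / 7 := by
    rw [norm_mul, d7m_norm_q]
    ring
  have h3 := d7m_norm_R_sub hx hy
  by_cases hxy : x = y
  · subst hxy
    simp
  have h4 : 0 < ‖x - y‖ := norm_pos_iff.2 (sub_ne_zero.2 hxy)
  have h5 : ‖d7m_R x - d7m_R y‖ < ‖(15 ^ 6 - 1) * (x - y)‖ := by
    rw [h2]
    linarith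
  rw [IsUltrametricDist.norm_add_eq_max_of_norm_ne_norm h5.ne', max_eq_left h5.le, h2]

lemma d7m_R_zero : d7m_R 0 = 0 := by
  unfold d7m_R
  have : ∀ n, d7m_T 0 (n + 1) = 0 := by
    intro n
    rw [d7m_T_eq, Finset.prod_eq_zero (i := 0) (by simp) (by simp), zero_mul]
  simp [this]

lemma d7m_wx_zero : wx7 0 = 0 := by
  rw [d7m_wx_eq (by simp), d7m_R_zero]
  simp

theorem norm_wx7 {x : C7} (hx : ‖x‖ ≤ 1) : ‖wx7 x‖ = ‖x‖ / 7 := by
  have h := norm_wx7_sub hx (y := 0) (by simp)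
  rwa [d7m_wx_zero, sub_zero, sub_zero] at h

lemma d7m_prod_nat (m n : ℕ) :
    ∏ i ∈ Finset.range n, ((m : C7) - i) = (m.descFactorial n : C7) := by
  induction n with
  | zero => simp
  | succ n ih =>
    rw [Finset.prod_range_succ, ih, Nat.descFactorial_succ]
    rcases le_or_gt n m with h | h
    · rw [Nat.cast_mul, Nat.cast_sub h]
      ring
    · rw [Nat.descFactorial_of_lt h]
      simp

lemma d7m_coeff_nat (m n : ℕ) : PowerSeries.coeff n (binS (m : C7)) = (m.choose n : C7) := by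
  unfold binS
  rw [PowerSeries.coeff_mk, d7m_prod_nat, Nat.descFactorial_eq_factorial_mul_choose, Nat.cast_mul,
    mul_comm, mul_div_assoc, div_self (by exact_mod_cast n.factorial_ne_zero), mul_one]

theorem wx7_natCast (m : ℕ) : wx7 (m : C7) = (15 ^ 6) ^ m - 1 := by
  have h1 : ((15 : C7) ^ 6) ^ m =
      ∑ n ∈ Finset.range (m + 1), (15 ^ 6 - 1) ^ n * (m.choose n : C7) := by
    have h2 : (15 : C7) ^ 6 = (15 ^ 6 - 1) + 1 := by ring
    conv_lhs => rw [h2]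
    rw [add_pow]
    simp
  rw [Finset.sum_range_succ'] at h1
  rw [h1]
  simp only [pow_zero, Nat.choose_zero_right, Nat.cast_one, mul_one, add_sub_cancel_right]
  unfold wx7
  rw [tsum_eq_sum (s := Finset.range m)]
  · refine Finset.sum_congr rfl fun n _ => ?_
    rw [d7m_coeff_nat, mul_comm]
  · intro n hn
    rw [Finset.mem_range, not_lt] at hn
    rw [d7m_coeff_nat, Nat.choose_eq_zero_of_lt (by omega)]
    simp

theorem exists_wx7_eq {w : C7} (hw : ‖w‖ ≤ 1 / 7) : ∃ x : C7, ‖x‖ ≤ 1 ∧ wx7 x = w := by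
  have h6 : (15 ^ 6 - 1 : C7) ≠ 0 := by
    intro h
    have := d7m_norm_q
    rw [h, norm_zero] at this
    norm_num at this
  set T : C7 → C7 := fun x => (w - d7m_R x) / (15 ^ 6 - 1) with hT
  have hball : ∀ x : C7, ‖x‖ ≤ 1 → ‖T x‖ ≤ 1 := by
    intro x hx
    have h1 : ‖d7m_R x‖ ≤ 1 / 7 := by
      have h2 := d7m_norm_R_sub hx (y := 0) (by simp)
      rw [d7m_R_zero, sub_zero, sub_zero] at h2
      linarith
    have h2 : ‖w - d7m_R x‖ ≤ 1 / 7 := by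
      rw [sub_eq_add_neg]
      refine (IsUltrametricDist.norm_add_le_max _ _).trans (max_le hw ?_)
      rwa [norm_neg]
    rw [hT]
    simp only [norm_div, d7m_norm_q]
    rw [div_le_one (by norm_num)]
    exact h2
  have hlip : ∀ x y : C7, ‖x‖ ≤ 1 → ‖y‖ ≤ 1 → ‖T x - T y‖ ≤ 3 / 14 * ‖x - y‖ := by
    intro x y hx hy
    have h1 : T x - T y = (d7m_R y - d7m_R x) / (15 ^ 6 - 1) := by
      rw [hT]
      ring
    have h2 := d7m_norm_R_sub hy hx
    rw [h1, norm_div, d7m_norm_q, norm_sub_rev x y, div_le_iff₀ (by norm_num)]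
    linarith
  have hmaps : Set.MapsTo T (Metric.closedBall (0 : C7) 1) (Metric.closedBall (0 : C7) 1) := by
    intro x hx
    rw [mem_closedBall_zero_iff] at hx ⊢
    exact hball x hx
  have hcontr : ContractingWith (3 / 14) (hmaps.restrict T _ _) := by
    refine ⟨by rw [← NNReal.coe_lt_coe]; norm_num, LipschitzWith.of_dist_le_mul ?_⟩
    rintro ⟨x, hx⟩ ⟨y, hy⟩
    rw [mem_closedBall_zero_iff] at hx hy
    rw [Subtype.dist_eq, Subtype.dist_eq, dist_eq_norm, dist_eq_norm]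
    simpa using hlip x y hx hy
  obtain ⟨x, hx, hfix, _⟩ := hcontr.exists_fixedPoint' Metric.isClosed_closedBall.isComplete hmaps
    (x := 0) (by simp) (edist_ne_top _ _)
  rw [mem_closedBall_zero_iff] at hx
  refine ⟨x, hx, ?_⟩
  rw [d7m_wx_eq hx]
  have h1 : (w - d7m_R x) / (15 ^ 6 - 1) = x := hfix
  rw [div_eq_iff h6] at h1
  rw [mul_comm, ← h1]
  ring

/-! ### the evaluations at `w(x)` are Tate functions of `x` -/

/-- the finite sums of `w(x)` as polynomials -/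
def d7m_P (K : ℕ) : Polynomial C7 :=
  ∑ n ∈ Finset.range K, (∏ i ∈ Finset.range (n + 1), (Polynomial.X - Polynomial.C (i : C7))) *
    Polynomial.C ((15 ^ 6 - 1) ^ (n + 1) * ((n + 1).factorial : C7)⁻¹)

lemma d7m_P_eval (K : ℕ) (x : C7) : (d7m_P K).eval x = ∑ n ∈ Finset.range K, d7m_T x n := by
  unfold d7m_P
  rw [Polynomial.eval_finsetSum]
  refine Finset.sum_congr rfl fun n _ => ?_
  rw [d7m_T_eq, Polynomial.eval_mul, Polynomial.eval_prod, Polynomial.eval_C]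
  simp

lemma d7m_P_norm {x : C7} (hx : ‖x‖ ≤ 1) (K : ℕ) : ‖(d7m_P K).eval x‖ ≤ 1 / 7 := by
  rw [d7m_P_eval]
  refine IsUltrametricDist.norm_sum_le_of_forall_le_of_nonneg (by norm_num) fun n _ => ?_
  refine (d7m_norm_T hx n).trans ?_
  have h : ((3 / 14 : ℝ)) ^ n ≤ 1 := pow_le_one₀ (by norm_num) (by norm_num)
  linarith

lemma d7m_P_sub {x : C7} (hx : ‖x‖ ≤ 1) (K : ℕ) : ‖wx7 x - (d7m_P K).eval x‖ ≤ (3 / 14) ^ K := by
  have h1 : wx7 x - (d7m_P K).eval x = ∑' n, d7m_T x (n + K) := by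
    rw [d7m_P_eval, d7m_wx, ← (d7m_summable hx).sum_add_tsum_nat_add K]
    ring
  rw [h1]
  refine (tsum_of_norm_bounded (d7m_geo (1 / 7) (3 / 14) K (by norm_num) (by norm_num))
    fun n => d7m_norm_T hx (n + K)).trans ?_
  have h : 0 ≤ ((3 / 14 : ℝ)) ^ K := by positivity
  have h2 : (1 - 3 / 14 : ℝ)⁻¹ = 14 / 11 := by norm_num
  rw [h2]
  linarith

lemma d7m_norm_iota (a : ℤ_[7]) : ‖io 7 a‖ ≤ 1 := by
  unfold io
  rw [RingHom.comp_apply, norm_algebraMap']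
  exact a.2

lemma d7m_pow_sub {a b : C7} (ha : ‖a‖ ≤ 1) (hb : ‖b‖ ≤ 1) (m : ℕ) :
    ‖a ^ m - b ^ m‖ ≤ ‖a - b‖ := by
  induction m with
  | zero => simp
  | succ m ih =>
    have h1 : a ^ (m + 1) - b ^ (m + 1) = (a ^ m - b ^ m) * a + b ^ m * (a - b) := by ring
    rw [h1]
    refine (IsUltrametricDist.norm_add_le_max _ _).trans (max_le ?_ ?_)
    · rw [norm_mul]
      calc _ ≤ ‖a - b‖ * 1 := mul_le_mul ih ha (norm_nonneg _) (norm_nonneg _)
        _ = ‖a - b‖ := mul_one _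
    · rw [norm_mul, norm_pow]
      calc _ ≤ 1 * ‖a - b‖ :=
            mul_le_mul_of_nonneg_right (pow_le_one₀ (norm_nonneg _) hb) (norm_nonneg _)
        _ = ‖a - b‖ := one_mul _

/-- The evaluations at `w(x)` are Tate functions of `x`. -/
theorem isTate_evp_wx7 (F : PowerSeries ℤ_[7]) : IsTate fun x : C7 ↦ evp (wx7 x) F := by
  intro ε hε
  have hlim : Tendsto (fun N : ℕ => (7 / 6 : ℝ) * (1 / 7) ^ N + (3 / 14) ^ N) atTop (𝓝 0) := by
    have h1 := (tendsto_pow_atTop_nhds_zero_of_lt_one (r := (1 / 7 : ℝ)) (by norm_num)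
      (by norm_num)).const_mul (7 / 6)
    have h2 := tendsto_pow_atTop_nhds_zero_of_lt_one (r := (3 / 14 : ℝ)) (by norm_num)
      (by norm_num)
    simpa using h1.add h2
  obtain ⟨N, hN⟩ := (hlim.eventually (gt_mem_nhds hε)).exists
  refine ⟨∑ m ∈ Finset.range N, Polynomial.C (io 7 (PowerSeries.coeff m F)) * d7m_P N ^ m, ?_⟩
  intro x hx
  have hw : ‖wx7 x‖ ≤ 1 / 7 := by
    rw [norm_wx7 hx]
    linarith
  have hterm : ∀ m, ‖io 7 (PowerSeries.coeff m F) * wx7 x ^ m‖ ≤ (1 / 7) ^ m := by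
    intro m
    rw [norm_mul, norm_pow]
    calc _ ≤ 1 * (1 / 7 : ℝ) ^ m := mul_le_mul (d7m_norm_iota _)
          (pow_le_pow_left₀ (norm_nonneg _) hw m) (by positivity) zero_le_one
      _ = _ := one_mul _
  have hsum : Summable fun m => io 7 (PowerSeries.coeff m F) * wx7 x ^ m :=
    Summable.of_norm_bounded (summable_geometric_of_lt_one (by norm_num) (by norm_num)) hterm
  have h1 : evp (wx7 x) F - (∑ m ∈ Finset.range N,
      Polynomial.C (io 7 (PowerSeries.coeff m F)) * d7m_P N ^ m).eval x =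
      (∑' m, io 7 (PowerSeries.coeff (m + N) F) * wx7 x ^ (m + N)) +
      ∑ m ∈ Finset.range N,
        io 7 (PowerSeries.coeff m F) * (wx7 x ^ m - (d7m_P N).eval x ^ m) := by
    unfold evp
    rw [← hsum.sum_add_tsum_nat_add N, Polynomial.eval_finsetSum]
    simp only [Polynomial.eval_mul, Polynomial.eval_C, Polynomial.eval_pow, mul_sub,
      Finset.sum_sub_distrib]
    ring
  rw [h1]
  refine (norm_add_le _ _).trans (le_trans (add_le_add ?_ ?_) hN.le)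
  · refine (tsum_of_norm_bounded (d7m_geo 1 (1 / 7) N (by norm_num) (by norm_num))
      fun n => (hterm (n + N)).trans (le_of_eq (one_mul _).symm)).trans (le_of_eq ?_)
    have h2 : (1 - 1 / 7 : ℝ)⁻¹ = 7 / 6 := by norm_num
    rw [h2]
    ring
  · refine IsUltrametricDist.norm_sum_le_of_forall_le_of_nonneg (by positivity) fun m _ => ?_
    rw [norm_mul]
    calc _ ≤ 1 * (3 / 14 : ℝ) ^ N := mul_le_mul (d7m_norm_iota _)
          ((d7m_pow_sub (hw.trans (by norm_num)) ((d7m_P_norm hx N).trans (by norm_num)) m).trans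
            (d7m_P_sub hx N)) (norm_nonneg _) zero_le_one
      _ = _ := one_mul _

end D7

end GH
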