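import Pool.Agent.GH.D7.K7_b

/-! `E_6` in terms of `φ` and `f`. -/

open PowerSeries Filter Topology

noncomputable section

namespace GH

namespace D7

open GH.E4 GH.D3
open Complex (I exp)

/-- The coefficients of `E_6(q^7)`. -/
def d7c_c' (i : ℕ) : ℚ :=
  if i = 0 then 1 else if i = 1 then 14 else if i = 2 then 63 else if i = 3 then 70 else -7

theorem d7c_q_c' : d7c_q d7c_c' = phi7 ℚ ^ 2 *
    (1 + C (14 : ℚ) * hauptmodul 7 ℚ + C (63 : ℚ) * hauptmodul 7 ℚ ^ 2 +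
      C (70 : ℚ) * hauptmodul 7 ℚ ^ 3 - C (7 : ℚ) * hauptmodul 7 ℚ ^ 4) := by
  rw [d7c_q]
  congr 1
  simp only [Finset.sum_range_succ, Finset.sum_range_zero]
  have e0 : d7c_c' 0 = 1 := rfl
  have e1 : d7c_c' 1 = 14 := rfl
  have e2 : d7c_c' 2 = 63 := rfl
  have e3 : d7c_c' 3 = 70 := rfl
  have e4 : d7c_c' 4 = -7 := rfl
  rw [e0, e1, e2, e3, e4]
  simp only [map_neg, map_one]
  ring

/-- The coefficients over `ℂ`. -/
def d7c_C (i : ℕ) : ℂ := (d7c_c i : ℂ)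

/-- The coefficients over `ℂ`. -/
def d7c_C' (i : ℕ) : ℂ := (d7c_c' i : ℂ)

/-- The involution. -/
theorem d7c_W {u : ℂ} (hu : 0 < u.im) :
    d7c_G d7c_C (-1 / (7 * u)) = (7 * u) ^ 6 * d7c_G d7c_C' u := by
  have hf := f7z_ne hu
  have e0 : d7c_C 0 = 1 := by norm_num [d7c_C, d7c_c]
  have e1 : d7c_C 1 = -490 := by norm_num [d7c_C, d7c_c]
  have e2 : d7c_C 2 = -21609 := by norm_num [d7c_C, d7c_c]
  have e3 : d7c_C 3 = -235298 := by norm_num [d7c_C, d7c_c]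
  have e4 : d7c_C 4 = -823543 := by norm_num [d7c_C, d7c_c]
  have g0 : d7c_C' 0 = 1 := by norm_num [d7c_C', d7c_c']
  have g1 : d7c_C' 1 = 14 := by norm_num [d7c_C', d7c_c']
  have g2 : d7c_C' 2 = 63 := by norm_num [d7c_C', d7c_c']
  have g3 : d7c_C' 3 = 70 := by norm_num [d7c_C', d7c_c']
  have g4 : d7c_C' 4 = -7 := by norm_num [d7c_C', d7c_c']
  rw [d7c_G, d7c_G, p7z_W hu, f7z_W hu]
  simp only [Finset.sum_range_succ, Finset.sum_range_zero]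
  rw [e0, e1, e2, e3, e4, g0, g1, g2, g3, g4]
  field_simp
  ring

/-- The difference. -/
def d7c_F (z : ℂ) : ℂ := d7c_e z - d7c_G d7c_C z

theorem d7c_F_eq {z : ℂ} (hz : 0 < z.im) :
    d7c_F z = evc (c2m (eisQ 6) - d7c_ser d7c_C) (exp (2 * Real.pi * I * z)) := by
  rw [(d7c_evc_sub d7c_as_e (d7c_as_ser _)).2 (d7c_norm_exp hz), d7c_G_eq _ hz]
  rfl

theorem d7c_F_inv : Inv7 6 d7c_F where
  T z := by
    have h1 := (d7c_G_inv d7c_C).T z
    rw [d7c_F, d7c_F, d7c_e_T, h1]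
  V z hz := by
    have h1 := (d7c_G_inv d7c_C).V z hz
    have h2 := d7c_e_slash 1 0 7 1 (by norm_num) hz
    push_cast at h2
    rw [one_mul, add_zero] at h2
    rw [d7c_F, d7c_F, h1, h2, mul_sub]
  g1 z hz := by
    have h1 := (d7c_G_inv d7c_C).g1 z hz
    have h2 := d7c_e_slash (-3) (-1) 7 2 (by norm_num) hz
    push_cast at h2
    rw [← sub_eq_add_neg] at h2
    rw [d7c_F, d7c_F, h1, h2, mul_sub]
  g3 z hz := by
    have h1 := (d7c_G_inv d7c_C).g3 z hz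
    have h2 := d7c_e_slash 2 (-1) 7 (-3) (by norm_num) hz
    push_cast at h2
    rw [← sub_eq_add_neg, ← sub_eq_add_neg] at h2
    rw [d7c_F, d7c_F, h1, h2, mul_sub]

theorem d7c_F_inf : ∃ c : ℝ, ∀ z : ℂ, 1 ≤ z.im →
    ‖d7c_F z‖ ≤ c * Real.exp (-2 * Real.pi * (5 : ℕ) * z.im) := by
  have h0 : ∀ n < 5, PowerSeries.coeff n (c2m (eisQ 6) - d7c_ser d7c_C) = 0 := by
    intro n hn
    have h1 : d7c_ser d7c_C = c2m (d7c_q d7c_c) := (d7c_q_map d7c_c).symm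
    rw [h1, ← map_sub, PowerSeries.coeff_map,
      (PowerSeries.X_pow_dvd_iff.mp d7c_dvd) n hn, map_zero]
  have hpi := Real.pi_pos
  obtain ⟨c, hc0, hc⟩ := d7c_order (d7c_evc_sub d7c_as_e (d7c_as_ser d7c_C)).1 h0
    (r := Real.exp (-(2 * Real.pi))) (Real.exp_pos _)
    (by rw [Real.exp_lt_one_iff]; linarith)
  refine ⟨c, fun z hz ↦ ?_⟩
  have hz0 : 0 < z.im := by linarith
  have h2 := hc (exp (2 * Real.pi * I * z)) (by
    rw [d7c_norm_exp_eq]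
    apply Real.exp_le_exp.mpr
    nlinarith)
  rw [d7c_F_eq hz0]
  refine h2.trans (le_of_eq ?_)
  rw [d7c_norm_exp_eq, ← Real.exp_nat_mul]
  congr 2
  push_cast
  ring

theorem d7c_e_S {z : ℂ} (hz : 0 < z.im) : d7c_e (-1 / z) = z ^ 6 * d7c_e z := by
  have h2 := d7c_e_slash 0 (-1) 1 0 (by norm_num) hz
  push_cast at h2
  rw [zero_mul, zero_add, one_mul, add_zero] at h2
  exact h2

theorem d7c_im {z : ℂ} : (z / 7).im = z.im / 7 := by
  have h : z / 7 = (((1 / 7 : ℝ)) : ℂ) * z := by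
    push_cast
    ring
  rw [h, Complex.im_ofReal_mul]
  ring

theorem d7c_F_S : ∃ c : ℝ, ∀ z : ℂ, 1 ≤ z.im → ‖d7c_F (-1 / z) / z ^ 6‖ ≤ c := by
  have hpi := Real.pi_pos
  obtain ⟨c, hc0, hc⟩ := d7c_order d7c_as_e (m := 0) (fun n hn ↦ absurd hn (Nat.not_lt_zero n))
    (r := Real.exp (-(2 * Real.pi / 7))) (Real.exp_pos _)
    (by rw [Real.exp_lt_one_iff, neg_lt_zero]; positivity)
  obtain ⟨c', hc0', hc'⟩ := d7c_order (d7c_as_ser d7c_C') (m := 0)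
    (fun n hn ↦ absurd hn (Nat.not_lt_zero n))
    (r := Real.exp (-(2 * Real.pi / 7))) (Real.exp_pos _)
    (by rw [Real.exp_lt_one_iff, neg_lt_zero]; positivity)
  refine ⟨c + c', fun z hz ↦ ?_⟩
  have hz0 : 0 < z.im := by linarith
  have hzne : z ≠ 0 := by
    rintro rfl
    simp at hz0
  have hu : 0 < (z / 7).im := by
    rw [d7c_im]
    positivity
  have h1 : d7c_F (-1 / z) / z ^ 6 = d7c_e z - d7c_G d7c_C' (z / 7) := by
    have h2 := d7c_W hu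
    have h3 : 7 * (z / 7) = z := by ring
    rw [h3] at h2
    rw [d7c_F, d7c_e_S hz0, h2]
    field_simp
  rw [h1]
  refine (norm_sub_le _ _).trans (add_le_add ?_ ?_)
  · have h2 := hc (exp (2 * Real.pi * I * z)) (by
      rw [d7c_norm_exp_eq]
      apply Real.exp_le_exp.mpr
      rw [neg_le_neg_iff]
      nlinarith)
    rw [pow_zero, mul_one] at h2
    exact h2
  · have h2 := hc' (exp (2 * Real.pi * I * (z / 7))) (by
      rw [d7c_norm_exp_eq, d7c_im]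
      apply Real.exp_le_exp.mpr
      rw [neg_le_neg_iff]
      have : 2 * Real.pi * (z.im / 7) = 2 * Real.pi / 7 * z.im := by ring
      rw [this]
      exact le_mul_of_one_le_right (by positivity) hz)
    rw [pow_zero, mul_one, d7c_G_eq _ hu] at h2
    exact h2

theorem d7c_F_zero : ∀ z : ℂ, 0 < z.im → d7c_F z = 0 :=
  sturm7 (k := 6) (m := 5) ⟨3, rfl⟩ (fun _ hz ↦ (d7c_e_diff hz).sub (d7c_G_diff _ hz)) d7c_F_inv
    d7c_F_inf d7c_F_S (by norm_num)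

theorem d7c_surj {Q : ℂ} (h0 : 0 < ‖Q‖) (h1 : ‖Q‖ < 1) :
    ∃ z : ℂ, 0 < z.im ∧ exp (2 * Real.pi * I * z) = Q := by
  refine ⟨Function.Periodic.invQParam 1 Q, ?_, ?_⟩
  · exact Function.Periodic.im_invQParam_pos_of_norm_lt_one one_pos h1 (norm_pos_iff.mp h0)
  · rw [← eta_q_exp]
    exact Function.Periodic.qParam_right_inv one_ne_zero (norm_pos_iff.mp h0)

/-- `E_6 = φ² (1 - 490f - 21609f² - 235298f³ - 823543f⁴)`. -/
theorem eisQ_six : eisQ 6 = phi7 ℚ ^ 2 *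
    (1 - C (490 : ℚ) * hauptmodul 7 ℚ - C (21609 : ℚ) * hauptmodul 7 ℚ ^ 2 -
      C (235298 : ℚ) * hauptmodul 7 ℚ ^ 3 - C (823543 : ℚ) * hauptmodul 7 ℚ ^ 4) := by
  rw [← d7c_q_c]
  apply c2m_inj
  rw [d7c_q_map]
  refine d7c_ext d7c_as_e (d7c_as_ser _) fun Q h0 h1 ↦ ?_
  obtain ⟨z, hz, rfl⟩ := d7c_surj h0 h1
  have h2 := d7c_F_zero z hz
  have h3 : d7c_e z = d7c_G d7c_C z := sub_eq_zero.mp h2
  rw [← d7c_G_eq _ hz] at h3
  exact h3

/-- `E_6(q^7) = φ² (1 + 14f + 63f² + 70f³ - 7f⁴)`. -/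
theorem eisQ_six_expand : (eisQ 6).expand 7 seven_ne = phi7 ℚ ^ 2 *
    (1 + C (14 : ℚ) * hauptmodul 7 ℚ + C (63 : ℚ) * hauptmodul 7 ℚ ^ 2 +
      C (70 : ℚ) * hauptmodul 7 ℚ ^ 3 - C (7 : ℚ) * hauptmodul 7 ℚ ^ 4) := by
  rw [← d7c_q_c']
  apply c2m_inj
  rw [d7c_q_map, PowerSeries.map_expand]
  obtain ⟨ha, he⟩ := as_expand d7c_as_e 7 seven_ne
  refine d7c_ext ha (d7c_as_ser _) fun Q h0 h1 ↦ ?_
  rw [he Q h1]
  obtain ⟨z, hz, rfl⟩ := d7c_surj h0 h1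
  rw [← d7c_exp7]
  have h7 : 0 < (7 * z).im := by
    have := im_nat_mul hz (n := 7) (by norm_num)
    simpa using this
  have hz7 : 7 * z ≠ 0 := by
    intro h
    rw [h] at h7
    simp at h7
  have h2 : d7c_e (-1 / (7 * z)) = d7c_G d7c_C (-1 / (7 * z)) :=
    sub_eq_zero.mp (d7c_F_zero _ (im_S h7))
  rw [d7c_e_S h7, d7c_W hz] at h2
  have h3 := mul_left_cancel₀ (pow_ne_zero 6 hz7) h2
  rw [← d7c_G_eq _ hz] at h3
  exact h3

end D7

end GH
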