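import Pool.Agent.GH.D7.Sturm7
import Pool.Agent.GH.ClEkB

/-! Values of the series `φ² P(f)` and of `E_6` on the open unit disc and on the upper half
plane. -/

open PowerSeries Filter Topology

noncomputable section

namespace GH

namespace D7

open GH.E4 GH.D3 ModularForm
open Complex (I exp)

/-! ### series on the open unit disc -/

theorem d7c_as_euler7 : AS (euler ℂ 7) := by
  rw [euler_expand ℂ 7 seven_ne]
  exact (as_expand as_euler 7 seven_ne).1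

theorem d7c_norm_pow {Q : ℂ} (hQ : ‖Q‖ < 1) : ‖Q ^ 7‖ < 1 := by
  rw [norm_pow]
  exact pow_lt_one₀ (norm_nonneg _) hQ seven_ne

theorem d7c_evc_euler7 {Q : ℂ} (hQ : ‖Q‖ < 1) : evc (euler ℂ 7) Q = Pq (Q ^ 7) := by
  rw [euler_expand ℂ 7 seven_ne, (as_expand as_euler 7 seven_ne).2 Q hQ,
    evc_euler (d7c_norm_pow hQ)]

theorem d7c_as_einv7 : AS (invOfUnit (euler ℂ 7) 1) := by
  rw [einv_expand 7 seven_ne]
  exact (as_expand as_einv 7 seven_ne).1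

theorem d7c_evc_einv7 {Q : ℂ} (hQ : ‖Q‖ < 1) :
    evc (invOfUnit (euler ℂ 7) 1) Q = (Pq (Q ^ 7))⁻¹ := by
  rw [einv_expand 7 seven_ne, (as_expand as_einv 7 seven_ne).2 Q hQ, evc_einv (d7c_norm_pow hQ)]

theorem d7c_haupt7_eq : hauptmodul 7 ℂ = X ^ 1 * (euler ℂ 7 * einv) ^ 4 := by
  rw [hauptmodul, pow_one, einv]

theorem d7c_as_haupt7 : AS (hauptmodul 7 ℂ) := by
  rw [d7c_haupt7_eq]
  exact (AS.X_pow 1).mul ((d7c_as_euler7.mul as_einv).pow 4)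

theorem d7c_evc_haupt7 {Q : ℂ} (hQ : ‖Q‖ < 1) :
    evc (hauptmodul 7 ℂ) Q = Q * (Pq (Q ^ 7) * (Pq Q)⁻¹) ^ 4 := by
  rw [d7c_haupt7_eq, evc_mul (AS.X_pow 1) ((d7c_as_euler7.mul as_einv).pow 4) hQ, evc_X_pow,
    pow_one, evc_pow (d7c_as_euler7.mul as_einv) 4 hQ, evc_mul d7c_as_euler7 as_einv hQ,
    d7c_evc_euler7 hQ, evc_einv hQ]

theorem d7c_as_phi7 : AS (phi7 ℂ) := (as_euler.pow 7).mul d7c_as_einv7

theorem d7c_evc_phi7 {Q : ℂ} (hQ : ‖Q‖ < 1) :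
    evc (phi7 ℂ) Q = Pq Q ^ 7 * (Pq (Q ^ 7))⁻¹ := by
  rw [phi7, evc_mul (as_euler.pow 7) d7c_as_einv7 hQ, evc_pow as_euler 7 hQ, evc_euler hQ,
    d7c_evc_einv7 hQ]

theorem d7c_as_sum (P : ℕ → PowerSeries ℂ) (h : ∀ i, AS (P i)) (n : ℕ) :
    AS (∑ i ∈ Finset.range n, P i) := by
  induction n with
  | zero =>
    rw [Finset.range_zero, Finset.sum_empty]
    have := AS.const 0
    rwa [map_zero] at this
  | succ n ih =>
    rw [Finset.sum_range_succ]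
    exact ih.add (h n)

theorem d7c_evc_sum (P : ℕ → PowerSeries ℂ) (h : ∀ i, AS (P i)) (n : ℕ) {Q : ℂ}
    (hQ : ‖Q‖ < 1) :
    evc (∑ i ∈ Finset.range n, P i) Q = ∑ i ∈ Finset.range n, evc (P i) Q := by
  induction n with
  | zero =>
    rw [Finset.range_zero, Finset.sum_empty, Finset.sum_empty]
    have := evc_const 0 Q
    rwa [map_zero] at this
  | succ n ih =>
    rw [Finset.sum_range_succ, Finset.sum_range_succ, evc_add (d7c_as_sum P h n) (h n) hQ, ih]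

/-- The series `φ² ∑ c_i f^i`. -/
def d7c_ser (c : ℕ → ℂ) : PowerSeries ℂ :=
  phi7 ℂ ^ 2 * ∑ i ∈ Finset.range 5, C (c i) * hauptmodul 7 ℂ ^ i

theorem d7c_as_ser (c : ℕ → ℂ) : AS (d7c_ser c) :=
  (d7c_as_phi7.pow 2).mul
    (d7c_as_sum _ (fun i ↦ (AS.const (c i)).mul (d7c_as_haupt7.pow i)) 5)

theorem d7c_evc_ser (c : ℕ → ℂ) {Q : ℂ} (hQ : ‖Q‖ < 1) : evc (d7c_ser c) Q =
    evc (phi7 ℂ) Q ^ 2 * ∑ i ∈ Finset.range 5, c i * evc (hauptmodul 7 ℂ) Q ^ i := by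
  rw [d7c_ser, evc_mul (d7c_as_phi7.pow 2)
    (d7c_as_sum _ (fun i ↦ (AS.const (c i)).mul (d7c_as_haupt7.pow i)) 5) hQ,
    evc_pow d7c_as_phi7 2 hQ,
    d7c_evc_sum _ (fun i ↦ (AS.const (c i)).mul (d7c_as_haupt7.pow i)) 5 hQ]
  congr 1
  refine Finset.sum_congr rfl fun i _ ↦ ?_
  rw [evc_mul (AS.const (c i)) (d7c_as_haupt7.pow i) hQ, evc_const, evc_pow d7c_as_haupt7 i hQ]

/-! ### growth and uniqueness -/

/-- A series whose first `m` coefficients vanish is `O(Q^m)`. -/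
theorem d7c_order {D : PowerSeries ℂ} (hD : AS D) {m : ℕ}
    (h0 : ∀ n < m, PowerSeries.coeff n D = 0) {r : ℝ} (hr0 : 0 < r) (hr : r < 1) :
    ∃ c : ℝ, 0 ≤ c ∧ ∀ Q : ℂ, ‖Q‖ ≤ r → ‖evc D Q‖ ≤ c * ‖Q‖ ^ m := by
  have hs : Summable fun n ↦ ‖PowerSeries.coeff n D * (r : ℂ) ^ n‖ :=
    hD (r : ℂ) (by rw [Complex.norm_real, Real.norm_of_nonneg hr0.le]; exact hr)
  have hs0 : 0 ≤ ∑' n, ‖PowerSeries.coeff n D * (r : ℂ) ^ n‖ :=
    tsum_nonneg fun n ↦ norm_nonneg _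
  refine ⟨(∑' n, ‖PowerSeries.coeff n D * (r : ℂ) ^ n‖) / r ^ m, by positivity, fun Q hQ ↦ ?_⟩
  have hQ1 : ‖Q‖ < 1 := lt_of_le_of_lt hQ hr
  have h1 : ∀ n, ‖PowerSeries.coeff n D * Q ^ n‖ ≤
      ‖PowerSeries.coeff n D * (r : ℂ) ^ n‖ * (‖Q‖ ^ m / r ^ m) := by
    intro n
    by_cases hn : n < m
    · rw [h0 n hn, zero_mul, zero_mul, norm_zero, zero_mul]
    · obtain ⟨k, rfl⟩ : ∃ k, n = m + k := ⟨n - m, by omega⟩
      rw [norm_mul, norm_mul, norm_pow, norm_pow, Complex.norm_real,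
        Real.norm_of_nonneg hr0.le, pow_add, pow_add, mul_assoc]
      refine mul_le_mul_of_nonneg_left ?_ (norm_nonneg _)
      have h2 : r ^ m * r ^ k * (‖Q‖ ^ m / r ^ m) = ‖Q‖ ^ m * r ^ k := by
        field_simp
      rw [h2]
      exact mul_le_mul_of_nonneg_left (pow_le_pow_left₀ (norm_nonneg _) hQ k) (by positivity)
  have h3 : ‖evc D Q‖ ≤ ∑' n, ‖PowerSeries.coeff n D * Q ^ n‖ :=
    norm_tsum_le_tsum_norm (hD Q hQ1)
  refine h3.trans ?_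
  refine ((hD Q hQ1).tsum_le_tsum h1 (hs.mul_right _)).trans ?_
  rw [tsum_mul_right]
  apply le_of_eq
  ring

theorem d7c_evc_sub {P R : PowerSeries ℂ} (hP : AS P) (hR : AS R) :
    AS (P - R) ∧ ∀ {Q : ℂ}, ‖Q‖ < 1 → evc (P - R) Q = evc P Q - evc R Q := by
  have h : P - R = P + C (-1) * R := by
    rw [map_neg, map_one]
    ring
  rw [h]
  refine ⟨hP.add ((AS.const (-1)).mul hR), fun {Q} hQ ↦ ?_⟩
  rw [evc_add hP ((AS.const (-1)).mul hR) hQ, evc_mul (AS.const (-1)) hR hQ, evc_const]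
  ring

/-- A series which vanishes on the punctured disc is zero. -/
theorem d7c_zero {D : PowerSeries ℂ} (hD : AS D)
    (h : ∀ Q : ℂ, 0 < ‖Q‖ → ‖Q‖ < 1 → evc D Q = 0) : D = 0 := by
  ext n
  rw [map_zero]
  induction n using Nat.strong_induction_on with
  | _ n ih =>
    have h1 : AS (D - C (PowerSeries.coeff n D) * X ^ n) :=
      (d7c_evc_sub hD ((AS.const _).mul (AS.X_pow n))).1
    have h2 : ∀ k < n + 1, PowerSeries.coeff k (D - C (PowerSeries.coeff n D) * X ^ n) = 0 := by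
      intro k hk
      rw [map_sub, PowerSeries.coeff_C_mul, PowerSeries.coeff_X_pow]
      by_cases hkn : k = n
      · rw [if_pos hkn, hkn, mul_one, sub_self]
      · rw [if_neg hkn, ih k (by omega), mul_zero, sub_zero]
    obtain ⟨c, hc0, hc⟩ := d7c_order h1 h2 (r := 1 / 2) (by norm_num) (by norm_num)
    have h3 : ∀ Q : ℂ, 0 < ‖Q‖ → ‖Q‖ ≤ 1 / 2 → ‖PowerSeries.coeff n D‖ ≤ c * ‖Q‖ := by
      intro Q hQ0 hQ
      have hQ1 : ‖Q‖ < 1 := by linarith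
      have h4 := hc Q hQ
      rw [(d7c_evc_sub hD ((AS.const _).mul (AS.X_pow n))).2 hQ1,
        evc_mul (AS.const _) (AS.X_pow n) hQ1, evc_const, evc_X_pow, h Q hQ0 hQ1, zero_sub,
        norm_neg, norm_mul, norm_pow, pow_succ] at h4
      have h5 : 0 < ‖Q‖ ^ n := pow_pos hQ0 n
      have h6 : ‖PowerSeries.coeff n D‖ * ‖Q‖ ^ n ≤ (c * ‖Q‖) * ‖Q‖ ^ n := by
        linarith
      exact le_of_mul_le_mul_right h6 h5
    by_contra hne
    have h7 : 0 < ‖PowerSeries.coeff n D‖ := norm_pos_iff.mpr hne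
    obtain ⟨ε, hε⟩ : ∃ ε : ℝ, ε = min (1 / 2) (‖PowerSeries.coeff n D‖ / (2 * (c + 1))) :=
      ⟨_, rfl⟩
    have hε0 : 0 < ε := by
      rw [hε]
      exact lt_min (by norm_num) (by positivity)
    have hε1 : ε ≤ 1 / 2 := by
      rw [hε]
      exact min_le_left _ _
    have hε2 : ε ≤ ‖PowerSeries.coeff n D‖ / (2 * (c + 1)) := by
      rw [hε]
      exact min_le_right _ _
    have hn : ‖(ε : ℂ)‖ = ε := by
      rw [Complex.norm_real, Real.norm_of_nonneg hε0.le]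
    have h8 := h3 (ε : ℂ) (by rw [hn]; exact hε0) (by rw [hn]; exact hε1)
    rw [hn] at h8
    rw [le_div_iff₀ (by positivity)] at hε2
    nlinarith

theorem d7c_ext {P R : PowerSeries ℂ} (hP : AS P) (hR : AS R)
    (h : ∀ Q : ℂ, 0 < ‖Q‖ → ‖Q‖ < 1 → evc P Q = evc R Q) : P = R := by
  have h1 := d7c_zero (d7c_evc_sub hP hR).1 fun Q h0 hQ ↦ by
    rw [(d7c_evc_sub hP hR).2 hQ, h Q h0 hQ, sub_self]
  exact sub_eq_zero.mp h1

/-! ### the functions on the upper half plane -/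

theorem d7c_eta (z : ℂ) :
    eta z = exp (Real.pi * I * z / 12) * Pq (exp (2 * Real.pi * I * z)) := by
  rw [eta]
  congr 1
  · rw [Function.Periodic.qParam]
    congr 1
    push_cast
    ring
  · rw [Pq]
    simp only [eta_q, eta_q_exp]

theorem d7c_norm_exp {z : ℂ} (hz : 0 < z.im) : ‖exp (2 * Real.pi * I * z)‖ < 1 := by
  rw [← eta_q_exp]
  exact Function.Periodic.norm_qParam_lt_one one_pos hz

theorem d7c_norm_exp_eq (z : ℂ) :
    ‖exp (2 * Real.pi * I * z)‖ = Real.exp (-(2 * Real.pi * z.im)) := by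
  rw [Complex.norm_exp]
  congr 1
  simp [Complex.mul_re, Complex.mul_im]

theorem d7c_exp7 (z : ℂ) : exp (2 * Real.pi * I * (7 * z)) = exp (2 * Real.pi * I * z) ^ 7 := by
  rw [← Complex.exp_nat_mul]
  congr 1
  push_cast
  ring

theorem d7c_exp7' (z : ℂ) : exp (Real.pi * I * (7 * z) / 12) = exp (Real.pi * I * z / 12) ^ 7 := by
  rw [← Complex.exp_nat_mul]
  congr 1
  push_cast
  ring

theorem d7c_p_eq {z : ℂ} (hz : 0 < z.im) :
    p7z z = evc (phi7 ℂ) (exp (2 * Real.pi * I * z)) ^ 2 := by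
  have hQ := d7c_norm_exp hz
  rw [d7c_evc_phi7 hQ, p7z, d7c_eta, d7c_eta, d7c_exp7, d7c_exp7']
  have h3 : Pq (exp (2 * Real.pi * I * z) ^ 7) ≠ 0 := Pq_ne (d7c_norm_pow hQ)
  have h4 : exp (Real.pi * I * z / 12) ≠ 0 := Complex.exp_ne_zero _
  field_simp

theorem d7c_f_eq {z : ℂ} (hz : 0 < z.im) :
    f7z z = evc (hauptmodul 7 ℂ) (exp (2 * Real.pi * I * z)) := by
  have hQ := d7c_norm_exp hz
  rw [d7c_evc_haupt7 hQ, f7z, d7c_eta, d7c_eta, d7c_exp7, d7c_exp7']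
  have h5 : exp (2 * Real.pi * I * z) = exp (Real.pi * I * z / 12) ^ 24 := by
    rw [← Complex.exp_nat_mul]
    congr 1
    push_cast
    ring
  have h3 : Pq (exp (2 * Real.pi * I * z)) ≠ 0 := Pq_ne hQ
  have h4 : exp (Real.pi * I * z / 12) ≠ 0 := Complex.exp_ne_zero _
  obtain ⟨E, hE⟩ : ∃ E : ℂ, E = exp (Real.pi * I * z / 12) := ⟨_, rfl⟩
  obtain ⟨A, hA⟩ : ∃ A : ℂ, A = Pq (exp (2 * Real.pi * I * z)) := ⟨_, rfl⟩
  obtain ⟨B, hB⟩ : ∃ B : ℂ, B = Pq (exp (2 * Real.pi * I * z) ^ 7) := ⟨_, rfl⟩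
  rw [← hA, ← hB, h5, ← hE]
  rw [← hE] at h4
  rw [← hA] at h3
  field_simp

/-- The function `φ² ∑ c_i f^i`. -/
def d7c_G (c : ℕ → ℂ) (z : ℂ) : ℂ := p7z z * ∑ i ∈ Finset.range 5, c i * f7z z ^ i

theorem d7c_G_eq (c : ℕ → ℂ) {z : ℂ} (hz : 0 < z.im) :
    evc (d7c_ser c) (exp (2 * Real.pi * I * z)) = d7c_G c z := by
  rw [d7c_evc_ser c (d7c_norm_exp hz), d7c_G, d7c_p_eq hz, d7c_f_eq hz]

theorem d7c_G_inv (c : ℕ → ℂ) : Inv7 6 (d7c_G c) where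
  T z := by
    have h1 := inv7_p.T z
    have h2 := inv7_f.T z
    rw [d7c_G, d7c_G, h1, h2]
  V z hz := by
    have h1 := inv7_p.V z hz
    have h2 := inv7_f.V z hz
    rw [pow_zero, one_mul] at h2
    rw [d7c_G, d7c_G, h1, h2, mul_assoc]
  g1 z hz := by
    have h1 := inv7_p.g1 z hz
    have h2 := inv7_f.g1 z hz
    rw [pow_zero, one_mul] at h2
    rw [d7c_G, d7c_G, h1, h2, mul_assoc]
  g3 z hz := by
    have h1 := inv7_p.g3 z hz
    have h2 := inv7_f.g3 z hz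
    rw [pow_zero, one_mul] at h2
    rw [d7c_G, d7c_G, h1, h2, mul_assoc]

theorem d7c_G_diff (c : ℕ → ℂ) {z : ℂ} (hz : 0 < z.im) : DifferentiableAt ℂ (d7c_G c) z := by
  refine (p7z_diff hz).mul ?_
  have h : ∀ i ∈ Finset.range 5, DifferentiableAt ℂ (fun w ↦ c i * f7z w ^ i) z :=
    fun i _ ↦ ((f7z_diff hz).pow i).const_mul (c i)
  exact DifferentiableAt.fun_sum h

/-! ### the Eisenstein series -/

/-- `E_6` as a function on `ℂ`. -/
def d7c_e (z : ℂ) : ℂ := evc (c2m (eisQ 6)) (exp (2 * Real.pi * I * z))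

open UpperHalfPlane MatrixGroups in
theorem d7c_cusp : DifferentiableOn ℂ (cuspFunction 1 E₆) (Metric.ball 0 1) := fun _ hz ↦
  (ModularFormClass.differentiableAt_cuspFunction E₆ one_pos one_mem_strictPeriods_SL
    (mem_ball_zero_iff.mp hz)).differentiableWithinAt

open UpperHalfPlane MatrixGroups in
theorem d7c_c2T : c2T (cuspFunction 1 E₆) = c2m (eisQ 6) := by
  rw [← c2_qexp_eq]
  exact c2_eis (by norm_num) ⟨3, rfl⟩

theorem d7c_as_e : AS (c2m (eisQ 6)) := by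
  rw [← d7c_c2T]
  exact as_c2T d7c_cusp

open UpperHalfPlane MatrixGroups in
theorem d7c_e_eq (τ : ℍ) : d7c_e τ = E₆ τ := by
  rw [d7c_e, ← d7c_c2T, evc_c2T d7c_cusp (d7c_norm_exp τ.2), ← eta_q_exp]
  exact SlashInvariantFormClass.eq_cuspFunction E₆ τ one_mem_strictPeriods_SL one_ne_zero

theorem d7c_e_T (z : ℂ) : d7c_e (z + 1) = d7c_e z := by
  rw [d7c_e, d7c_e, mul_add, Complex.exp_add, mul_one, Complex.exp_two_pi_mul_I, mul_one]

theorem d7c_e_diff {z : ℂ} (hz : 0 < z.im) : DifferentiableAt ℂ d7c_e z := by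
  have h1 : DifferentiableAt ℂ (evc (c2m (eisQ 6))) (exp (2 * Real.pi * I * z)) := by
    have h2 : DifferentiableAt ℂ (UpperHalfPlane.cuspFunction 1 E₆) (exp (2 * Real.pi * I * z)) :=
      d7c_cusp.differentiableAt (Metric.isOpen_ball.mem_nhds (by simpa using d7c_norm_exp hz))
    refine h2.congr_of_eventuallyEq ?_
    filter_upwards [Metric.isOpen_ball.mem_nhds
      (show exp (2 * Real.pi * I * z) ∈ Metric.ball (0 : ℂ) 1 by simpa using d7c_norm_exp hz)]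
      with Q hQ
    rw [← d7c_c2T, evc_c2T d7c_cusp (by simpa using hQ)]
  exact DifferentiableAt.comp (g := evc (c2m (eisQ 6)))
    (f := fun w : ℂ ↦ exp (2 * Real.pi * I * w)) z h1 (by fun_prop)

open UpperHalfPlane MatrixGroups in
/-- `E_6` under `SL_2(ℤ)`. -/
theorem d7c_e_slash (a b c d : ℤ) (h : a * d - b * c = 1) {z : ℂ} (hz : 0 < z.im) :
    d7c_e ((a * z + b) / (c * z + d)) = (c * z + d) ^ 6 * d7c_e z := by
  obtain ⟨g, hg⟩ : ∃ g : SL(2, ℤ), g = ⟨!![a, b; c, d], by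
    rw [Matrix.det_fin_two_of]; exact h⟩ := ⟨_, rfl⟩
  have e00 : g 0 0 = a := by rw [hg]; rfl
  have e01 : g 0 1 = b := by rw [hg]; rfl
  have e10 : g 1 0 = c := by rw [hg]; rfl
  have e11 : g 1 1 = d := by rw [hg]; rfl
  obtain ⟨τ, hτ⟩ : ∃ τ : ℍ, (τ : ℂ) = z := ⟨⟨z, hz⟩, rfl⟩
  have h1 : ((g • τ : ℍ) : ℂ) = (a * z + b) / (c * z + d) := by
    rw [UpperHalfPlane.coe_specialLinearGroup_apply, e00, e01, e10, e11, hτ]
    simp
  have h2 : E₆ (g • τ) = (c * z + d) ^ 6 * E₆ τ := by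
    have h3 := SlashInvariantForm.slash_action_eqn'' (Γ := 𝒮ℒ) (k := 6) E₆
      (γ := (g : GL (Fin 2) ℝ)) ⟨g, rfl⟩ τ
    rw [ModularGroup.denom_apply, e10, e11, hτ] at h3
    exact_mod_cast h3
  rw [← h1, d7c_e_eq, h2, ← hτ, d7c_e_eq]

end D7

end GH
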