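import Pool.Agent.GH.D7.K7_a
import Pool.Agent.GH.D3.ClG12

/-! The difference of `E_6` and `φ² (1 - 490f - 21609f² - 235298f³ - 823543f⁴)` is `O(q^5)`. -/

open PowerSeries Filter Topology

noncomputable section

namespace GH

namespace D7

open GH.E4 GH.D3

/-! ### truncations -/

theorem d7c_tr1 : X ^ 5 ∣ euler ℚ 1 - (1 - X - X ^ 2) := by
  have h1 : X ^ 5 ∣ euler ℚ 1 - ∏ m ∈ Finset.range 4, (1 - (X : PowerSeries ℚ) ^ (m + 1)) := by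
    rw [PowerSeries.X_pow_dvd_iff]
    intro m hm
    rw [map_sub, c2_euler_coeff (show m ≤ 4 by omega), sub_self]
  have h2 : (∏ m ∈ Finset.range 4, (1 - (X : PowerSeries ℚ) ^ (m + 1))) - (1 - X - X ^ 2) =
      X ^ 5 * (2 - X ^ 3 - X ^ 4 + X ^ 5) := by
    simp only [Finset.prod_range_succ, Finset.prod_range_zero]
    ring
  have h3 : euler ℚ 1 - (1 - X - X ^ 2) =
      (euler ℚ 1 - ∏ m ∈ Finset.range 4, (1 - (X : PowerSeries ℚ) ^ (m + 1))) +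
        ((∏ m ∈ Finset.range 4, (1 - (X : PowerSeries ℚ) ^ (m + 1))) - (1 - X - X ^ 2)) := by
    ring
  rw [h3, h2]
  exact dvd_add h1 (dvd_mul_right _ _)

theorem d7c_tr7 : X ^ 5 ∣ euler ℚ 7 - 1 := by
  rw [PowerSeries.X_pow_dvd_iff]
  intro m hm
  rw [map_sub, PowerSeries.coeff_one]
  by_cases h0 : m = 0
  · subst h0
    rw [if_pos rfl, PowerSeries.coeff_zero_eq_constantCoeff_apply, euler_zero, sub_self]
  · rw [if_neg h0, sub_zero, euler_expand ℚ 7 seven_ne, coeff_expand_of_not_dvd]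
    intro hd
    have := Nat.le_of_dvd (by omega) hd
    omega

theorem d7c_trE : X ^ 5 ∣ eisQ 6 - (1 - C (504 : ℚ) * X ^ 1 - C (16632 : ℚ) * X ^ 2 -
    C (122976 : ℚ) * X ^ 3 - C (532728 : ℚ) * X ^ 4) := by
  rw [PowerSeries.X_pow_dvd_iff]
  intro m hm
  have hb : bernoulli 6 = 1 / 42 := by decide +kernel
  have hs1 : ArithmeticFunction.sigma (6 - 1) 1 = 1 := by decide
  have hs2 : ArithmeticFunction.sigma (6 - 1) 2 = 33 := by decide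
  have hs3 : ArithmeticFunction.sigma (6 - 1) 3 = 244 := by decide
  have hs4 : ArithmeticFunction.sigma (6 - 1) 4 = 1057 := by decide
  rw [eisQ]
  simp only [map_sub, map_add, PowerSeries.coeff_mk, PowerSeries.coeff_C_mul,
    PowerSeries.coeff_X_pow, PowerSeries.coeff_one, hb]
  interval_cases m
  · simp
  · rw [hs1]; norm_num
  · rw [hs2]; norm_num
  · rw [hs3]; norm_num
  · rw [hs4]; norm_num

/-- The series `φ² ∑ c_i f^i` over `ℚ`. -/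
def d7c_q (c : ℕ → ℚ) : PowerSeries ℚ :=
  phi7 ℚ ^ 2 * ∑ i ∈ Finset.range 5, C (c i) * hauptmodul 7 ℚ ^ i

theorem d7c_q_map (c : ℕ → ℚ) : c2m (d7c_q c) = d7c_ser fun i ↦ (c i : ℂ) := by
  have h1 : c2m (phi7 ℚ) = phi7 ℂ := by
    rw [phi7, phi7, map_mul, map_pow, map_euler, map_eulerInv]
  have h2 : c2m (hauptmodul 7 ℚ) = hauptmodul 7 ℂ := map_haupt 7 ℚ ℂ _
  rw [d7c_q, d7c_ser, map_mul, map_pow, h1, map_sum]
  congr 1
  refine Finset.sum_congr rfl fun i _ ↦ ?_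
  rw [map_mul, map_pow, h2, PowerSeries.map_C]
  rfl

/-- The coefficients of `E_6`. -/
def d7c_c (i : ℕ) : ℚ :=
  if i = 0 then 1 else if i = 1 then -490 else if i = 2 then -21609 else
    if i = 3 then -235298 else -823543

theorem d7c_q_c : d7c_q d7c_c = phi7 ℚ ^ 2 *
    (1 - C (490 : ℚ) * hauptmodul 7 ℚ - C (21609 : ℚ) * hauptmodul 7 ℚ ^ 2 -
      C (235298 : ℚ) * hauptmodul 7 ℚ ^ 3 - C (823543 : ℚ) * hauptmodul 7 ℚ ^ 4) := by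
  rw [d7c_q]
  congr 1
  simp only [Finset.sum_range_succ, Finset.sum_range_zero]
  have e0 : d7c_c 0 = 1 := rfl
  have e1 : d7c_c 1 = -490 := rfl
  have e2 : d7c_c 2 = -21609 := rfl
  have e3 : d7c_c 3 = -235298 := rfl
  have e4 : d7c_c 4 = -823543 := rfl
  rw [e0, e1, e2, e3, e4]
  simp only [map_neg, map_one]
  ring

theorem d7c_dvd : X ^ 5 ∣ eisQ 6 - d7c_q d7c_c := by
  have h1 := euler_mul_inv ℚ 1
  have h7 := euler_mul_inv ℚ 7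
  obtain ⟨a, ha⟩ := d7c_tr1
  obtain ⟨b, hb⟩ := d7c_tr7
  obtain ⟨e, he⟩ := d7c_trE
  have k1 : C (490 : ℚ) = (490 : PowerSeries ℚ) := map_ofNat _ 490
  have k2 : C (21609 : ℚ) = (21609 : PowerSeries ℚ) := map_ofNat _ 21609
  have k3 : C (235298 : ℚ) = (235298 : PowerSeries ℚ) := map_ofNat _ 235298
  have k4 : C (823543 : ℚ) = (823543 : PowerSeries ℚ) := map_ofNat _ 823543
  have m1 : C (504 : ℚ) = (504 : PowerSeries ℚ) := map_ofNat _ 504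
  have m2 : C (16632 : ℚ) = (16632 : PowerSeries ℚ) := map_ofNat _ 16632
  have m3 : C (122976 : ℚ) = (122976 : PowerSeries ℚ) := map_ofNat _ 122976
  have m4 : C (532728 : ℚ) = (532728 : PowerSeries ℚ) := map_ofNat _ 532728
  rw [d7c_q_c, k1, k2, k3, k4]
  rw [m1, m2, m3, m4] at he
  have hp : phi7 ℚ = euler ℚ 1 ^ 7 * invOfUnit (euler ℚ 7) 1 := rfl
  have hh : hauptmodul 7 ℚ = X * (euler ℚ 7 * invOfUnit (euler ℚ 1) 1) ^ 4 := rfl
  rw [hp, hh]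
  obtain ⟨E, hE⟩ : ∃ E : PowerSeries ℚ, E = euler ℚ 1 := ⟨_, rfl⟩
  obtain ⟨F, hF⟩ : ∃ F : PowerSeries ℚ, F = euler ℚ 7 := ⟨_, rfl⟩
  obtain ⟨J, hJ⟩ : ∃ J : PowerSeries ℚ, J = invOfUnit (euler ℚ 1) 1 := ⟨_, rfl⟩
  obtain ⟨H, hH⟩ : ∃ H : PowerSeries ℚ, H = invOfUnit (euler ℚ 7) 1 := ⟨_, rfl⟩
  obtain ⟨W, hW⟩ : ∃ W : PowerSeries ℚ, W = eisQ 6 := ⟨_, rfl⟩
  rw [← hJ, ← hE] at h1
  rw [← hH, ← hF] at h7
  rw [← hE] at ha
  rw [← hF] at hb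
  rw [← hW] at he
  rw [← hJ, ← hH, ← hE, ← hF, ← hW]
  -- the product with `E² F²`
  have p0 : (E ^ 7 * H) ^ 2 * (E ^ 2 * F ^ 2) = E ^ 16 := by
    have : (E ^ 7 * H) ^ 2 * (E ^ 2 * F ^ 2) = E ^ 16 * (F * H) ^ 2 := by ring
    rw [this, h7, one_pow, mul_one]
  have p1 : (E ^ 7 * H) ^ 2 * (X * (F * J) ^ 4) * (E ^ 2 * F ^ 2) = X * (F ^ 4 * E ^ 12) := by
    have : (E ^ 7 * H) ^ 2 * (X * (F * J) ^ 4) * (E ^ 2 * F ^ 2) =
        X * (F ^ 4 * E ^ 12) * (F * H) ^ 2 * (E * J) ^ 4 := by ring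
    rw [this, h7, h1, one_pow, one_pow, mul_one, mul_one]
  have p2 : (E ^ 7 * H) ^ 2 * (X * (F * J) ^ 4) ^ 2 * (E ^ 2 * F ^ 2) =
      X ^ 2 * (F ^ 8 * E ^ 8) := by
    have : (E ^ 7 * H) ^ 2 * (X * (F * J) ^ 4) ^ 2 * (E ^ 2 * F ^ 2) =
        X ^ 2 * (F ^ 8 * E ^ 8) * (F * H) ^ 2 * (E * J) ^ 8 := by ring
    rw [this, h7, h1, one_pow, one_pow, mul_one, mul_one]
  have p3 : (E ^ 7 * H) ^ 2 * (X * (F * J) ^ 4) ^ 3 * (E ^ 2 * F ^ 2) =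
      X ^ 3 * (F ^ 12 * E ^ 4) := by
    have : (E ^ 7 * H) ^ 2 * (X * (F * J) ^ 4) ^ 3 * (E ^ 2 * F ^ 2) =
        X ^ 3 * (F ^ 12 * E ^ 4) * (F * H) ^ 2 * (E * J) ^ 12 := by ring
    rw [this, h7, h1, one_pow, one_pow, mul_one, mul_one]
  have p4 : (E ^ 7 * H) ^ 2 * (X * (F * J) ^ 4) ^ 4 * (E ^ 2 * F ^ 2) = X ^ 4 * F ^ 16 := by
    have : (E ^ 7 * H) ^ 2 * (X * (F * J) ^ 4) ^ 4 * (E ^ 2 * F ^ 2) =
        X ^ 4 * F ^ 16 * (F * H) ^ 2 * (E * J) ^ 16 := by ring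
    rw [this, h7, h1, one_pow, one_pow, mul_one, mul_one]
  have hmain : X ^ 5 ∣ W * (E ^ 2 * F ^ 2) - (E ^ 16 - 490 * (X * (F ^ 4 * E ^ 12)) -
      21609 * (X ^ 2 * (F ^ 8 * E ^ 8)) - 235298 * (X ^ 3 * (F ^ 12 * E ^ 4)) -
      823543 * (X ^ 4 * F ^ 16)) := by
    rw [← Ideal.mem_span_singleton, ← Ideal.Quotient.eq_zero_iff_mem]
    obtain ⟨π, hπ⟩ : ∃ π : PowerSeries ℚ →+* (PowerSeries ℚ ⧸ Ideal.span {(X : PowerSeries ℚ) ^ 5}),
      π = Ideal.Quotient.mk _ := ⟨_, rfl⟩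
    rw [← hπ]
    have hx : π X ^ 5 = 0 := by
      rw [← map_pow, hπ, Ideal.Quotient.eq_zero_iff_mem, Ideal.mem_span_singleton]
    have hEx : π E = 1 - π X - π X ^ 2 := by
      have h := congrArg π ha
      rw [map_mul, map_pow, hx, zero_mul] at h
      simp only [map_sub, map_one, map_pow] at h
      exact sub_eq_zero.mp h
    have hFx : π F = 1 := by
      have h := congrArg π hb
      rw [map_mul, map_pow, hx, zero_mul, map_sub, map_one] at h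
      exact sub_eq_zero.mp h
    have hWx : π W = 1 - 504 * π X - 16632 * π X ^ 2 - 122976 * π X ^ 3 -
        532728 * π X ^ 4 := by
      have h := congrArg π he
      rw [map_mul π (X ^ 5), map_pow, hx, zero_mul] at h
      simp only [map_sub, map_one, map_pow, map_mul, map_ofNat, pow_one] at h
      exact sub_eq_zero.mp h
    simp only [map_sub, map_mul, map_pow, map_ofNat]
    rw [hEx, hFx, hWx]
    generalize π X = x at hx ⊢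
    have t2 : (1 - x - x ^ 2) ^ 2 = 1 - 2 * x - x ^ 2 + 2 * x ^ 3 + x ^ 4 := by ring
    have t4 : (1 - x - x ^ 2) ^ 4 = 1 - 4 * x + 2 * x ^ 2 + 8 * x ^ 3 - 5 * x ^ 4 := by
      have : (1 - x - x ^ 2) ^ 4 = ((1 - x - x ^ 2) ^ 2) ^ 2 := by ring
      rw [this, t2]
      linear_combination (-8 + 2 * x + 4 * x ^ 2 + x ^ 3) * hx
    have t8 : (1 - x - x ^ 2) ^ 8 = 1 - 8 * x + 20 * x ^ 2 - 70 * x ^ 4 := by
      have : (1 - x - x ^ 2) ^ 8 = ((1 - x - x ^ 2) ^ 4) ^ 2 := by ring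
      rw [this, t4]
      linear_combination (72 + 44 * x - 80 * x ^ 2 + 25 * x ^ 3) * hx
    have t12 : (1 - x - x ^ 2) ^ 12 = 1 - 12 * x + 54 * x ^ 2 - 88 * x ^ 3 - 99 * x ^ 4 := by
      have : (1 - x - x ^ 2) ^ 12 = (1 - x - x ^ 2) ^ 8 * (1 - x - x ^ 2) ^ 4 := by ring
      rw [this, t8, t4]
      linear_combination (480 - 240 * x - 560 * x ^ 2 + 350 * x ^ 3) * hx
    have t16 : (1 - x - x ^ 2) ^ 16 =
        1 - 16 * x + 104 * x ^ 2 - 320 * x ^ 3 + 260 * x ^ 4 := by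
      have : (1 - x - x ^ 2) ^ 16 = ((1 - x - x ^ 2) ^ 8) ^ 2 := by ring
      rw [this, t8]
      linear_combination (1120 - 2800 * x + 4900 * x ^ 3) * hx
    rw [t16, t12, t8, t4, t2]
    linear_combination (1576750 + 639898 * x - 2364922 * x ^ 2 - 532728 * x ^ 3) * hx
  have hfin : W - (E ^ 7 * H) ^ 2 * (1 - 490 * (X * (F * J) ^ 4) -
      21609 * (X * (F * J) ^ 4) ^ 2 - 235298 * (X * (F * J) ^ 4) ^ 3 -
      823543 * (X * (F * J) ^ 4) ^ 4) =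
      (W * (E ^ 2 * F ^ 2) - (E ^ 16 - 490 * (X * (F ^ 4 * E ^ 12)) -
      21609 * (X ^ 2 * (F ^ 8 * E ^ 8)) - 235298 * (X ^ 3 * (F ^ 12 * E ^ 4)) -
      823543 * (X ^ 4 * F ^ 16))) * (J ^ 2 * H ^ 2) := by
    rw [← p0, ← p1, ← p2, ← p3, ← p4]
    have h8 : (E * J) ^ 2 * (F * H) ^ 2 = 1 := by rw [h1, h7, one_pow, mul_one]
    obtain ⟨Z, hZ⟩ : ∃ Z, Z = W - (E ^ 7 * H) ^ 2 * (1 - 490 * (X * (F * J) ^ 4) -
      21609 * (X * (F * J) ^ 4) ^ 2 - 235298 * (X * (F * J) ^ 4) ^ 3 -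
      823543 * (X * (F * J) ^ 4) ^ 4) := ⟨_, rfl⟩
    calc _ = Z := hZ.symm
      _ = Z * ((E * J) ^ 2 * (F * H) ^ 2) := by rw [h8, mul_one]
      _ = _ := by
        rw [hZ]
        ring
  rw [hfin]
  exact hmain.mul_right _

end D7

end GH
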