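import Pool.Agent.GH.D7.Glue7
import Pool.Agent.GH.DP.FamP
import Pool.Agent.GH.FamA

open PowerSeries Filter Topology

noncomputable section

namespace GH

namespace D7

open GP DP

/-! ### expansion `q ↦ q^7` -/

theorem d7o_expand_subst {K : Type*} [Field K] {v : PowerSeries K}
    (hv : PowerSeries.constantCoeff v = 0) (g : PowerSeries K) :
    PowerSeries.expand 7 seven_ne (g.subst v) = g.subst (v.expand 7 seven_ne) := by
  rw [PowerSeries.expand_apply, PowerSeries.expand_apply]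
  exact subst_comp_subst_apply (HasSubst.of_constantCoeff_zero' hv)
    (HasSubst.X_pow seven_ne) g

theorem d7o_expand_ppow {K : Type*} [Field K] {u : PowerSeries K}
    (hu : PowerSeries.constantCoeff u = 1) (s : K) :
    (ppow u s).expand 7 seven_ne = ppow (u.expand 7 seven_ne) s := by
  unfold ppow
  rw [d7o_expand_subst (by rw [map_sub, hu, map_one, sub_self]), map_sub, map_one]

/-! ### norms -/

/-- The Gauss norm of radius `r` is at most `c`. -/
def d7o_Bd (r c : ℝ) (F : PowerSeries C7) : Prop := ∀ m, ‖PowerSeries.coeff m F‖ * r ^ m ≤ c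

theorem d7o_Bd_iff {r c : ℝ} (hr : 0 < r) {F : PowerSeries C7} :
    d7o_Bd r c F ↔ ∀ m, ‖PowerSeries.coeff m F‖ ≤ c / r ^ m := by
  unfold d7o_Bd
  refine forall_congr' fun m => ?_
  rw [le_div_iff₀ (by positivity)]

theorem d7o_Bd_nonneg {r c : ℝ} {F : PowerSeries C7} (h : d7o_Bd r c F) : 0 ≤ c := by
  have h1 := h 0
  rw [pow_zero, mul_one] at h1
  exact (norm_nonneg _).trans h1

theorem d7o_Bd_mul {r c c' : ℝ} (hr : 0 < r) {F G : PowerSeries C7} (hF : d7o_Bd r c F)
    (hG : d7o_Bd r c' G) : d7o_Bd r (c * c') (F * G) := by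
  have hc := d7o_Bd_nonneg hF
  have hc' := d7o_Bd_nonneg hG
  rw [d7o_Bd_iff hr]
  intro n
  rw [PowerSeries.coeff_mul]
  refine IsUltrametricDist.norm_sum_le_of_forall_le_of_nonneg (by positivity) fun ij hij => ?_
  rw [Finset.HasAntidiagonal.mem_antidiagonal] at hij
  rw [norm_mul, ← hij, le_div_iff₀ (by positivity), pow_add]
  calc ‖PowerSeries.coeff ij.1 F‖ * ‖PowerSeries.coeff ij.2 G‖ * (r ^ ij.1 * r ^ ij.2)
      = (‖PowerSeries.coeff ij.1 F‖ * r ^ ij.1) * (‖PowerSeries.coeff ij.2 G‖ * r ^ ij.2) := by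
        ring
    _ ≤ c * c' := mul_le_mul (hF _) (hG _) (by positivity) hc

theorem d7o_Bd_one {r c : ℝ} (hc : 1 ≤ c) : d7o_Bd r c 1 := by
  intro n
  rw [PowerSeries.coeff_one]
  split_ifs with h
  · rw [h, norm_one, pow_zero, mul_one]
    exact hc
  · rw [norm_zero, zero_mul]
    linarith

theorem d7o_Bd_pow {r c : ℝ} (hr : 0 < r) {F : PowerSeries C7} (hF : d7o_Bd r c F) (m : ℕ) :
    d7o_Bd r (c ^ m) (F ^ m) := by
  induction m with
  | zero =>
    rw [pow_zero, pow_zero]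
    exact d7o_Bd_one le_rfl
  | succ m ih =>
    rw [pow_succ, pow_succ]
    exact d7o_Bd_mul hr ih hF

theorem d7o_mono {r a b : ℝ} {F : PowerSeries C7} (hF : d7o_Bd r a F) (h : a ≤ b) :
    d7o_Bd r b F := fun n => (hF n).trans h

/-- a smaller radius -/
theorem d7o_rad {r s a : ℝ} (hr : 0 ≤ r) (hrs : r ≤ s) {F : PowerSeries C7}
    (hF : d7o_Bd s a F) : d7o_Bd r a F := fun n =>
  (mul_le_mul_of_nonneg_left (pow_le_pow_left₀ hr hrs n) (norm_nonneg _)).trans (hF n)

theorem d7o_subst {r a : ℝ} (hr : 0 < r) {F G : PowerSeries C7}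
    (hF0 : PowerSeries.constantCoeff F = 0) (hF : d7o_Bd r a F)
    (hG : ∀ m, ‖PowerSeries.coeff m G‖ * a ^ m ≤ 1) : d7o_Bd r 1 (G.subst F) := by
  intro n
  have h32 : (0 : ℝ) < r ^ n := by positivity
  rw [← le_div_iff₀ h32, fa_coeff_subst hF0]
  refine IsUltrametricDist.norm_sum_le_of_forall_le_of_nonneg (by positivity) fun m _ => ?_
  rw [le_div_iff₀ h32, norm_mul, mul_assoc]
  calc ‖PowerSeries.coeff m G‖ * (‖PowerSeries.coeff n (F ^ m)‖ * r ^ n)
      ≤ ‖PowerSeries.coeff m G‖ * a ^ m :=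
        mul_le_mul_of_nonneg_left (d7o_Bd_pow hr hF m n) (norm_nonneg _)
    _ ≤ 1 := hG m

theorem d7o_inv {r : ℝ} (hr : 0 < r) {F G : PowerSeries C7}
    (hF0 : PowerSeries.constantCoeff F = 1) (hF : d7o_Bd r 1 F) (hFG : F * G = 1) :
    d7o_Bd r 1 G := by
  intro n
  induction n using Nat.strong_induction_on with
  | _ n ih =>
    have h32 : (0 : ℝ) < r ^ n := by positivity
    have h1 : PowerSeries.coeff n G = (if n = 0 then 1 else 0) -
        ∑ ij ∈ (Finset.HasAntidiagonal.antidiagonal n).erase (0, n),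
          PowerSeries.coeff ij.1 F * PowerSeries.coeff ij.2 G := by
      have h2 := congrArg (PowerSeries.coeff n) hFG
      rw [PowerSeries.coeff_mul, PowerSeries.coeff_one,
        ← Finset.add_sum_erase _ _ (Finset.HasAntidiagonal.mem_antidiagonal.2
          (show ((0, n) : ℕ × ℕ).1 + ((0, n) : ℕ × ℕ).2 = n from zero_add n)),
        PowerSeries.coeff_zero_eq_constantCoeff_apply, hF0, one_mul] at h2
      exact eq_sub_of_add_eq h2
    rw [← le_div_iff₀ h32, h1, sub_eq_add_neg]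
    refine (IsUltrametricDist.norm_add_le_max _ _).trans (max_le ?_ ?_)
    · rcases Nat.eq_zero_or_pos n with h | h
      · subst h
        simp
      · rw [if_neg (by omega), norm_zero]
        positivity
    · rw [norm_neg]
      refine IsUltrametricDist.norm_sum_le_of_forall_le_of_nonneg (by positivity) fun ij hij => ?_
      rw [Finset.mem_erase, Finset.HasAntidiagonal.mem_antidiagonal] at hij
      have hlt : ij.2 < n := by
        rcases Nat.lt_or_ge ij.2 n with h | h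
        · exact h
        · exact absurd (Prod.ext (by show ij.1 = 0; omega) (by show ij.2 = n; omega)) hij.1
      rw [le_div_iff₀ h32, norm_mul, ← hij.2, pow_add]
      calc ‖PowerSeries.coeff ij.1 F‖ * ‖PowerSeries.coeff ij.2 G‖ *
            (r ^ ij.1 * r ^ ij.2)
          = (‖PowerSeries.coeff ij.1 F‖ * r ^ ij.1) *
            (‖PowerSeries.coeff ij.2 G‖ * r ^ ij.2) := by ring
        _ ≤ 1 * 1 := mul_le_mul (hF _) (ih _ hlt) (by positivity) zero_le_one
        _ = 1 := one_mul 1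

theorem d7o_Bd_X {r : ℝ} (hr : 0 < r) (k : ℕ) : d7o_Bd r (r ^ k) (X ^ k) := by
  intro m
  rw [PowerSeries.coeff_X_pow]
  split_ifs with hm
  · rw [hm, norm_one, one_mul]
  · rw [norm_zero, zero_mul]
    positivity

theorem d7o_phic : PowerSeries.constantCoeff (phi7 C7 ^ 2) = 1 := by
  rw [map_pow, constantCoeff_phi7, one_pow]

theorem d7o_haupt_c : PowerSeries.constantCoeff (hauptmodul 7 C7) = 0 := by
  rw [← PowerSeries.coeff_zero_eq_constantCoeff_apply, coeff_zero_hauptmodul]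

/-- the norm of `S` -/
theorem d7o_Bd_S (hK : K7) : d7o_Bd (7 / 5) 1 (S7 C7) := by
  intro n
  rcases Nat.eq_zero_or_pos n with h | h
  · subst h
    rw [PowerSeries.coeff_zero_eq_constantCoeff_apply, constantCoeff_S7, norm_one, pow_zero,
      one_mul]
  · exact (norm_S7_le hK h).trans (by norm_num)

/-- the norm of `g` -/
theorem d7o_Bd_gs (hK : K7) {r : ℝ} (hr : 0 < r) (hr2 : r ≤ 7 / 5) :
    d7o_Bd r (r ^ 7) (gs7 C7) := by
  have hS0 : PowerSeries.constantCoeff (S7 C7 ^ 2) = 1 := by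
    rw [map_pow, constantCoeff_S7, one_pow]
  have hSi : S7 C7 ^ 2 * (S7 C7 ^ 2)⁻¹ = 1 :=
    PowerSeries.mul_inv_cancel _ (by rw [hS0]; exact one_ne_zero)
  have nS : d7o_Bd r 1 (S7 C7 ^ 2) :=
    d7o_mono (d7o_Bd_pow hr (d7o_rad hr.le hr2 (d7o_Bd_S hK)) 2) (by norm_num)
  have nSi : d7o_Bd r 1 (S7 C7 ^ 2)⁻¹ := d7o_inv hr hS0 nS hSi
  have hg : gs7 C7 = X ^ 7 * (S7 C7 ^ 2)⁻¹ := by
    rw [← gs7_mul, mul_assoc, hSi, mul_one]
  rw [hg]
  exact d7o_mono (d7o_Bd_mul hr (d7o_Bd_X hr 7) nSi) (by rw [mul_one])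

theorem d7o_gs0 : PowerSeries.constantCoeff (gs7 C7) = 0 := by
  unfold gs7
  rw [map_mul, map_pow, PowerSeries.constantCoeff_X, zero_pow seven_ne, zero_mul]

/-- On the central disc the coefficients of `E(q)/E(q^7)` decay with radius `26/25`. -/
theorem norm_Phi7_central (hK : K7) (E : PowerSeries (PowerSeries ℤ_[7])) (hE : EisFamilyP E)
    (u : ℕ → C7 → C7) (hu : OrdVec7 u) {w : C7} (hw : ‖w‖ ≤ ((7 : ℕ) : ℝ)⁻¹) (l : ℕ) :
    ‖evp w (PhiP E l)‖ * (26 / 25 : ℝ) ^ l ≤ 1 := by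
  have hw' : ‖w‖ ≤ 1 / 7 := by
    refine hw.trans (le_of_eq ?_)
    norm_num
  obtain ⟨x, hx, rfl⟩ := exists_wx7_eq hw'
  have hw1 : ‖wx7 x‖ < 1 := lt_of_le_of_lt hw' (by norm_num)
  have hr : (0 : ℝ) < 26 / 25 := by norm_num
  have hr2 : (26 / 25 : ℝ) ≤ 7 / 5 := by norm_num
  set f := hauptmodul 7 C7 with hf
  have hfs : HasSubst f := fx_hasSubst 7
  -- `B(f) = S(f)^x`
  set B : PowerSeries C7 := ppow (S7 C7) x with hB
  have nB : d7o_Bd (26 / 25) 1 B :=
    d7o_rad hr.le hr2 (fun n => norm_ppow_S7_le hK hx n)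
  have hS0 : PowerSeries.constantCoeff (S7 C7 - 1) = 0 := by
    rw [map_sub, constantCoeff_S7, map_one, sub_self]
  have hB0 : PowerSeries.constantCoeff B = 1 := by
    rw [← PowerSeries.coeff_zero_eq_constantCoeff_apply, hB, ppow, fa_coeff_subst hS0]
    simp [binS]
  have hBf : PowerSeries.subst f B = ppow ((S7 C7).subst f) x := by
    rw [hB]
    unfold ppow
    rw [subst_comp_subst_apply (HasSubst.of_constantCoeff_zero' hS0) hfs]
    congr 1
    rw [← coe_substAlgHom hfs, map_sub, map_one]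
  -- `V(f) = u(f(q^7))`
  set uS : PowerSeries C7 := PowerSeries.mk fun n ↦ u n x with huS
  obtain ⟨hu0, hub, -⟩ := hu.eqs x hx
  set V : PowerSeries C7 := uS.subst (gs7 C7) with hV
  have nk : d7o_Bd (26 / 25) (7 / 5) (gs7 C7) :=
    d7o_mono (d7o_Bd_gs hK hr hr2) (by norm_num)
  have nV : d7o_Bd (26 / 25) 1 V := by
    refine d7o_subst hr d7o_gs0 nk fun m => ?_
    rw [huS, PowerSeries.coeff_mk]
    exact hub m
  have hV0 : PowerSeries.constantCoeff V = 1 := by
    rw [← PowerSeries.coeff_zero_eq_constantCoeff_apply, hV, fa_coeff_subst d7o_gs0]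
    simp [huS, hu0]
  have hVf : PowerSeries.subst f V = PowerSeries.expand 7 seven_ne (uS.subst f) := by
    rw [hV, subst_comp_subst_apply (HasSubst.of_constantCoeff_zero' d7o_gs0) hfs, hf, gs7_subst,
      d7o_expand_subst d7o_haupt_c]
  have nu : d7o_Bd (26 / 25) 1 uS := by
    intro n
    rw [huS, PowerSeries.coeff_mk]
    exact (mul_le_mul_of_nonneg_left (pow_le_pow_left₀ (by norm_num) (by norm_num) n)
      (norm_nonneg _)).trans (hub n)
  -- the product
  have hBV0 : PowerSeries.constantCoeff (B * V) = 1 := by rw [map_mul, hB0, hV0, one_mul]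
  have hBVi : B * V * (B * V)⁻¹ = 1 :=
    PowerSeries.mul_inv_cancel _ (by rw [hBV0]; exact one_ne_zero)
  have nBV : d7o_Bd (26 / 25) 1 (B * V) := d7o_mono (d7o_Bd_mul hr nB nV) (by norm_num)
  have nBVi : d7o_Bd (26 / 25) 1 (B * V)⁻¹ := d7o_inv hr hBV0 nBV hBVi
  have nΦ : d7o_Bd (26 / 25) 1 (uS * (B * V)⁻¹) :=
    d7o_mono (d7o_Bd_mul hr nu nBVi) (by norm_num)
  have hE1 : evSp (wx7 x) E = phiPow7 x * uS.subst f := evSp_eisFam7 hK E hE u hu x hx
  have hSf : PowerSeries.constantCoeff ((S7 C7).subst f) = 1 := by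
    have h1 : (S7 C7).subst f = 1 + (S7 C7 - 1).subst f := by
      rw [← coe_substAlgHom hfs, map_sub, map_one, coe_substAlgHom]
      ring
    have h2 : PowerSeries.coeff 0 ((S7 C7 - 1).subst f) = 0 := by
      rw [fa_coeff_subst (show PowerSeries.constantCoeff f = 0 from d7o_haupt_c)]
      simp [constantCoeff_S7]
    rw [h1, map_add, map_one, ← PowerSeries.coeff_zero_eq_constantCoeff_apply, h2, add_zero]
  have hE2 : (evSp (wx7 x) E).expand 7 seven_ne = phiPow7 x * (B * V).subst f := by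
    rw [hE1, map_mul]
    have h1 : (phiPow7 x).expand 7 seven_ne = phiPow7 x * PowerSeries.subst f B := by
      unfold phiPow7
      rw [d7o_expand_ppow d7o_phic, ← S7_subst, fa_ppow_mul d7o_phic hSf, hBf]
    rw [h1, PowerSeries.subst_mul hfs, hVf, mul_assoc]
  have hcE : PowerSeries.constantCoeff ((evSp (wx7 x) E).expand 7 seven_ne) ≠ 0 := by
    rw [PowerSeries.constantCoeff_expand, dp_fm_cEw hE hw1]
    exact one_ne_zero
  have hΦ : evSp (wx7 x) E * ((evSp (wx7 x) E).expand 7 seven_ne)⁻¹ =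
      (uS * (B * V)⁻¹).subst f := by
    symm
    rw [PowerSeries.eq_mul_inv_iff_mul_eq hcE, hE2, hE1, PowerSeries.subst_mul hfs]
    have h1 : ((B * V)⁻¹).subst f * (B * V).subst f = 1 := by
      rw [← PowerSeries.subst_mul hfs, mul_comm (B * V)⁻¹, hBVi, ← coe_substAlgHom hfs, map_one]
    calc uS.subst f * ((B * V)⁻¹).subst f * (phiPow7 x * (B * V).subst f)
        = phiPow7 x * uS.subst f * (((B * V)⁻¹).subst f * (B * V).subst f) := by ring
      _ = phiPow7 x * uS.subst f := by rw [h1, mul_one]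
  rw [dp_fm_ev_Phi hE hw1, hΦ, fcoeff_subst]
  exact nΦ l

end D7

end GH
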