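import Pool.Agent.GH.D7.K7
import Pool.Agent.GH.D7.Phi7
import Pool.Agent.GH.D7.Frame7
import Pool.Agent.GH.D7.Ghost7
import Pool.Agent.GH.DP.MainP
import Pool.Agent.GH.DP.EisFamP
import Pool.Agent.GH.DP.ChangeP
import Pool.Agent.GH.DP.CompactP

/-!
# Final assembly: the central theorem implies the ghost conjecture for `p = 7`, `N = 1`
-/

open PowerSeries Filter Topology

noncomputable section

namespace GH

namespace D7

open GP DP

theorem k7 : K7 := ⟨eisQ_six, eisQ_six_expand⟩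

theorem m7_ne_two : (7 : ℕ) ≠ 2 := by norm_num

theorem m7_cast : ((7 : ℕ) : ℝ)⁻¹ = 1 / 7 := by norm_num

/-- The factor `w` on the component `2`. -/
def wc7 (c : ℕ) : PowerSeries C7 := if c = 2 then wser7 C7 else 1

theorem constantCoeff_wser7 (K : Type*) [Field K] :
    PowerSeries.constantCoeff (wser7 K) = 1 := by
  simp [wser7]

theorem constantCoeff_wc7 (c : ℕ) : PowerSeries.constantCoeff (wc7 c) = 1 := by
  unfold wc7
  split_ifs
  · exact constantCoeff_wser7 C7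
  · simp

theorem wc7_mul_inv (c : ℕ) : wc7 c * (wc7 c)⁻¹ = 1 :=
  PowerSeries.mul_inv_cancel _ (by rw [constantCoeff_wc7]; exact one_ne_zero)

theorem norm_coeff_one (n : ℕ) :
    ‖PowerSeries.coeff n (1 : PowerSeries C7)‖ * (7 : ℝ) ^ n ≤ 1 := by
  rw [PowerSeries.coeff_one]
  split_ifs with h
  · simp [h]
  · simp

theorem norm_wc7 (c n : ℕ) : ‖PowerSeries.coeff n (wc7 c)‖ * (7 : ℝ) ^ n ≤ 1 := by
  unfold wc7
  split_ifs
  · exact norm_wser7 n
  · exact norm_coeff_one n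

theorem norm_wc7_inv (c n : ℕ) : ‖PowerSeries.coeff n ((wc7 c)⁻¹)‖ * (7 : ℝ) ^ n ≤ 1 := by
  unfold wc7
  split_ifs
  · exact norm_wser7_inv n
  · have h : (1 : PowerSeries C7)⁻¹ = 1 := by simp
    rw [h]
    exact norm_coeff_one n

theorem m7_mono {R r : ℝ} (hr : 0 ≤ r) (h : r ≤ R) {a : C7} {n : ℕ} (ha : ‖a‖ * R ^ n ≤ 1) :
    ‖a‖ * r ^ n ≤ 1 :=
  (mul_le_mul_of_nonneg_left (pow_le_pow_left₀ hr h n) (norm_nonneg _)).trans ha

/-- The norm of a product. -/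
theorem m7_mul {F G : PowerSeries C7}
    (hF : ∀ n, ‖PowerSeries.coeff n F‖ * (13 / 10 : ℝ) ^ n ≤ 1)
    (hG : ∀ n, ‖PowerSeries.coeff n G‖ * (13 / 10 : ℝ) ^ n ≤ 1) (n : ℕ) :
    ‖PowerSeries.coeff n (F * G)‖ * (13 / 10 : ℝ) ^ n ≤ 1 := by
  have h : ‖PowerSeries.coeff n (F * G)‖ ≤ (10 / 13 : ℝ) ^ n := by
    rw [PowerSeries.coeff_mul]
    refine IsUltrametricDist.norm_sum_le_of_forall_le_of_nonneg (by positivity) fun x hx ↦ ?_
    rw [Finset.HasAntidiagonal.mem_antidiagonal] at hx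
    have e : ∀ {H : PowerSeries C7} (_ : ∀ n, ‖PowerSeries.coeff n H‖ * (13 / 10 : ℝ) ^ n ≤ 1)
        (m : ℕ), ‖PowerSeries.coeff m H‖ ≤ (10 / 13 : ℝ) ^ m := by
      intro H hH m
      have h1 := hH m
      rw [← le_div_iff₀ (by positivity), one_div, ← inv_pow] at h1
      have h2 : (13 / 10 : ℝ)⁻¹ = 10 / 13 := by norm_num
      rwa [h2] at h1
    rw [norm_mul, ← hx, pow_add]
    exact mul_le_mul (e hF _) (e hG _) (norm_nonneg _) (by positivity)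
  calc ‖PowerSeries.coeff n (F * G)‖ * (13 / 10 : ℝ) ^ n ≤
        (10 / 13 : ℝ) ^ n * (13 / 10 : ℝ) ^ n :=
        mul_le_mul_of_nonneg_right h (by positivity)
    _ = 1 := by
        rw [← mul_pow]
        norm_num

theorem m7_subst_wc (c : ℕ) :
    (wc7 c).subst (hauptmodul 7 C7) =
      if c = 2 then (wser7 C7).subst (hauptmodul 7 C7) else 1 := by
  unfold wc7
  split_ifs
  · rfl
  · rw [← coe_substAlgHom (fx_hasSubst 7), map_one]

theorem m7_subst_inv (c : ℕ) : (wc7 c).subst (hauptmodul 7 C7) *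
    ((wc7 c)⁻¹).subst (hauptmodul 7 C7) = 1 := by
  rw [← PowerSeries.subst_mul (fx_hasSubst 7), wc7_mul_inv, ← coe_substAlgHom (fx_hasSubst 7),
    map_one]

theorem m7_isUMat {c : ℕ} (hc : c ≤ 2) (x : C7) :
    IsUMat (phiPow7 x * dser7 C7 c) (Mat7 c x) where
  c0 := by rw [map_mul, constantCoeff_phiPow7, constantCoeff_dser7, one_mul]
  zero := fun _ _ h ↦ Mat7_of_lt c x h
  mat := fun u _ ↦ U_frm7_subst k7 hc x u

theorem m7_dec {c : ℕ} (hc : c ≤ 2) {x : C7} (hx : ‖x‖ ≤ 1) :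
    Dec (13 / 10) ((7 / 5 : ℝ) ^ 4) (Mat7 c x) := by
  have h : Dec (7 / 5) ((7 / 5 : ℝ) ^ 4) (Mat7 c x) := by
    intro i j h
    have h1 := norm_Mat7_le k7 hc hx h
    rw [inv_pow]
    rwa [← div_eq_mul_inv, le_div_iff₀ (by positivity)]
  exact h.mono (by norm_num) (by norm_num)

/-- The matrix in the basis `E_{z^{2c}} f^j`. -/
theorem m7_exists_M0 {c : ℕ} (hc : c ≤ 2) : ∃ M' : ℕ → ℕ → C7,
    IsUMat (dser7 C7 c * (wc7 c).subst (hauptmodul 7 C7)) M' ∧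
      Dec (13 / 10) ((7 / 5 : ℝ) ^ 4) M' := by
  have h := (m7_isUMat hc (0 : C7)).change (wc7 c) ((wc7 c)⁻¹)
    (wc7_mul_inv _) (constantCoeff_wc7 _) (by norm_num : (1 : ℝ) < 13 / 10)
    (by positivity : (0 : ℝ) ≤ (7 / 5 : ℝ) ^ 4)
    (fun n ↦ m7_mono (by norm_num) (by norm_num) (norm_wc7 c n))
    (fun n ↦ m7_mono (by positivity) (by norm_num) (norm_wc7_inv c n))
    (m7_dec hc (by simp))
  rwa [phiPow7_zero, one_mul] at h

theorem m7_hdeg {c : ℕ} (hc : c ≤ 2) (n : ℕ) :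
    2 * (∑ l ∈ Finset.range (2 * (n + 1) + 3), multG 7 (n + 1) (2 * c + 6 * l)) + 1 ≤
      (∑ l ∈ Finset.range (2 * n + 3), multG 7 n (2 * c + 6 * l)) +
        ∑ l ∈ Finset.range (2 * (n + 2) + 3), multG 7 (n + 2) (2 * c + 6 * l) := by
  rw [sum_mult7 hc, sum_mult7 hc, sum_mult7 hc]
  obtain ⟨g, hg⟩ : ∃ g : ℕ → ℕ, g = fun l ↦
    (9 * (l + 1) + if c = 0 then 0 else if c = 1 then 6 else 3) / 7 := ⟨_, rfl⟩
  have e1 : ∑ l ∈ Finset.range (n + 1), g l = ∑ l ∈ Finset.range n, g l + g n :=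
    Finset.sum_range_succ _ _
  have e2 : ∑ l ∈ Finset.range (n + 2), g l = ∑ l ∈ Finset.range (n + 1), g l + g (n + 1) :=
    Finset.sum_range_succ _ _
  have h1 : g n + 1 ≤ g (n + 1) := by
    rw [hg]
    simp only
    split_ifs <;> omega
  rw [hg] at e1 e2 h1
  simp only at e1 e2 h1
  omega

/-- All inputs of the assembly for the component `c`. -/
theorem ghost7_component (hcen : CentralTheorem7) (κ : Weight 7) (hκ : κ.IsEven) :
    (∀ m : ℕ, ∃ c : PadicComplex 7,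
      Tendsto (fun N : ℕ ↦ fredBlock κ.uMatrixU N m) atTop (𝓝 c)) ∧
    newtonPolygon 7 κ.charSeriesU = newtonPolygon 7 (ghostG 7 κ.nu κ.w) := by
  have hc : κ.nu ≤ 2 := by
    have h1 := (Weight.nu_spec κ hκ).1
    omega
  obtain ⟨E, hE⟩ := exists_eisFamP (p := 7) m7_ne_two
  obtain ⟨u, hu⟩ := exists_ord7 (fun y ↦ Mat7_zero_zero y 0) (fun y hy i j h ↦
    norm_Mat7_le k7 (by norm_num) hy h) (Mat7_isPoly 0)
  obtain ⟨D, hD0, hD1, hD2, hD3⟩ := exists_frame7 k7 hc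
  rw [← m7_subst_wc] at hD1
  have hDe : ((Weight.incl 7) ^ (2 * κ.nu) : Weight 7).eis = cpl D := by
    by_cases h0 : κ.nu = 0
    · rw [hD3 h0, h0, mul_zero, pow_zero, Weight.eis_one]
      unfold cpl
      rw [map_one]
    · rw [hD2 (by omega), eis_incl_pow m7_ne_two (even_two_mul _) (by omega)]
  obtain ⟨M0, hM0, hM0d⟩ := m7_exists_M0 hc
  rw [← hD1] at hM0
  have hB : ∀ y : C7, (phiPow7 y * ((wc7 κ.nu)⁻¹).subst (hauptmodul 7 C7)) * cpl D =
      phiPow7 y * dser7 C7 κ.nu := by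
    intro y
    rw [hD1]
    linear_combination (phiPow7 y * dser7 C7 κ.nu) * m7_subst_inv κ.nu
  have h := ghost_of_central (p := 7) m7_ne_two E hE κ.nu D hD0 hDe wx7
    (fun w hw ↦ exists_wx7_eq (by rwa [m7_cast] at hw))
    (fun y ↦ phiPow7 y * ((wc7 κ.nu)⁻¹).subst (hauptmodul 7 C7))
    (fun y _ ↦ by
      have h1 := congrArg PowerSeries.constantCoeff (m7_subst_inv κ.nu)
      have h2 : PowerSeries.constantCoeff ((wc7 κ.nu).subst (hauptmodul 7 C7)) = 1 := by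
        rw [m7_subst_wc]
        split_ifs
        · rw [← PowerSeries.coeff_zero_eq_constantCoeff_apply, fx_coeff_subst]
          simp [wser7]
        · simp
      rw [map_mul, h2, one_mul, map_one] at h1
      rw [map_mul, constantCoeff_phiPow7, h1, one_mul])
    (fun n y ↦ PowerSeries.coeff n ((PowerSeries.mk fun n ↦ u n y) * wc7 κ.nu))
    (13 / 10) (26 / 25) ((7 / 5 : ℝ) ^ 4) (by norm_num) (by norm_num)
    (fun y hy ↦ by
      rw [PowerSeries.coeff_zero_eq_constantCoeff_apply, map_mul, constantCoeff_wc7, mul_one,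
        ← PowerSeries.coeff_zero_eq_constantCoeff_apply, PowerSeries.coeff_mk]
      exact (hu.eqs y hy).1)
    (fun y hy ↦ m7_mul (fun n ↦ by
      rw [PowerSeries.coeff_mk]
      exact m7_mono (by norm_num) (by norm_num) ((hu.eqs y hy).2.1 n))
      (fun n ↦ m7_mono (by norm_num) (by norm_num) (norm_wc7 κ.nu n)))
    (fun y hy ↦ by
      rw [evSp_eisFam7 k7 E hE u hu y hy]
      have h1 : (PowerSeries.mk fun n ↦ PowerSeries.coeff n
          ((PowerSeries.mk fun n ↦ u n y) * wc7 κ.nu)) =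
          (PowerSeries.mk fun n ↦ u n y) * wc7 κ.nu := by
        ext n
        rw [PowerSeries.coeff_mk]
      rw [h1, PowerSeries.subst_mul (fx_hasSubst 7)]
      linear_combination (-(phiPow7 y * (PowerSeries.mk fun n ↦ u n y).subst
        (hauptmodul 7 C7))) * m7_subst_inv κ.nu)
    (fun y ↦ Mat7 κ.nu y)
    (fun y _ ↦ by
      rw [hB y]
      exact m7_isUMat hc y)
    (fun y hy ↦ m7_dec hc hy) M0 hM0 hM0d (fun w hw l ↦
      norm_Phi7_central k7 E hE u hu hw l) (fun w n ↦ ghostG 7 κ.nu (225 ^ κ.nu * (1 + w) - 1) n)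
    (fun n ↦ 2 * n + 3) zero7 (fun n l ↦ multG 7 n (2 * κ.nu + 6 * l)) norm_zero7
    (fun w hw n ↦ norm_ghostG7 hc hw n) (m7_hdeg hc) (fun y hy ↦ hcen κ.nu hc y hy) κ hκ rfl
  refine ⟨h.1, ?_⟩
  rw [h.2]
  congr 1
  funext n
  congr 1
  rw [w_base κ, pow_mul]
  norm_num

/-- **The ghost conjecture for `p = 7`, tame level one**, from the theorem on the central disc. -/
theorem ghost7_of_central (hcen : CentralTheorem7) : GhostConjectureU 7 :=
  fun κ hκ ↦ ghost7_component hcen κ hκ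

theorem decay_seven (κ : Weight 7) (hκ : κ.IsEven) :
    ∃ R : ℝ, 1 < R ∧ ∃ c : ℝ, 0 < c ∧
      (∀ i j : ℕ, 1 ≤ j → j ≤ 7 * i → ‖κ.uMatrixU i j‖ ≤ c * R⁻¹ ^ (7 * i - j)) ∧
      (∀ i j : ℕ, 1 ≤ j → 7 * i < j → κ.uMatrixU i j = 0) := by
  have hc : κ.nu ≤ 2 := by
    have h1 := (Weight.nu_spec κ hκ).1
    omega
  obtain ⟨E, hE⟩ := exists_eisFamP (p := 7) m7_ne_two
  obtain ⟨u, hu⟩ := exists_ord7 (fun y ↦ Mat7_zero_zero y 0) (fun y hy i j h ↦
    norm_Mat7_le k7 (by norm_num) hy h) (Mat7_isPoly 0)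
  obtain ⟨D, hD0, hD1, hD2, hD3⟩ := exists_frame7 k7 hc
  rw [← m7_subst_wc] at hD1
  have hDe : ((Weight.incl 7) ^ (2 * κ.nu) : Weight 7).eis = cpl D := by
    by_cases h0 : κ.nu = 0
    · rw [hD3 h0, h0, mul_zero, pow_zero, Weight.eis_one]
      unfold cpl
      rw [map_one]
    · rw [hD2 (by omega), eis_incl_pow m7_ne_two (even_two_mul _) (by omega)]
  obtain ⟨M0, hM0, hM0d⟩ := m7_exists_M0 hc
  rw [← hD1] at hM0
  exact decay_of_central (p := 7) m7_ne_two E hE κ.nu D hD0 hDe (13 / 10) (26 / 25)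
    ((7 / 5 : ℝ) ^ 4) (by norm_num) (by norm_num) M0 hM0 hM0d (fun w hw l ↦
      norm_Phi7_central k7 E hE u hu hw l) κ hκ rfl

theorem compactU_seven (κ : Weight 7) (hκ : κ.IsEven) :
    ∃ R : ℝ, 1 < R ∧ ∀ r : ℝ, 1 < r → r < R →
    (∀ F : PowerSeries (PadicComplex 7), κ.IsCuspFormU r F → κ.IsCuspFormU (r ^ 7) (U 7 F)) ∧
    (∀ F : PowerSeries (PadicComplex 7), κ.IsCuspFormU r F → ∀ i : ℕ,
      fcoeff 7 (κ.frame⁻¹ * U 7 F) i =
        ∑ j ∈ Finset.range (7 * i + 1), κ.uMatrixU i j * fcoeff 7 (κ.frame⁻¹ * F) j) ∧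
    (∃ ε : ℕ → ℝ, Tendsto ε atTop (𝓝 0) ∧
      ∀ i j : ℕ, 1 ≤ j → ‖κ.uMatrixU i j‖ * r ^ i ≤ ε i * r ^ j) := by
  obtain ⟨R, hR, c, hc, hA, hA0⟩ := decay_seven κ hκ
  exact ⟨R, hR, fun r hr hrR ↦ compactU_of_decay κ hR hc hA hA0 r hr hrR⟩

end D7

end GH
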