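import Pool.Agent.GH.D7.Fix7
import Pool.Agent.GH.UMatB_a

/-! The forms `θf/f` and `φ^{4/3} (1+13f+49f²)^{1/3}` at `q^7`. -/

open PowerSeries Filter Topology

noncomputable section

namespace GH

namespace D7

variable {K : Type*} [Field K] [CharZero K]

/-! ### The derivation `θ` -/

omit [CharZero K] in
theorem d7f_thq_eq (F : PowerSeries K) : thq7 F = X * d⁄dX K F := by
  ext n
  rcases n with _ | n
  · simp [thq7]
  · rw [thq7, coeff_mk, coeff_succ_X_mul, coeff_derivative]
    push_cast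
    ring

omit [CharZero K] in
theorem d7f_thq_mul (F G : PowerSeries K) : thq7 (F * G) = thq7 F * G + F * thq7 G := by
  rw [d7f_thq_eq, d7f_thq_eq, d7f_thq_eq, Derivation.leibniz, smul_eq_mul, smul_eq_mul]
  ring

omit [CharZero K] in
theorem d7f_thq_pow (F : PowerSeries K) (n : ℕ) :
    thq7 (F ^ (n + 1)) = C ((n : K) + 1) * F ^ n * thq7 F := by
  rw [d7f_thq_eq, d7f_thq_eq, Derivation.leibniz_pow, Nat.add_sub_cancel, nsmul_eq_mul,
    smul_eq_mul]
  have e : ((n + 1 : ℕ) : PowerSeries K) = C ((n : K) + 1) := by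
    rw [← map_natCast (C : K →+* PowerSeries K)]
    push_cast
    rfl
  rw [e]
  ring

omit [CharZero K] in
theorem d7f_thq_expand (F : PowerSeries K) :
    thq7 (F.expand 7 seven_ne) = C (7 : K) * (thq7 F).expand 7 seven_ne := by
  ext n
  rw [thq7, coeff_mk, coeff_C_mul]
  by_cases h : 7 ∣ n
  · obtain ⟨m, rfl⟩ := h
    rw [coeff_expand_mul, coeff_expand_mul, thq7, coeff_mk]
    push_cast
    ring
  · rw [coeff_expand_of_not_dvd _ _ _ h, coeff_expand_of_not_dvd _ _ _ h, mul_zero, mul_zero]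

omit [CharZero K] in
theorem d7f_thq_subst (G : PowerSeries K) : thq7 (G.subst (hauptmodul 7 K)) =
    (thq7 G).subst (hauptmodul 7 K) * dlog7 K := by
  have hs : HasSubst (hauptmodul 7 K) := fx_hasSubst 7
  have h := dlog7_mul K
  rw [d7f_thq_eq] at h
  rw [d7f_thq_eq, d7f_thq_eq, PowerSeries.derivative_subst hs, subst_mul hs, subst_X hs]
  linear_combination (-((d⁄dX K G).subst (hauptmodul 7 K))) * h

omit [CharZero K] in
theorem d7f_S_ne : S7 K ≠ 0 := by
  intro h
  have h1 := constantCoeff_S7 K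
  rw [h, map_zero] at h1
  exact zero_ne_one h1

omit [CharZero K] in
theorem d7f_const_g : PowerSeries.constantCoeff (gs7 K) = 0 := by
  unfold gs7
  rw [map_mul, map_pow, PowerSeries.constantCoeff_X, zero_pow seven_ne, zero_mul]

/-- `1 + 245 g + 2401 g²`. -/
def d7f_b (K : Type*) [Field K] : PowerSeries K :=
  1 + C (245 : K) * gs7 K + C (2401 : K) * gs7 K ^ 2

omit [CharZero K] in
theorem d7f_const_b : PowerSeries.constantCoeff (d7f_b K) = 1 := by
  unfold d7f_b
  rw [map_add, map_add, map_mul, map_mul, map_pow, d7f_const_g, map_one]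
  ring

omit [CharZero K] in
theorem d7f_Y_mul : Y7 K * d7f_b K = 1 + C (5 : K) * X + X ^ 2 := by
  have h : d7f_b K * invOfUnit (d7f_b K) 1 = 1 :=
    PowerSeries.mul_invOfUnit _ _ (by rw [d7f_const_b]; rfl)
  have e : Y7 K = (1 + C (5 : K) * X + X ^ 2) * invOfUnit (d7f_b K) 1 := rfl
  rw [e]
  linear_combination (1 + C (5 : K) * X + X ^ 2) * h

omit [CharZero K] in
theorem d7f_b_ne : d7f_b K ≠ 0 := by
  intro h
  have h1 := d7f_const_b (K := K)
  rw [h, map_zero] at h1
  exact zero_ne_one h1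

omit [CharZero K] in
theorem d7f_const_Y : PowerSeries.constantCoeff (Y7 K) = 1 := by
  have h := congrArg (PowerSeries.constantCoeff (R := K)) (d7f_Y_mul (K := K))
  rw [map_mul, d7f_const_b, mul_one] at h
  rw [h]
  simp

omit [CharZero K] in
/-- `X g' S = g (7 S - 2 X S')`. -/
theorem d7f_dg : thq7 (gs7 K) * S7 K = gs7 K * (C (7 : K) * S7 K - C (2 : K) * thq7 (S7 K)) := by
  have h := gs7_mul K
  have h1 := congrArg thq7 h
  rw [d7f_thq_mul] at h1
  have e1 : thq7 (S7 K ^ 2) = C (2 : K) * S7 K * thq7 (S7 K) := by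
    have h2 := d7f_thq_pow (S7 K) 1
    rw [pow_one] at h2
    have e : ((1 : ℕ) : K) + 1 = 2 := by norm_num
    rw [e] at h2
    exact h2
  have e2 : thq7 ((X : PowerSeries K) ^ 7) = C (7 : K) * X ^ 7 := by
    have h2 := d7f_thq_pow (X : PowerSeries K) 6
    have e : ((6 : ℕ) : K) + 1 = 7 := by norm_num
    rw [e, d7f_thq_eq X, PowerSeries.derivative_X] at h2
    have h3 : (C (7 : K) * X ^ 6 * (X * 1) : PowerSeries K) = C (7 : K) * X ^ 7 := by ring
    rw [h3] at h2
    exact h2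
  rw [e1, e2] at h1
  have h4 : S7 K * (thq7 (gs7 K) * S7 K) =
      S7 K * (gs7 K * (C (7 : K) * S7 K - C (2 : K) * thq7 (S7 K))) := by
    linear_combination h1 - C (7 : K) * h
  exact mul_left_cancel₀ d7f_S_ne h4

omit [CharZero K] in
/-- The derivative of a polynomial of degree four in `F`. -/
theorem d7f_thq_poly (F : PowerSeries K) (a b c d : K) :
    thq7 (1 + C a * F + C b * F ^ 2 + C c * F ^ 3 + C d * F ^ 4) =
      (C a + C (2 * b) * F + C (3 * c) * F ^ 2 + C (4 * d) * F ^ 3) * thq7 F := by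
  rw [d7f_thq_eq, d7f_thq_eq]
  simp only [map_add, Derivation.leibniz, Derivation.leibniz_pow, smul_eq_mul,
    Derivation.map_one_eq_zero, PowerSeries.derivative_C, nsmul_eq_mul, map_mul]
  have e2 : (C (2 : K) : PowerSeries K) = 2 := map_ofNat _ 2
  have e3 : (C (3 : K) : PowerSeries K) = 3 := map_ofNat _ 3
  have e4 : (C (4 : K) : PowerSeries K) = 4 := map_ofNat _ 4
  rw [e2, e3, e4]
  push_cast
  ring

omit [CharZero K] in
/-- `7 S - 2 X S' = 7 Y²`. -/
theorem d7f_W (hK : K7) : C (7 : K) * S7 K - C (2 : K) * thq7 (S7 K) = C (7 : K) * Y7 K ^ 2 := by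
  have hg := d7f_dg (K := K)
  have hR := d7e_R hK K
  have hY := d7f_Y_mul (K := K)
  have hR' : S7 K * (1 + C (-490 : K) * gs7 K + C (-21609 : K) * gs7 K ^ 2 +
      C (-235298 : K) * gs7 K ^ 3 + C (-823543 : K) * gs7 K ^ 4) =
      1 + C (14 : K) * X + C (63 : K) * X ^ 2 + C (70 : K) * X ^ 3 + C (-7 : K) * X ^ 4 := by
    rw [map_neg, map_neg, map_neg, map_neg, map_neg]
    linear_combination hR
  have h1 := congrArg thq7 hR'
  rw [d7f_thq_mul, d7f_thq_poly, d7f_thq_poly, d7f_thq_eq X, PowerSeries.derivative_X] at h1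
  set W : PowerSeries K := C (7 : K) * S7 K - C (2 : K) * thq7 (S7 K) with hW
  have hS : C (2 : K) * thq7 (S7 K) = C (7 : K) * S7 K - W := by rw [hW]; ring
  have n1 : ∀ n : ℕ, (C ((n : ℕ) : K) : PowerSeries K) = (n : PowerSeries K) := fun n ↦
    map_natCast _ n
  have c2 : (C (2 : K) : PowerSeries K) = 2 := map_ofNat _ 2
  have c3 : (C (3 : K) : PowerSeries K) = 3 := map_ofNat _ 3
  have c4 : (C (4 : K) : PowerSeries K) = 4 := map_ofNat _ 4
  have c5 : (C (5 : K) : PowerSeries K) = 5 := map_ofNat _ 5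
  have c7 : (C (7 : K) : PowerSeries K) = 7 := map_ofNat _ 7
  have c14 : (C (14 : K) : PowerSeries K) = 14 := map_ofNat _ 14
  have c63 : (C (63 : K) : PowerSeries K) = 63 := map_ofNat _ 63
  have c70 : (C (70 : K) : PowerSeries K) = 70 := map_ofNat _ 70
  have c245 : (C (245 : K) : PowerSeries K) = 245 := map_ofNat _ 245
  have c490 : (C (490 : K) : PowerSeries K) = 490 := map_ofNat _ 490
  have c2401 : (C (2401 : K) : PowerSeries K) = 2401 := map_ofNat _ 2401
  have c21609 : (C (21609 : K) : PowerSeries K) = 21609 := map_ofNat _ 21609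
  have c235298 : (C (235298 : K) : PowerSeries K) = 235298 := map_ofNat _ 235298
  have c823543 : (C (823543 : K) : PowerSeries K) = 823543 := map_ofNat _ 823543
  simp only [map_mul, map_neg, c2, c3, c4, c7, c14, c63, c70, c490, c21609, c235298,
    c823543] at h1 hR' hg hS hR
  have hb : d7f_b K = 1 + 245 * gs7 K + 2401 * gs7 K ^ 2 := by
    unfold d7f_b
    rw [c245, c2401]
  rw [hb, c5] at hY
  have key : (1 + 245 * gs7 K + 2401 * gs7 K ^ 2) ^ 2 * W = 7 * (1 + 5 * X + X ^ 2) ^ 2 := by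
    have hg' : thq7 (gs7 K) * S7 K = gs7 K * W := by
      rw [hg, hW, c7, c2]
    linear_combination (-2) * h1 + (1 - 490 * gs7 K - 21609 * gs7 K ^ 2 -
      235298 * gs7 K ^ 3 - 823543 * gs7 K ^ 4) * hS + 7 * hR +
      (2 * (-490 - 43218 * gs7 K - 705894 * gs7 K ^ 2 - 3294172 * gs7 K ^ 3)) * hg'
  have h5 : d7f_b K ^ 2 * W = d7f_b K ^ 2 * (C (7 : K) * Y7 K ^ 2) := by
    rw [hb, c7, key, ← hY]
    ring
  exact mul_left_cancel₀ (pow_ne_zero 2 d7f_b_ne) h5

/-- `R = 1 - hQ'/(7Q) = Y²/S`: `θ(f(q^7))/f(q^7) = 7 (θf/f) R(f)`. -/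
theorem dlog7_expand (hK : K7) : (dlog7 K).expand 7 seven_ne * (S7 K).subst (hauptmodul 7 K) =
    dlog7 K * (Y7 K ^ 2).subst (hauptmodul 7 K) := by
  have hs : HasSubst (hauptmodul 7 K) := fx_hasSubst 7
  have h0 := hauptmodul7_expand K
  have hd := dlog7_mul K
  have h1 := congrArg thq7 h0
  rw [d7f_thq_mul, d7f_thq_expand, d7f_thq_subst, ← hd, map_mul] at h1
  have e1 : thq7 (S7 K ^ 2) = C (2 : K) * S7 K * thq7 (S7 K) := by
    have h2 := d7f_thq_pow (S7 K) 1
    rw [pow_one] at h2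
    have e : ((1 : ℕ) : K) + 1 = 2 := by norm_num
    rw [e] at h2
    exact h2
  have e2 : thq7 (hauptmodul 7 K ^ 7) = C (7 : K) * hauptmodul 7 K ^ 7 * dlog7 K := by
    have h2 := d7f_thq_pow (hauptmodul 7 K) 6
    have e : ((6 : ℕ) : K) + 1 = 7 := by norm_num
    rw [e, ← hd] at h2
    rw [h2]
    ring
  rw [e1, e2] at h1
  have e3 : (C (2 : K) * S7 K * thq7 (S7 K)).subst (hauptmodul 7 K) =
      (S7 K).subst (hauptmodul 7 K) * (C (2 : K) * thq7 (S7 K)).subst (hauptmodul 7 K) := by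
    rw [← subst_mul hs]
    congr 1
    ring
  have e4 : (S7 K ^ 2).subst (hauptmodul 7 K) = (S7 K).subst (hauptmodul 7 K) ^ 2 :=
    subst_pow hs _ _
  rw [e3] at h1
  rw [← h0, e4] at h1
  have hf : (hauptmodul 7 K).expand 7 seven_ne ≠ 0 := by
    intro h
    rw [h, zero_mul] at h0
    have h7 : hauptmodul 7 K ^ 7 = 0 := h0.symm
    have h8 : hauptmodul 7 K = 0 := pow_eq_zero_iff (by norm_num) |>.mp h7
    have h9 := coeff_one_hauptmodul 7 (R := K)
    rw [h8, map_zero] at h9
    exact zero_ne_one h9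
  have hSf : (S7 K).subst (hauptmodul 7 K) ≠ 0 := by
    intro h
    apply d7f_S_ne (K := K)
    apply d7e_subst_inj
    rw [h]
    exact (by rw [← coe_substAlgHom hs, map_zero] : (0 : PowerSeries K).subst
      (hauptmodul 7 K) = 0).symm
  have h2 : C (7 : K) * ((dlog7 K).expand 7 seven_ne * (S7 K).subst (hauptmodul 7 K)) =
      dlog7 K * (C (7 : K) * S7 K - C (2 : K) * thq7 (S7 K)).subst (hauptmodul 7 K) := by
    rw [subst_sub hs, subst_mul hs (C (7 : K)), d7e_subst_C]
    apply mul_left_cancel₀ (mul_ne_zero hf hSf)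
    linear_combination h1
  rw [d7f_W hK, subst_mul hs, d7e_subst_C] at h2
  have h7 : (C (7 : K) : PowerSeries K) ≠ 0 := by
    intro h
    have h3 := congrArg (PowerSeries.constantCoeff (R := K)) h
    rw [PowerSeries.constantCoeff_C, map_zero] at h3
    exact absurd h3 (by norm_num)
  apply mul_left_cancel₀ h7
  rw [h2]
  ring

/-! ### The form of weight four -/

/-- Cube roots with constant term one are unique. -/
theorem d7f_cube {F G : PowerSeries K} (hF : PowerSeries.constantCoeff F = 1)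
    (hG : PowerSeries.constantCoeff G = 1) (h : F ^ 3 = G ^ 3) : F = G := by
  have h1 : (F - G) * (F ^ 2 + F * G + G ^ 2) = 0 := by linear_combination h
  rcases mul_eq_zero.mp h1 with h2 | h2
  · exact sub_eq_zero.mp h2
  · exfalso
    have h3 := congrArg (PowerSeries.constantCoeff (R := K)) h2
    rw [map_add, map_add, map_mul, map_pow, map_pow, hF, hG, map_zero] at h3
    norm_num at h3

omit [CharZero K] in
/-- `S² (1 + 13 g + 49 g²) = (1 + 13 h + 49 h²) Y³`. -/
theorem d7f_Y_cube (hK : K7) : S7 K ^ 2 * (1 + C (13 : K) * gs7 K + C (49 : K) * gs7 K ^ 2) =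
    (1 + C (13 : K) * X + C (49 : K) * X ^ 2) * Y7 K ^ 3 := by
  have hR := d7e_R hK K
  have hY := d7f_Y_mul (K := K)
  have hg := gs7_mul K
  have c5 : (C (5 : K) : PowerSeries K) = 5 := map_ofNat _ 5
  have c7 : (C (7 : K) : PowerSeries K) = 7 := map_ofNat _ 7
  have c13 : (C (13 : K) : PowerSeries K) = 13 := map_ofNat _ 13
  have c14 : (C (14 : K) : PowerSeries K) = 14 := map_ofNat _ 14
  have c49 : (C (49 : K) : PowerSeries K) = 49 := map_ofNat _ 49
  have c63 : (C (63 : K) : PowerSeries K) = 63 := map_ofNat _ 63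
  have c70 : (C (70 : K) : PowerSeries K) = 70 := map_ofNat _ 70
  have c245 : (C (245 : K) : PowerSeries K) = 245 := map_ofNat _ 245
  have c490 : (C (490 : K) : PowerSeries K) = 490 := map_ofNat _ 490
  have c2401 : (C (2401 : K) : PowerSeries K) = 2401 := map_ofNat _ 2401
  have c21609 : (C (21609 : K) : PowerSeries K) = 21609 := map_ofNat _ 21609
  have c235298 : (C (235298 : K) : PowerSeries K) = 235298 := map_ofNat _ 235298
  have c823543 : (C (823543 : K) : PowerSeries K) = 823543 := map_ofNat _ 823543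
  rw [c7, c14, c63, c70, c490, c21609, c235298, c823543] at hR
  have hb : d7f_b K = 1 + 245 * gs7 K + 2401 * gs7 K ^ 2 := by
    unfold d7f_b
    rw [c245, c2401]
  rw [c13, c49]
  apply mul_left_cancel₀ (pow_ne_zero 3 (d7f_b_ne (K := K)))
  have h1 : d7f_b K ^ 3 * ((1 + 13 * X + 49 * X ^ 2) * Y7 K ^ 3) =
      (1 + 13 * X + 49 * X ^ 2) * (1 + 5 * X + X ^ 2) ^ 3 := by
    rw [← c5, ← hY]
    ring
  rw [h1, hb]
  linear_combination (S7 K * (1 - 490 * gs7 K - 21609 * gs7 K ^ 2 - 235298 * gs7 K ^ 3 -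
    823543 * gs7 K ^ 4) + (1 + 14 * X + 63 * X ^ 2 + 70 * X ^ 3 - 7 * X ^ 4)) * hR + 1728 * hg

theorem d7f_ppow_cube {u : PowerSeries K} (hu : PowerSeries.constantCoeff u = 1) (s : K) :
    ppow u s ^ 3 = ppow u (3 * s) := by
  have e : 3 * s = s + s + s := by ring
  rw [e, ub_ppow_add hu, ub_ppow_add hu]
  ring

omit [CharZero K] in
theorem d7f_const_q : PowerSeries.constantCoeff
    (1 + C (13 : K) * X + C (49 : K) * X ^ 2 : PowerSeries K) = 1 := by
  simp

theorem d7f_const_nser : PowerSeries.constantCoeff (nser7 K) = 1 := by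
  unfold nser7
  rw [map_mul, ub_const_ppow (constantCoeff_phi7 K)]
  have hf : PowerSeries.constantCoeff (hauptmodul 7 K) = 0 := by
    rw [← PowerSeries.coeff_zero_eq_constantCoeff_apply]
    exact coeff_zero_hauptmodul 7
  have h := ub_const_subst hf (ppow (1 + C (13 : K) * X + C (49 : K) * X ^ 2) (1 / 3))
  rw [ub_const_ppow d7f_const_q] at h
  rw [one_mul]
  exact h

theorem d7f_nser_cube : nser7 K ^ 3 =
    phi7 K ^ 4 * (1 + C (13 : K) * X + C (49 : K) * X ^ 2).subst (hauptmodul 7 K) := by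
  have hs : HasSubst (hauptmodul 7 K) := fx_hasSubst 7
  unfold nser7
  have e1 : ppow (phi7 K) (4 / 3) ^ 3 = phi7 K ^ 4 := by
    rw [d7f_ppow_cube (constantCoeff_phi7 K)]
    have e : (3 : K) * (4 / 3) = ((4 : ℕ) : K) := by norm_num
    rw [e, ub_ppow_nat (constantCoeff_phi7 K)]
  have e2 : ppow (1 + C (13 : K) * X + C (49 : K) * X ^ 2) (1 / 3) ^ 3 =
      (1 + C (13 : K) * X + C (49 : K) * X ^ 2 : PowerSeries K) := by
    rw [d7f_ppow_cube d7f_const_q]
    have e : (3 : K) * (1 / 3) = 1 := by norm_num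
    rw [e, ub_ppow_one d7f_const_q]
  rw [mul_pow, e1, ← subst_pow hs, e2]

/-- `φ(q^7)^{4/3} (1+13g+49g²)^{1/3} = φ^{4/3} (1+13h+49h²)^{1/3} Y`. -/
theorem nser7_expand (hK : K7) : (nser7 K).expand 7 seven_ne =
    nser7 K * (Y7 K).subst (hauptmodul 7 K) := by
  have hs : HasSubst (hauptmodul 7 K) := fx_hasSubst 7
  have hf : PowerSeries.constantCoeff (hauptmodul 7 K) = 0 := by
    rw [← PowerSeries.coeff_zero_eq_constantCoeff_apply]
    exact coeff_zero_hauptmodul 7
  have hYf : PowerSeries.constantCoeff ((Y7 K).subst (hauptmodul 7 K) : PowerSeries K) = 1 :=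
    (ub_const_subst hf (Y7 K)).trans d7f_const_Y
  have hE : PowerSeries.constantCoeff ((nser7 K).expand 7 seven_ne) = 1 := by
    rw [← PowerSeries.coeff_zero_eq_constantCoeff_apply]
    have h := coeff_expand_mul 7 seven_ne (nser7 K) 0
    rw [mul_zero] at h
    rw [h, PowerSeries.coeff_zero_eq_constantCoeff_apply, d7f_const_nser]
  apply d7f_cube hE
  · rw [map_mul, d7f_const_nser, hYf, one_mul]
  · have h1 := d7f_nser_cube (K := K)
    have h2 := congrArg (PowerSeries.expand 7 seven_ne) h1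
    rw [map_pow, map_mul] at h2
    have h3 : PowerSeries.expand 7 seven_ne ((1 + C (13 : K) * X + C (49 : K) * X ^ 2).subst
        (hauptmodul 7 K)) = (1 + C (13 : K) * gs7 K + C (49 : K) * gs7 K ^ 2).subst
        (hauptmodul 7 K) := by
      rw [subst_add hs, subst_add hs, subst_mul hs, subst_mul hs, subst_pow hs, subst_X hs,
        d7e_subst_C, d7e_subst_C, d7e_subst_one, subst_add hs, subst_add hs, subst_mul hs,
        subst_mul hs, subst_pow hs, d7e_subst_C, d7e_subst_C, d7e_subst_one, gs7_subst]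
      simp only [map_mul, map_add, map_one, map_pow, PowerSeries.expand_C]
    have h4 : (phi7 K ^ 4).expand 7 seven_ne = phi7 K ^ 4 *
        (S7 K ^ 2).subst (hauptmodul 7 K) := by
      have h5 := S7_subst K
      rw [subst_pow hs]
      have e : phi7 K ^ 4 = (phi7 K ^ 2) ^ 2 := by ring
      rw [e, map_pow, ← h5]
      ring
    rw [h2, h3, h4, mul_pow, h1, mul_assoc, ← subst_mul hs, d7f_Y_cube hK, subst_mul hs,
      subst_pow hs (Y7 K) 3, mul_assoc]

end D7

end GH
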