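import Pool.Agent.GH.D7.Base7
import Pool.Agent.GH.FExp

/-! The series `S`, `g`, `Y` and their relations. -/

open PowerSeries Filter Topology

noncomputable section

namespace GH

namespace D7

/-! ### Products and expansion -/

lemma d7d_stab (K : Type*) [CommRing K] (k n N : ℕ) (h : n < k * (N + 1)) :
    ∀ M, N ≤ M → PowerSeries.coeff n (∏ m ∈ Finset.range M,
      (1 - (X : PowerSeries K) ^ (k * (m + 1)))) =
      PowerSeries.coeff n (∏ m ∈ Finset.range N, (1 - (X : PowerSeries K) ^ (k * (m + 1)))) := by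
  intro M hM
  induction M, hM using Nat.le_induction with
  | base => rfl
  | succ M hM ih =>
    rw [Finset.prod_range_succ, mul_sub, mul_one, map_sub, ih, PowerSeries.coeff_mul_X_pow',
      if_neg, sub_zero]
    have h1 : k * (N + 1) ≤ k * (M + 1) := Nat.mul_le_mul_left _ (by omega)
    omega

lemma d7d_ceu (K : Type*) [CommRing K] (k n M : ℕ) (hk : 1 ≤ k) (hM : n ≤ M) :
    PowerSeries.coeff n (euler K k) =
      PowerSeries.coeff n (∏ m ∈ Finset.range M, (1 - (X : PowerSeries K) ^ (k * (m + 1)))) := by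
  unfold euler
  rw [PowerSeries.coeff_mk]
  refine (d7d_stab K k n n ?_ M hM).symm
  nlinarith

lemma d7d_xprod (K : Type*) [CommRing K] (k N : ℕ) : (∏ m ∈ Finset.range N,
      (1 - (X : PowerSeries K) ^ (k * (m + 1)))).expand 7 seven_ne =
      ∏ m ∈ Finset.range N, (1 - (X : PowerSeries K) ^ (7 * k * (m + 1))) := by
  rw [map_prod]
  refine Finset.prod_congr rfl fun m _ => ?_
  rw [map_sub, map_one, map_pow, PowerSeries.expand_X, ← pow_mul, mul_assoc]

lemma d7d_xeuler (K : Type*) [CommRing K] (k : ℕ) (hk : 1 ≤ k) :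
    (euler K k).expand 7 seven_ne = euler K (7 * k) := by
  ext n
  rw [PowerSeries.coeff_expand]
  split_ifs with h
  · obtain ⟨l, rfl⟩ := h
    rw [Nat.mul_div_cancel_left l (by norm_num), d7d_ceu K k l l hk le_rfl,
      d7d_ceu K (7 * k) (7 * l) (7 * l) (by omega) le_rfl,
      ← PowerSeries.coeff_expand_mul 7 seven_ne, d7d_xprod]
    refine (d7d_stab K (7 * k) (7 * l) l ?_ (7 * l) (by omega)).symm
    nlinarith
  · unfold euler
    rw [PowerSeries.coeff_mk, ← d7d_xprod, PowerSeries.coeff_expand_of_not_dvd 7 seven_ne _ h]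

section

variable (R : Type*) [CommRing R]

lemma d7d_mul_inv (k : ℕ) : euler R k * invOfUnit (euler R k) 1 = 1 :=
  PowerSeries.mul_invOfUnit _ _ (by rw [fx_constantCoeff_euler]; rfl)

lemma d7d_isUnit (k : ℕ) : IsUnit (euler R k) := by
  rw [PowerSeries.isUnit_iff_constantCoeff, fx_constantCoeff_euler]
  exact isUnit_one

lemma d7d_phi_mul : phi7 R * euler R 7 = euler R 1 ^ 7 := by
  unfold phi7
  calc euler R 1 ^ 7 * invOfUnit (euler R 7) 1 * euler R 7
      = euler R 1 ^ 7 * (euler R 7 * invOfUnit (euler R 7) 1) := by ring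
    _ = euler R 1 ^ 7 := by rw [d7d_mul_inv, mul_one]

theorem constantCoeff_phi7 : PowerSeries.constantCoeff (phi7 R) = 1 := by
  unfold phi7
  rw [map_mul, map_pow, fx_constantCoeff_euler, PowerSeries.constantCoeff_invOfUnit]
  simp

lemma d7d_phi_isUnit : IsUnit (phi7 R) := by
  rw [PowerSeries.isUnit_iff_constantCoeff, constantCoeff_phi7]
  exact isUnit_one

lemma d7d_cc_thq (F : PowerSeries R) : PowerSeries.constantCoeff (thq7 F) = 0 := by
  rw [← PowerSeries.coeff_zero_eq_constantCoeff_apply]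
  unfold thq7
  rw [PowerSeries.coeff_mk]
  simp

theorem constantCoeff_dlog7 : PowerSeries.constantCoeff (dlog7 R) = 1 := by
  unfold dlog7
  rw [map_add, map_mul, d7d_cc_thq, zero_mul, add_zero, map_one]

/-- The quotient `φ(q^7)²/φ(q)²`. -/
def d7d_Q : PowerSeries R :=
  (phi7 R ^ 2).expand 7 seven_ne * invOfUnit (phi7 R ^ 2) 1

lemma d7d_S7 : S7 R = PowerSeries.mk (fcoeff 7 (d7d_Q R)) := rfl

lemma d7d_cc_phi_sq : PowerSeries.constantCoeff (phi7 R ^ 2) = 1 := by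
  rw [map_pow, constantCoeff_phi7, one_pow]

lemma d7d_Q_mul : d7d_Q R * phi7 R ^ 2 = (phi7 R ^ 2).expand 7 seven_ne := by
  have h : phi7 R ^ 2 * invOfUnit (phi7 R ^ 2) 1 = 1 :=
    PowerSeries.mul_invOfUnit _ _ (by rw [d7d_cc_phi_sq]; rfl)
  unfold d7d_Q
  calc (phi7 R ^ 2).expand 7 seven_ne * invOfUnit (phi7 R ^ 2) 1 * phi7 R ^ 2
      = (phi7 R ^ 2).expand 7 seven_ne * (phi7 R ^ 2 * invOfUnit (phi7 R ^ 2) 1) := by ring
    _ = (phi7 R ^ 2).expand 7 seven_ne := by rw [h, mul_one]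

lemma d7d_Q_cc : PowerSeries.constantCoeff (d7d_Q R) = 1 := by
  have h := congrArg PowerSeries.constantCoeff (d7d_Q_mul R)
  rw [map_mul, PowerSeries.constantCoeff_expand, d7d_cc_phi_sq, mul_one] at h
  exact h

theorem constantCoeff_S7 : PowerSeries.constantCoeff (S7 R) = 1 := by
  rw [d7d_S7, ← PowerSeries.coeff_zero_eq_constantCoeff_apply, PowerSeries.coeff_mk, fcoeff_zero,
    PowerSeries.coeff_zero_eq_constantCoeff_apply, d7d_Q_cc]

theorem map_phi7 {S : Type*} [CommRing S] (φ : R →+* S) :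
    PowerSeries.map φ (phi7 R) = phi7 S := by
  have h1 := congrArg (PowerSeries.map φ) (d7d_phi_mul R)
  rw [map_mul, map_pow, fx_map_euler, fx_map_euler, ← d7d_phi_mul S] at h1
  exact (d7d_isUnit S 7).mul_right_cancel h1

/-- The series `u = (E(q^7)/E(q))^4`. -/
def d7d_u : PowerSeries R := (euler R 7 * invOfUnit (euler R 1) 1) ^ 4

lemma d7d_u_mul : d7d_u R * euler R 1 ^ 4 = euler R 7 ^ 4 := by
  unfold d7d_u
  rw [← mul_pow]
  have h : euler R 7 * invOfUnit (euler R 1) 1 * euler R 1 = euler R 7 := by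
    calc euler R 7 * invOfUnit (euler R 1) 1 * euler R 1
        = euler R 7 * (euler R 1 * invOfUnit (euler R 1) 1) := by ring
      _ = euler R 7 := by rw [d7d_mul_inv, mul_one]
  rw [h]

lemma d7d_u_cc : PowerSeries.constantCoeff (d7d_u R) = 1 := by
  have h := congrArg PowerSeries.constantCoeff (d7d_u_mul R)
  rw [map_mul, map_pow, map_pow, fx_constantCoeff_euler, fx_constantCoeff_euler, one_pow,
    mul_one] at h
  exact h

lemma d7d_u_inv : d7d_u R * invOfUnit (d7d_u R) 1 = 1 :=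
  PowerSeries.mul_invOfUnit _ _ (by rw [d7d_u_cc]; rfl)

lemma d7d_u_isUnit : IsUnit (d7d_u R) := by
  rw [PowerSeries.isUnit_iff_constantCoeff, d7d_u_cc]
  exact isUnit_one

lemma d7d_u_map {S : Type*} [CommRing S] (φ : R →+* S) :
    PowerSeries.map φ (d7d_u R) = d7d_u S := by
  have h1 := congrArg (PowerSeries.map φ) (d7d_u_mul R)
  rw [map_mul, map_pow, map_pow, fx_map_euler, fx_map_euler, ← d7d_u_mul S] at h1
  exact ((d7d_isUnit S 1).pow 4).mul_right_cancel h1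

lemma d7d_thq_map {S : Type*} [CommRing S] (φ : R →+* S) (F : PowerSeries R) :
    PowerSeries.map φ (thq7 F) = thq7 (PowerSeries.map φ F) := by
  ext n
  unfold thq7
  rw [PowerSeries.coeff_map, PowerSeries.coeff_mk, PowerSeries.coeff_mk, PowerSeries.coeff_map,
    map_mul, map_natCast]

lemma d7d_dlog_mul : (dlog7 R - 1) * d7d_u R = thq7 (d7d_u R) := by
  have h : dlog7 R = 1 + thq7 (d7d_u R) * invOfUnit (d7d_u R) 1 := rfl
  rw [h]
  calc (1 + thq7 (d7d_u R) * invOfUnit (d7d_u R) 1 - 1) * d7d_u R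
      = thq7 (d7d_u R) * (d7d_u R * invOfUnit (d7d_u R) 1) := by ring
    _ = thq7 (d7d_u R) := by rw [d7d_u_inv, mul_one]

theorem map_dlog7 {S : Type*} [CommRing S] (φ : R →+* S) :
    PowerSeries.map φ (dlog7 R) = dlog7 S := by
  have h1 := congrArg (PowerSeries.map φ) (d7d_dlog_mul R)
  rw [map_mul, map_sub, map_one, d7d_thq_map, d7d_u_map, ← d7d_dlog_mul S] at h1
  have h2 := (d7d_u_isUnit S).mul_right_cancel h1
  exact sub_left_inj.1 h2

lemma d7d_Q_map {S : Type*} [CommRing S] (φ : R →+* S) :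
    PowerSeries.map φ (d7d_Q R) = d7d_Q S := by
  have h1 := congrArg (PowerSeries.map φ) (d7d_Q_mul R)
  rw [map_mul, PowerSeries.map_expand, map_pow, map_phi7, ← d7d_Q_mul S] at h1
  exact ((d7d_phi_isUnit S).pow 2).mul_right_cancel h1

theorem map_S7 {S : Type*} [CommRing S] (φ : R →+* S) :
    PowerSeries.map φ (S7 R) = S7 S := by
  ext n
  rw [d7d_S7, d7d_S7, PowerSeries.coeff_map, PowerSeries.coeff_mk, PowerSeries.coeff_mk,
    ← fcoeff_map, d7d_Q_map]

lemma d7d_cc_S_sq : PowerSeries.constantCoeff (S7 R ^ 2) = 1 := by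
  rw [map_pow, constantCoeff_S7, one_pow]

lemma d7d_S_isUnit : IsUnit (S7 R ^ 2) := by
  rw [PowerSeries.isUnit_iff_constantCoeff, d7d_cc_S_sq]
  exact isUnit_one

lemma d7d_gs_mul : gs7 R * S7 R ^ 2 = X ^ 7 := by
  have h : S7 R ^ 2 * invOfUnit (S7 R ^ 2) 1 = 1 :=
    PowerSeries.mul_invOfUnit _ _ (by rw [d7d_cc_S_sq]; rfl)
  unfold gs7
  calc X ^ 7 * invOfUnit (S7 R ^ 2) 1 * S7 R ^ 2
      = X ^ 7 * (S7 R ^ 2 * invOfUnit (S7 R ^ 2) 1) := by ring
    _ = X ^ 7 := by rw [h, mul_one]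

theorem map_gs7 {S : Type*} [CommRing S] (φ : R →+* S) :
    PowerSeries.map φ (gs7 R) = gs7 S := by
  have h1 := congrArg (PowerSeries.map φ) (d7d_gs_mul R)
  rw [map_mul, map_pow, map_S7, map_pow, PowerSeries.map_X, ← d7d_gs_mul S] at h1
  exact (d7d_S_isUnit S).mul_right_cancel h1

/-- The denominator of `Y`. -/
def d7d_den : PowerSeries R := 1 + C (245 : R) * gs7 R + C (2401 : R) * gs7 R ^ 2

lemma d7d_cc_gs : PowerSeries.constantCoeff (gs7 R) = 0 := by
  unfold gs7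
  simp

lemma d7d_cc_den : PowerSeries.constantCoeff (d7d_den R) = 1 := by
  unfold d7d_den
  simp [d7d_cc_gs]

lemma d7d_den_isUnit : IsUnit (d7d_den R) := by
  rw [PowerSeries.isUnit_iff_constantCoeff, d7d_cc_den]
  exact isUnit_one

lemma d7d_Y_mul : Y7 R * d7d_den R = 1 + C (5 : R) * X + X ^ 2 := by
  have h : d7d_den R * invOfUnit (d7d_den R) 1 = 1 :=
    PowerSeries.mul_invOfUnit _ _ (by rw [d7d_cc_den]; rfl)
  have e : Y7 R = (1 + C (5 : R) * X + X ^ 2) * invOfUnit (d7d_den R) 1 := rfl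
  rw [e]
  calc (1 + C (5 : R) * X + X ^ 2) * invOfUnit (d7d_den R) 1 * d7d_den R
      = (1 + C (5 : R) * X + X ^ 2) * (d7d_den R * invOfUnit (d7d_den R) 1) := by ring
    _ = 1 + C (5 : R) * X + X ^ 2 := by rw [h, mul_one]

lemma d7d_den_map {S : Type*} [CommRing S] (φ : R →+* S) :
    PowerSeries.map φ (d7d_den R) = d7d_den S := by
  unfold d7d_den
  rw [map_add, map_add, map_one, map_mul, map_mul, map_pow, map_gs7, PowerSeries.map_C,
    PowerSeries.map_C, map_ofNat φ 245, map_ofNat φ 2401]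

theorem map_Y7 {S : Type*} [CommRing S] (φ : R →+* S) :
    PowerSeries.map φ (Y7 R) = Y7 S := by
  have h1 := congrArg (PowerSeries.map φ) (d7d_Y_mul R)
  have h2 : PowerSeries.map φ (1 + C (5 : R) * X + X ^ 2) = 1 + C (5 : S) * X + X ^ 2 := by
    rw [map_add, map_add, map_one, map_mul, map_pow, PowerSeries.map_C, PowerSeries.map_X,
      map_ofNat φ 5]
  rw [map_mul, d7d_den_map, h2, ← d7d_Y_mul S] at h1
  exact (d7d_den_isUnit S).mul_right_cancel h1

lemma d7d_haupt_u : hauptmodul 7 R = X * d7d_u R := rfl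

lemma d7d_thq_X (F : PowerSeries R) : thq7 (X * F) = X * F + X * thq7 F := by
  ext n
  rw [map_add]
  unfold thq7
  rw [PowerSeries.coeff_mk]
  cases n with
  | zero => simp
  | succ n =>
    rw [PowerSeries.coeff_succ_X_mul, PowerSeries.coeff_succ_X_mul, PowerSeries.coeff_mk]
    push_cast
    ring

/-- `(θf/f) f = θf`. -/
theorem dlog7_mul : dlog7 R * hauptmodul 7 R = thq7 (hauptmodul 7 R) := by
  rw [d7d_haupt_u, d7d_thq_X, ← d7d_dlog_mul]
  ring

lemma d7d_haupt : hauptmodul 7 R * euler R 1 ^ 4 = X * euler R 7 ^ 4 := by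
  rw [d7d_haupt_u, mul_assoc, d7d_u_mul]

lemma d7d_subst_S : (S7 R).subst (hauptmodul 7 R) = d7d_Q R := by
  rw [d7d_S7, subst_fcoeff]

/-- `φ² S(f) = φ(q^7)²`. -/
theorem S7_subst : phi7 R ^ 2 * (S7 R).subst (hauptmodul 7 R) =
    (phi7 R ^ 2).expand 7 seven_ne := by
  rw [d7d_subst_S, mul_comm, d7d_Q_mul]

/-- `f φ^4 = Δ = q ∏ (1-q^n)^24`. -/
theorem hauptmodul7_mul_phi : hauptmodul 7 R * phi7 R ^ 4 = X * euler R 1 ^ 24 := by
  have hb : IsUnit (euler R 7 ^ 4) := (d7d_isUnit R 7).pow 4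
  apply hb.mul_right_cancel
  calc hauptmodul 7 R * phi7 R ^ 4 * euler R 7 ^ 4
      = hauptmodul 7 R * (phi7 R * euler R 7) ^ 4 := by ring
    _ = hauptmodul 7 R * euler R 1 ^ 4 * euler R 1 ^ 24 := by
        rw [d7d_phi_mul]
        ring
    _ = X * euler R 1 ^ 24 * euler R 7 ^ 4 := by
        rw [d7d_haupt]
        ring

lemma d7d_subst_sq : (S7 R ^ 2).subst (hauptmodul 7 R) = d7d_Q R ^ 2 := by
  rw [pow_two, PowerSeries.subst_mul (fx_hasSubst 7), d7d_subst_S, pow_two]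

/-- `f(q^7) S(f)² = f^7`. -/
theorem hauptmodul7_expand : (hauptmodul 7 R).expand 7 seven_ne *
    (S7 R ^ 2).subst (hauptmodul 7 R) = hauptmodul 7 R ^ 7 := by
  have hb : IsUnit (phi7 R ^ 4) := (d7d_phi_isUnit R).pow 4
  apply hb.mul_right_cancel
  have h1 := congrArg (PowerSeries.expand 7 seven_ne) (hauptmodul7_mul_phi R)
  rw [map_mul, map_mul, map_pow, map_pow, d7d_xeuler R 1 le_rfl, PowerSeries.expand_X] at h1
  have h2 := d7d_Q_mul R
  rw [map_pow] at h2
  rw [d7d_subst_sq]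
  calc (hauptmodul 7 R).expand 7 seven_ne * d7d_Q R ^ 2 * phi7 R ^ 4
      = (hauptmodul 7 R).expand 7 seven_ne * (d7d_Q R * phi7 R ^ 2) ^ 2 := by ring
    _ = (hauptmodul 7 R).expand 7 seven_ne * (phi7 R).expand 7 seven_ne ^ 4 := by
        rw [h2]
        ring
    _ = X ^ 7 * euler R 7 ^ 24 := h1
    _ = (X * euler R 7 ^ 4) ^ 6 * X := by ring
    _ = hauptmodul 7 R ^ 6 * (X * euler R 1 ^ 24) := by
        rw [← d7d_haupt]
        ring
    _ = hauptmodul 7 R ^ 7 * phi7 R ^ 4 := by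
        rw [← hauptmodul7_mul_phi]
        ring

lemma d7d_Q_isUnit : IsUnit (d7d_Q R) := by
  rw [PowerSeries.isUnit_iff_constantCoeff, d7d_Q_cc]
  exact isUnit_one

/-- `g(f) = f(q^7)`. -/
theorem gs7_subst : (gs7 R).subst (hauptmodul 7 R) = (hauptmodul 7 R).expand 7 seven_ne := by
  have hb : IsUnit (d7d_Q R ^ 2) := (d7d_Q_isUnit R).pow 2
  apply hb.mul_right_cancel
  have h1 := hauptmodul7_expand R
  rw [d7d_subst_sq] at h1
  rw [h1, ← d7d_subst_sq, ← PowerSeries.subst_mul (fx_hasSubst 7), d7d_gs_mul]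
  have h2 := map_pow (substAlgHom (R := R) (fx_hasSubst (R := R) 7)) X 7
  rw [substAlgHom_X, coe_substAlgHom] at h2
  exact h2

/-- `g S² = h^7`. -/
theorem gs7_mul : gs7 R * S7 R ^ 2 = X ^ 7 := d7d_gs_mul R

end

/-- The conclusions of `K7`. -/
structure K7 : Prop where
  k1 : eisQ 6 = phi7 ℚ ^ 2 *
    (1 - C (490 : ℚ) * hauptmodul 7 ℚ - C (21609 : ℚ) * hauptmodul 7 ℚ ^ 2 -
      C (235298 : ℚ) * hauptmodul 7 ℚ ^ 3 - C (823543 : ℚ) * hauptmodul 7 ℚ ^ 4)
  k2 : (eisQ 6).expand 7 seven_ne = phi7 ℚ ^ 2 *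
    (1 + C (14 : ℚ) * hauptmodul 7 ℚ + C (63 : ℚ) * hauptmodul 7 ℚ ^ 2 +
      C (70 : ℚ) * hauptmodul 7 ℚ ^ 3 - C (7 : ℚ) * hauptmodul 7 ℚ ^ 4)

end D7

end GH
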