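import Pool.Agent.GH.D7.Eta7

/-! A form of weight `k` for `Γ_0(7)` with a zero of order `m > 8k/12` at infinity is zero:
the product `N(z) = F(z) ∏_{b < 7} (F|S)(z + b)` is a form of weight `8k` of level one. -/

open Filter Topology

noncomputable section

namespace GH

namespace D7

open scoped MatrixGroups Manifold
open ModularForm UpperHalfPlane CongruenceSubgroup SlashInvariantForm

/-- `F|S`. -/
def d7b_G (k : ℕ) (F : ℂ → ℂ) (z : ℂ) : ℂ := F (-1 / z) / z ^ k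

/-- The eight factors of the norm. -/
def d7b_fam (k : ℕ) (F : ℂ → ℂ) (i : ℕ) (z : ℂ) : ℂ :=
  if i = 7 then F z else d7b_G k F (z + i)

/-- The norm. -/
def d7b_N (k : ℕ) (F : ℂ → ℂ) (z : ℂ) : ℂ := ∏ i ∈ Finset.range 8, d7b_fam k F i z

theorem d7b_N_eq (k : ℕ) (F : ℂ → ℂ) (z : ℂ) : d7b_N k F z =
    d7b_G k F z * d7b_G k F (z + 1) * d7b_G k F (z + 2) * d7b_G k F (z + 3) *
      d7b_G k F (z + 4) * d7b_G k F (z + 5) * d7b_G k F (z + 6) * F z := by
  simp [d7b_N, d7b_fam, Finset.prod_range_succ]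

theorem d7b_im_inv {z : ℂ} (hz : 0 < z.im) : 0 < (-1 / z).im := by
  have h0 : z ≠ 0 := fun h ↦ by simp [h] at hz
  have h1 : (-1 / z).im = z.im / Complex.normSq z := by
    rw [neg_div, one_div, Complex.neg_im, Complex.inv_im]
    ring
  rw [h1]
  exact div_pos hz (Complex.normSq_pos.mpr h0)

theorem d7b_ne {z : ℂ} (hz : 0 < z.im) : z ≠ 0 := fun h ↦ by simp [h] at hz

theorem d7b_pair {k : ℕ} (hk : Even k) {F : ℂ → ℂ} {z b b' u w e : ℂ} (hz : z ≠ 0)
    (hzb : z + b' ≠ 0) (hb : b * z - 1 ≠ 0) (hF : F u = e ^ k * F w) (hu : u = -1 / (-1 / z + b))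
    (hw : w = -1 / (z + b')) (he : e ^ 2 * (z + b') ^ 2 = (b * z - 1) ^ 2) :
    d7b_G k F (-1 / z + b) = z ^ k * d7b_G k F (z + b') := by
  obtain ⟨j, rfl⟩ := hk
  have h1 : -1 / z + b = (b * z - 1) / z := by
    field_simp
    ring
  have h2 : e ^ (j + j) * (z + b') ^ (j + j) = (b * z - 1) ^ (j + j) := by
    rw [← two_mul, pow_mul, pow_mul, pow_mul, ← mul_pow, he]
  have h3 : (b * z - 1) ^ (j + j) ≠ 0 := pow_ne_zero _ hb
  have h4 : (z + b') ^ (j + j) ≠ 0 := pow_ne_zero _ hzb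
  have h5 : z ^ (j + j) ≠ 0 := pow_ne_zero _ hz
  have h6 : d7b_G (j + j) F (-1 / z + b) = F u / (-1 / z + b) ^ (j + j) := by
    rw [d7b_G, ← hu]
  have h7 : d7b_G (j + j) F (z + b') = F w / (z + b') ^ (j + j) := by
    rw [d7b_G, ← hw]
  rw [h6, h7, hF, h1, div_pow, div_div_eq_mul_div, mul_div_assoc', div_eq_div_iff h3 h4, ← h2]
  ring

section

variable {k : ℕ} {F : ℂ → ℂ}

theorem d7b_per (hI : Inv7 k F) {z : ℂ} (hz : 0 < z.im) :
    d7b_G k F (z + 7) = d7b_G k F z := by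
  have h7 : 0 < (z + 7).im := by simpa using hz
  have hz0 := d7b_ne hz
  have h70 := d7b_ne h7
  have h1 := hI.V (-1 / (z + 7)) (d7b_im_inv h7)
  have h2 : 7 * (-1 / (z + 7)) + 1 = z / (z + 7) := by
    field_simp
    ring
  have h3 : -1 / (z + 7) / (z / (z + 7)) = -1 / z := by
    field_simp
  rw [h2, h3] at h1
  rw [d7b_G, d7b_G, h1, div_pow]
  have h4 : z ^ k ≠ 0 := pow_ne_zero _ hz0
  have h5 : (z + 7) ^ k ≠ 0 := pow_ne_zero _ h70
  field_simp

theorem d7b_per' (hI : Inv7 k F) {z w : ℂ} (hz : 0 < z.im) (h : w = z + 7) :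
    d7b_G k F w = d7b_G k F z := by
  rw [h, d7b_per hI hz]

theorem d7b_lin_ne {z : ℂ} (hz : 0 < z.im) {b : ℝ} (hb : b ≠ 0) (c : ℝ) :
    (b : ℂ) * z + c ≠ 0 := by
  intro h
  have h1 := congrArg Complex.im h
  simp at h1
  rcases h1 with h1 | h1
  · exact hb h1
  · exact hz.ne' h1

theorem d7b_S0 (hk : Even k) {z : ℂ} (hz : 0 < z.im) :
    d7b_G k F (-1 / z) = z ^ k * F z := by
  have hz0 := d7b_ne hz
  have h1 : -1 / (-1 / z) = z := by field_simp
  rw [d7b_G, h1, div_pow, hk.neg_one_pow]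
  have h4 : z ^ k ≠ 0 := pow_ne_zero _ hz0
  field_simp

theorem d7b_S1 (hk : Even k) (hI : Inv7 k F) {z : ℂ} (hz : 0 < z.im) :
    d7b_G k F (-1 / z + 1) = z ^ k * d7b_G k F (z + 6) := by
  have hz0 := d7b_ne hz
  have hw : 0 < (z + -1).im := by simpa using hz
  have hw0 := d7b_ne hw
  have hb : (1 : ℂ) * z - 1 ≠ 0 := by
    have := d7b_lin_ne hz one_ne_zero (-1)
    push_cast at this
    rwa [← sub_eq_add_neg] at this
  rw [d7b_per' hI hw (by ring : z + 6 = z + -1 + 7)]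
  refine d7b_pair hk hz0 hw0 hb (u := -1 / (-1 / z + 1)) (w := -1 / (z + -1)) (e := 1) ?_ rfl rfl
    (by ring)
  have h1 : -1 / (z + -1) = -1 / (-1 / z + 1) + 1 := by
    have h2 : -1 / z + 1 = (z + -1) / z := by
      field_simp
      ring
    rw [h2]
    field_simp
    ring
  rw [h1, hI.T, one_pow, one_mul]

theorem d7b_S6 (hk : Even k) (hI : Inv7 k F) {z : ℂ} (hz : 0 < z.im) :
    d7b_G k F (-1 / z + 6) = z ^ k * d7b_G k F (z + 1) := by
  have hz0 := d7b_ne hz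
  have hw : 0 < (z + 1).im := by simpa using hz
  have hw0 := d7b_ne hw
  have hb : (-1 : ℂ) * z - 1 ≠ 0 := by
    have := d7b_lin_ne hz (b := -1) (by norm_num) (-1)
    push_cast at this
    rwa [← sub_eq_add_neg] at this
  have hv : 0 < (-1 / z + -1).im := by
    have := d7b_im_inv hz
    simpa using this
  rw [d7b_per' hI hv (by ring : -1 / z + 6 = -1 / z + -1 + 7)]
  refine d7b_pair hk hz0 hw0 hb (u := -1 / (-1 / z + -1)) (w := -1 / (z + 1)) (e := 1) ?_ rfl rfl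
    (by ring)
  have h1 : -1 / (-1 / z + -1) = -1 / (z + 1) + 1 := by
    have h2 : -1 / z + -1 = -(z + 1) / z := by
      field_simp
      ring
    rw [h2]
    field_simp
    ring
  rw [h1, hI.T, one_pow, one_mul]

theorem d7b_S2 (hk : Even k) (hI : Inv7 k F) {z : ℂ} (hz : 0 < z.im) :
    d7b_G k F (-1 / z + 2) = z ^ k * d7b_G k F (z + 3) := by
  have hz0 := d7b_ne hz
  have hw : 0 < (z + 3).im := by simpa using hz
  have hw0 := d7b_ne hw
  have hb : (2 : ℂ) * z - 1 ≠ 0 := by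
    have := d7b_lin_ne hz (b := 2) (by norm_num) (-1)
    push_cast at this
    rwa [← sub_eq_add_neg] at this
  have h1 := hI.g1 (-1 / (z + 3)) (d7b_im_inv hw)
  have h2 : 7 * (-1 / (z + 3)) + 2 = (2 * z - 1) / (z + 3) := by
    field_simp
    ring
  have h3 : (-3 * (-1 / (z + 3)) - 1) / ((2 * z - 1) / (z + 3)) = -1 / (-1 / z + 2) := by
    have h4 : -1 / z + 2 = (2 * z - 1) / z := by
      field_simp
      ring
    rw [h4]
    field_simp
    ring
  rw [h2, h3] at h1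
  refine d7b_pair hk hz0 hw0 hb h1 rfl rfl ?_
  rw [div_pow]
  field_simp

theorem d7b_S3 (hk : Even k) (hI : Inv7 k F) {z : ℂ} (hz : 0 < z.im) :
    d7b_G k F (-1 / z + 3) = z ^ k * d7b_G k F (z + 2) := by
  have hz0 := d7b_ne hz
  have hw : 0 < (z + 2).im := by simpa using hz
  have hw0 := d7b_ne hw
  have hb : (3 : ℂ) * z - 1 ≠ 0 := by
    have := d7b_lin_ne hz (b := 3) (by norm_num) (-1)
    push_cast at this
    rwa [← sub_eq_add_neg] at this
  have hv0 : 0 < (-1 / z + 3).im := by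
    have := d7b_im_inv hz
    simpa using this
  have h4 : -1 / z + 3 = (3 * z - 1) / z := by
    field_simp
    ring
  have h5 : -1 / (-1 / z + 3) = -z / (3 * z - 1) := by
    rw [h4]
    field_simp
  have h1 := hI.g1 (-1 / (-1 / z + 3)) (d7b_im_inv hv0)
  have h2 : 7 * (-1 / (-1 / z + 3)) + 2 = -(z + 2) / (3 * z - 1) := by
    rw [h5, mul_div_assoc', div_add' _ _ _ hb]
    congr 1
    ring
  have h3 : (-3 * (-1 / (-1 / z + 3)) - 1) / (-(z + 2) / (3 * z - 1)) = -1 / (z + 2) := by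
    rw [h5]
    field_simp
    ring
  rw [h2, h3] at h1
  have h6 : F (-1 / (-1 / z + 3)) = (-(3 * z - 1) / (z + 2)) ^ k * F (-1 / (z + 2)) := by
    rw [h1, ← mul_assoc, ← mul_pow]
    have h7 : -(3 * z - 1) / (z + 2) * (-(z + 2) / (3 * z - 1)) = 1 := by
      field_simp
    rw [h7, one_pow, one_mul]
  refine d7b_pair hk hz0 hw0 hb h6 rfl rfl ?_
  rw [div_pow]
  field_simp

theorem d7b_S4 (hk : Even k) (hI : Inv7 k F) {z : ℂ} (hz : 0 < z.im) :
    d7b_G k F (-1 / z + 4) = z ^ k * d7b_G k F (z + 5) := by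
  have hz0 := d7b_ne hz
  have hw : 0 < (z + -2).im := by simpa using hz
  have hw0 := d7b_ne hw
  have hb : (-3 : ℂ) * z - 1 ≠ 0 := by
    have := d7b_lin_ne hz (b := -3) (by norm_num) (-1)
    push_cast at this
    rwa [← sub_eq_add_neg] at this
  have hb3 : (3 : ℂ) * z + 1 ≠ 0 := by
    have := d7b_lin_ne hz (b := 3) (by norm_num) 1
    push_cast at this
    exact this
  have hv : 0 < (-1 / z + -3).im := by
    have := d7b_im_inv hz
    simpa using this
  rw [d7b_per' hI hv (by ring : -1 / z + 4 = -1 / z + -3 + 7),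
    d7b_per' hI hw (by ring : z + 5 = z + -2 + 7)]
  have h1 := hI.g3 (-1 / (z + -2)) (d7b_im_inv hw)
  have h2 : 7 * (-1 / (z + -2)) - 3 = -(3 * z + 1) / (z + -2) := by
    field_simp
    ring
  have h3 : (2 * (-1 / (z + -2)) - 1) / (-(3 * z + 1) / (z + -2)) = -1 / (-1 / z + -3) := by
    have h4 : -1 / z + -3 = -(3 * z + 1) / z := by
      field_simp
      ring
    rw [h4]
    field_simp
    ring
  rw [h2, h3] at h1
  refine d7b_pair hk hz0 hw0 hb h1 rfl rfl ?_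
  rw [div_pow]
  field_simp
  ring

theorem d7b_S5 (hk : Even k) (hI : Inv7 k F) {z : ℂ} (hz : 0 < z.im) :
    d7b_G k F (-1 / z + 5) = z ^ k * d7b_G k F (z + 4) := by
  have hz0 := d7b_ne hz
  have hw : 0 < (z + -3).im := by simpa using hz
  have hw0 := d7b_ne hw
  have hb : (-2 : ℂ) * z - 1 ≠ 0 := by
    have := d7b_lin_ne hz (b := -2) (by norm_num) (-1)
    push_cast at this
    rwa [← sub_eq_add_neg] at this
  have hb2 : (2 : ℂ) * z + 1 ≠ 0 := by
    have := d7b_lin_ne hz (b := 2) (by norm_num) 1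
    push_cast at this
    exact this
  have hv0 : 0 < (-1 / z + -2).im := by
    have := d7b_im_inv hz
    simpa using this
  rw [d7b_per' hI hv0 (by ring : -1 / z + 5 = -1 / z + -2 + 7),
    d7b_per' hI hw (by ring : z + 4 = z + -3 + 7)]
  have h4 : -1 / z + -2 = -(2 * z + 1) / z := by
    field_simp
    ring
  have h5 : -1 / (-1 / z + -2) = z / (2 * z + 1) := by
    rw [h4]
    field_simp
  have h1 := hI.g3 (-1 / (-1 / z + -2)) (d7b_im_inv hv0)
  have h2 : 7 * (-1 / (-1 / z + -2)) - 3 = (z + -3) / (2 * z + 1) := by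
    rw [h5, mul_div_assoc', div_sub' hb2]
    congr 1
    ring
  have h3 : (2 * (-1 / (-1 / z + -2)) - 1) / ((z + -3) / (2 * z + 1)) = -1 / (z + -3) := by
    rw [h5]
    field_simp
    ring
  rw [h2, h3] at h1
  have h6 : F (-1 / (-1 / z + -2)) = ((2 * z + 1) / (z + -3)) ^ k * F (-1 / (z + -3)) := by
    rw [h1, ← mul_assoc, ← mul_pow]
    have h7 : (2 * z + 1) / (z + -3) * ((z + -3) / (2 * z + 1)) = 1 := by
      field_simp
    rw [h7, one_pow, one_mul]
  refine d7b_pair hk hz0 hw0 hb h6 rfl rfl ?_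
  rw [div_pow]
  field_simp
  ring

theorem d7b_N_add_one (hI : Inv7 k F) {z : ℂ} (hz : 0 < z.im) :
    d7b_N k F (z + 1) = d7b_N k F z := by
  have e1 : z + 1 + 1 = z + 2 := by ring
  have e2 : z + 1 + 2 = z + 3 := by ring
  have e3 : z + 1 + 3 = z + 4 := by ring
  have e4 : z + 1 + 4 = z + 5 := by ring
  have e5 : z + 1 + 5 = z + 6 := by ring
  have e6 : z + 1 + 6 = z + 7 := by ring
  rw [d7b_N_eq, d7b_N_eq, e1, e2, e3, e4, e5, e6, hI.T, d7b_per hI hz]
  ring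

theorem d7b_N_S (hk : Even k) (hI : Inv7 k F) {z : ℂ} (hz : 0 < z.im) :
    d7b_N k F (-1 / z) = z ^ (8 * k) * d7b_N k F z := by
  have hz0 := d7b_ne hz
  have h0 : F (-1 / z) = z ^ k * d7b_G k F z := by
    rw [d7b_G]
    have h4 : z ^ k ≠ 0 := pow_ne_zero _ hz0
    field_simp
  rw [d7b_N_eq, d7b_N_eq, d7b_S0 hk hz, d7b_S1 hk hI hz, d7b_S2 hk hI hz, d7b_S3 hk hI hz,
    d7b_S4 hk hI hz, d7b_S5 hk hI hz, d7b_S6 hk hI hz, h0]
  have h8 : z ^ (8 * k) = (z ^ k) ^ 8 := by rw [← pow_mul, mul_comm]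
  rw [h8]
  ring

theorem d7b_G_diff (hd : ∀ z : ℂ, 0 < z.im → DifferentiableAt ℂ F z) {z : ℂ} (hz : 0 < z.im) :
    DifferentiableAt ℂ (d7b_G k F) z := by
  have hz0 := d7b_ne hz
  have h1 : DifferentiableAt ℂ (fun z : ℂ ↦ -1 / z) z :=
    (differentiableAt_const _).div differentiableAt_id hz0
  have h2 : DifferentiableAt ℂ (fun z : ℂ ↦ F (-1 / z)) z :=
    DifferentiableAt.comp z (hd (-1 / z) (d7b_im_inv hz)) h1
  exact h2.div (differentiableAt_id.pow k) (pow_ne_zero _ hz0)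

theorem d7b_fam_diff (hd : ∀ z : ℂ, 0 < z.im → DifferentiableAt ℂ F z) (i : ℕ) {z : ℂ}
    (hz : 0 < z.im) : DifferentiableAt ℂ (d7b_fam k F i) z := by
  unfold d7b_fam
  by_cases hi : i = 7
  · simp only [hi, if_true]
    exact hd z hz
  · simp only [hi, if_false]
    have h2 : 0 < (z + i).im := by simpa using hz
    exact DifferentiableAt.comp z (d7b_G_diff hd h2) (differentiableAt_id.add_const _)

theorem d7b_N_diff (hd : ∀ z : ℂ, 0 < z.im → DifferentiableAt ℂ F z) {z : ℂ}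
    (hz : 0 < z.im) : DifferentiableAt ℂ (d7b_N k F) z := by
  have h : d7b_N k F = ∏ i ∈ Finset.range 8, d7b_fam k F i := by
    funext z
    simp [d7b_N]
  rw [h]
  exact DifferentiableAt.finsetProd fun i _ ↦ d7b_fam_diff hd i hz

/-- `N` on the upper half plane. -/
def d7b_Nh (k : ℕ) (F : ℂ → ℂ) (τ : ℍ) : ℂ := d7b_N k F τ

theorem d7b_Nh_T (hI : Inv7 k F) :
    (d7b_Nh k F ∣[((8 * k : ℕ) : ℤ)] ModularGroup.T) = d7b_Nh k F := by
  ext z
  rw [SL_slash_apply, denom, modular_T_smul, ModularGroup.T]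
  have : d7b_Nh k F ((1 : ℝ) +ᵥ z) = d7b_Nh k F z := by
    rw [d7b_Nh, d7b_Nh, UpperHalfPlane.coe_vadd, ← d7b_N_add_one hI z.2]
    congr 1
    push_cast
    ring
  simp [this]

theorem d7b_Nh_S (hk : Even k) (hI : Inv7 k F) :
    (d7b_Nh k F ∣[((8 * k : ℕ) : ℤ)] ModularGroup.S) = d7b_Nh k F := by
  ext z
  have hz : (z : ℂ) ≠ 0 := ne_zero z
  have h := d7b_N_S hk hI z.2
  have h0 : (z : ℂ) = z.1 := rfl
  rw [← h0] at h
  have h1 : -(z : ℂ)⁻¹ = -1 / z := by rw [neg_div, one_div]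
  have h4 : ((z : ℂ) ^ (8 * k)) ≠ 0 := pow_ne_zero _ hz
  have h5 : d7b_N k F (-(z : ℂ)⁻¹) * ((z : ℂ) ^ (8 * k))⁻¹ = d7b_N k F z := by
    rw [h1, h]
    field_simp
  rw [SL_slash_apply, UpperHalfPlane.modular_S_smul, zpow_neg, zpow_natCast]
  simpa [denom, ModularGroup.S, d7b_Nh] using h5

theorem d7b_bound {m : ℕ}
    (hinf : ∃ c : ℝ, ∀ z : ℂ, 1 ≤ z.im → ‖F z‖ ≤ c * Real.exp (-2 * Real.pi * m * z.im))
    (hS : ∃ c : ℝ, ∀ z : ℂ, 1 ≤ z.im → ‖F (-1 / z) / z ^ k‖ ≤ c) :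
    ∃ c : ℝ, 0 ≤ c ∧ ∀ z : ℂ, 1 ≤ z.im →
      ‖d7b_N k F z‖ ≤ c * Real.exp (-2 * Real.pi * m * z.im) := by
  obtain ⟨c₁, h1⟩ := hinf
  obtain ⟨c₂, h2⟩ := hS
  have hG : ∀ z : ℂ, 1 ≤ z.im → ‖d7b_G k F z‖ ≤ |c₂| := fun z hz ↦
    (h2 z hz).trans (le_abs_self _)
  refine ⟨|c₂| ^ 7 * |c₁|, by positivity, fun z hz ↦ ?_⟩
  have hi : ∀ b : ℝ, 1 ≤ (z + (b : ℂ)).im := fun b ↦ by simpa using hz
  have g0 := hG z hz
  have g1 := hG (z + 1) (by simpa using hi 1)
  have g2 := hG (z + 2) (by simpa using hi 2)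
  have g3 := hG (z + 3) (by simpa using hi 3)
  have g4 := hG (z + 4) (by simpa using hi 4)
  have g5 := hG (z + 5) (by simpa using hi 5)
  have g6 := hG (z + 6) (by simpa using hi 6)
  have g7 : ‖F z‖ ≤ |c₁| * Real.exp (-2 * Real.pi * m * z.im) :=
    (h1 z hz).trans (mul_le_mul_of_nonneg_right (le_abs_self _) (Real.exp_pos _).le)
  rw [d7b_N_eq]
  simp only [norm_mul]
  calc _ ≤ |c₂| * |c₂| * |c₂| * |c₂| * |c₂| * |c₂| * |c₂| *
        (|c₁| * Real.exp (-2 * Real.pi * m * z.im)) := by gcongr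
    _ = _ := by ring

theorem d7b_Nh_bounded {c : ℝ} {m : ℕ} (hc : 0 ≤ c)
    (hN : ∀ z : ℂ, 1 ≤ z.im → ‖d7b_N k F z‖ ≤ c * Real.exp (-2 * Real.pi * m * z.im)) :
    IsBoundedAtImInfty (d7b_Nh k F) := by
  rw [isBoundedAtImInfty_iff]
  refine ⟨c, 1, fun z hz ↦ (hN z hz).trans ?_⟩
  have h1 : Real.exp (-2 * Real.pi * m * (z : ℂ).im) ≤ 1 := by
    rw [Real.exp_le_one_iff]
    have h2 : 0 < (z : ℂ).im := z.2
    have h3 := Real.pi_pos
    have h4 : 0 ≤ Real.pi * m * (z : ℂ).im := by positivity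
    linarith
  calc c * Real.exp (-2 * Real.pi * m * (z : ℂ).im) ≤ c * 1 :=
        mul_le_mul_of_nonneg_left h1 hc
    _ = c := mul_one c

/-- The norm as a form of level one. -/
def d7b_form (hk : Even k) (hd : ∀ z : ℂ, 0 < z.im → DifferentiableAt ℂ F z) (hI : Inv7 k F)
    (hb : IsBoundedAtImInfty (d7b_Nh k F)) : ModularForm 𝒮ℒ ((8 * k : ℕ) : ℤ) where
  toFun := d7b_Nh k F
  slash_action_eq' A hA := by
    obtain ⟨A, rfl⟩ := hA
    exact slash_action_generators_SL2Z (d7b_Nh_S hk hI) (d7b_Nh_T hI) A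
  holo' := by
    rw [UpperHalfPlane.mdifferentiable_iff]
    refine DifferentiableOn.congr (f := d7b_N k F) (fun z hz ↦
      (d7b_N_diff hd hz).differentiableWithinAt) fun z hz ↦ ?_
    simp [d7b_Nh, ofComplex_apply_of_im_pos hz]
  bdd_at_cusps' hc := by
    rw [Subgroup.IsArithmetic.isCusp_iff_isCusp_SL2Z] at hc
    rw [OnePoint.isBoundedAt_iff_forall_SL2Z hc]
    intro γ _
    rw [slash_action_generators_SL2Z (d7b_Nh_S hk hI) (d7b_Nh_T hI)]
    exact hb

theorem d7b_coeff (f : ModularForm 𝒮ℒ ((8 * k : ℕ) : ℤ)) {c : ℝ} {m : ℕ} (hc : 0 ≤ c)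
    (hN : ∀ τ : ℍ, 1 ≤ τ.im → ‖f τ‖ ≤ c * Real.exp (-2 * Real.pi * m * τ.im)) {n : ℕ}
    (hn : n < m) : (qExpansion 1 f).coeff n = 0 := by
  have key : ∀ t : ℝ, 1 ≤ t → ‖(qExpansion 1 f).coeff n‖ ≤ c * Real.exp (-t) := by
    intro t ht
    have ht0 : 0 < t := by linarith
    rw [ModularFormClass.qExpansion_coeff_eq_intervalIntegral one_pos one_mem_strictPeriods_SL
      (f := f) n ht0]
    have h1 : ‖∫ u in (0 : ℝ)..1, 1 / Function.Periodic.qParam 1 (u + t * Complex.I) ^ n *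
        f ⟨u + t * Complex.I, by simpa using ht0⟩‖ ≤ c * Real.exp (-t) * |1 - 0| := by
      refine intervalIntegral.norm_integral_le_of_norm_le_const fun u _ ↦ ?_
      have h2 := hN ⟨u + t * Complex.I, by simpa using ht0⟩ (by
        show 1 ≤ (u + t * Complex.I).im
        simpa using ht)
      have h3 : (⟨u + t * Complex.I, by simpa using ht0⟩ : ℍ).im = t := by
        show (u + t * Complex.I).im = t
        simp
      rw [h3] at h2
      have h4 : ‖Function.Periodic.qParam 1 ((u : ℂ) + t * Complex.I)‖ =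
          Real.exp (-2 * Real.pi * t / 1) := by
        rw [Function.Periodic.norm_qParam]
        simp
      rw [norm_mul, norm_div, norm_one, norm_pow, h4]
      have h5 : (1 : ℝ) / Real.exp (-2 * Real.pi * t / 1) ^ n = Real.exp (2 * Real.pi * n * t) := by
        rw [← Real.exp_nat_mul, one_div, ← Real.exp_neg]
        congr 1
        ring
      rw [h5]
      calc Real.exp (2 * Real.pi * n * t) * ‖f ⟨u + t * Complex.I, _⟩‖ ≤
            Real.exp (2 * Real.pi * n * t) * (c * Real.exp (-2 * Real.pi * m * t)) :=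
            mul_le_mul_of_nonneg_left h2 (Real.exp_pos _).le
        _ = c * Real.exp (-(2 * Real.pi * (m - n) * t)) := by
            rw [mul_left_comm, ← Real.exp_add]
            congr 2
            ring
        _ ≤ c * Real.exp (-t) := by
            refine mul_le_mul_of_nonneg_left (Real.exp_le_exp.mpr (neg_le_neg ?_)) hc
            have h6 : (1 : ℝ) ≤ m - n := by
              have : (n : ℝ) + 1 ≤ m := by exact_mod_cast hn
              linarith
            have h7 : (1 : ℝ) ≤ 2 * Real.pi := by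
              have := Real.pi_gt_three
              linarith
            calc t = 1 * 1 * t := by ring
              _ ≤ 2 * Real.pi * (m - n) * t := by gcongr
    simpa using h1
  have h2 : Tendsto (fun t : ℝ ↦ c * Real.exp (-t)) atTop (𝓝 0) := by
    have := (Real.tendsto_exp_neg_atTop_nhds_zero).const_mul c
    rwa [mul_zero] at this
  have h3 : ‖(qExpansion 1 f).coeff n‖ ≤ 0 :=
    ge_of_tendsto h2 ((eventually_ge_atTop 1).mono key)
  exact norm_le_zero_iff.mp h3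

end

theorem sturm7 {k m : ℕ} (hk : Even k) {F : ℂ → ℂ}
    (hd : ∀ z : ℂ, 0 < z.im → DifferentiableAt ℂ F z) (hI : Inv7 k F)
    (hinf : ∃ c : ℝ, ∀ z : ℂ, 1 ≤ z.im → ‖F z‖ ≤ c * Real.exp (-2 * Real.pi * m * z.im))
    (hS : ∃ c : ℝ, ∀ z : ℂ, 1 ≤ z.im → ‖F (-1 / z) / z ^ k‖ ≤ c)
    (hm : 8 * k < 12 * m) : ∀ z : ℂ, 0 < z.im → F z = 0 := by
  obtain ⟨c, hc, hN⟩ := d7b_bound hinf hS
  have hb := d7b_Nh_bounded hc hN
  have hf : d7b_form hk hd hI hb = 0 := by
    refine ModularForm.sturm_bound_levelOne_nat ?_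
    have h1 : (8 * k / 12 : ℕ) < m := by omega
    have h2 : (m : ℕ∞) ≤ (qExpansion 1 (d7b_form hk hd hI hb)).order := by
      refine PowerSeries.nat_le_order _ _ fun n hn ↦ ?_
      exact d7b_coeff (d7b_form hk hd hI hb) hc (fun τ hτ ↦ hN τ hτ) hn
    exact lt_of_lt_of_le (by exact_mod_cast h1) h2
  have hz : ∏ i ∈ Finset.range 8, (fun τ : ℍ ↦ d7b_fam k F i τ) = 0 := by
    funext τ
    have h1 : d7b_Nh k F τ = 0 := by
      have := DFunLike.congr_fun hf τ
      exact this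
    simpa [d7b_Nh, d7b_N] using h1
  rw [prod_eq_zero_iff] at hz
  · obtain ⟨i, -, hi⟩ := hz
    have hi' : ∀ z : ℂ, 0 < z.im → d7b_fam k F i z = 0 := fun z hz ↦ congrFun hi ⟨z, hz⟩
    by_cases h7 : i = 7
    · intro z hz
      have := hi' z hz
      rwa [d7b_fam, if_pos h7] at this
    · intro z hz
      have h1 : 0 < (-1 / z - i).im := by
        have := d7b_im_inv hz
        simpa using this
      have h2 := hi' (-1 / z - i) h1
      have hz0 := d7b_ne hz
      rw [d7b_fam, if_neg h7, sub_add_cancel, d7b_S0 hk hz] at h2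
      exact (mul_eq_zero.mp h2).resolve_left (pow_ne_zero _ hz0)
  · intro i _
    rw [UpperHalfPlane.mdifferentiable_iff]
    refine DifferentiableOn.congr (f := d7b_fam k F i) (fun z hz ↦
      (d7b_fam_diff hd i hz).differentiableWithinAt) fun z hz ↦ ?_
    simp [ofComplex_apply_of_im_pos hz]

end D7

end GH
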