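import Pool.Agent.GH.D7.UMat7A
import Pool.Agent.GH.UMatB_b
import Pool.Agent.GH.FExp

/-! The matrices of `U_7`. -/

open PowerSeries Filter Topology

noncomputable section

namespace GH

namespace D7

variable {K : Type*} [Field K] [CharZero K]

/-! ### Helper lemmas -/

theorem d7h_ppow_expand {u : PowerSeries K} (hu : PowerSeries.constantCoeff u = 1) (s : K) :
    (ppow u s).expand 7 seven_ne = ppow (u.expand 7 seven_ne) s := by
  unfold ppow
  have h := expand_subst 7 seven_ne (ub_hs hu) (binS s)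
  have h1 : (u - 1).expand 7 seven_ne = u.expand 7 seven_ne - 1 := by
    rw [map_sub, map_one]
  rw [← h1]
  exact h

omit [CharZero K] in
theorem d7h_U_expand_mul (F G : PowerSeries K) :
    U 7 (F.expand 7 seven_ne * G) = F * U 7 G := by
  ext n
  simp only [U, coeff_mk]
  rw [coeff_mul, coeff_mul]
  symm
  refine Finset.sum_of_injOn (fun p ↦ (7 * p.1, 7 * p.2)) ?_ ?_ ?_ ?_
  · intro a _ b _ hab
    simp only [Prod.mk.injEq] at hab
    exact Prod.ext (by omega) (by omega)
  · intro a ha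
    simp only [Finset.mem_coe, Finset.HasAntidiagonal.mem_antidiagonal] at ha ⊢
    omega
  · intro a ha hna
    rw [Finset.HasAntidiagonal.mem_antidiagonal] at ha
    by_cases h : 7 ∣ a.1
    · exfalso
      apply hna
      obtain ⟨m, hm⟩ := h
      refine ⟨(m, n - m), ?_, ?_⟩
      · simp only [Finset.mem_coe, Finset.HasAntidiagonal.mem_antidiagonal]
        omega
      · exact Prod.ext (by simp [hm]) (by simp; omega)
    · rw [coeff_expand_of_not_dvd _ _ _ h, zero_mul]
  · intro a _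
    simp only [coeff_mk]
    rw [coeff_expand_mul]

omit [CharZero K] in
theorem d7h_hs_f : HasSubst (hauptmodul 7 K) := fx_hasSubst 7

omit [CharZero K] in
theorem d7h_const_f : PowerSeries.constantCoeff (hauptmodul 7 K) = 0 := by
  rw [← PowerSeries.coeff_zero_eq_constantCoeff_apply]
  exact coeff_zero_hauptmodul 7

omit [CharZero K] in
theorem d7h_const_phi : PowerSeries.constantCoeff (phi7 K) = 1 := by
  unfold phi7
  have h1 : PowerSeries.constantCoeff (invOfUnit (euler K 7) 1) = 1 := by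
    rw [PowerSeries.constantCoeff_invOfUnit]
    simp
  rw [map_mul, map_pow, fx_constantCoeff_euler, h1]
  simp

omit [CharZero K] in
theorem d7h_const_phi2 : PowerSeries.constantCoeff (phi7 K ^ 2) = 1 := by
  rw [map_pow, d7h_const_phi, one_pow]

omit [CharZero K] in
theorem d7h_const_Y : PowerSeries.constantCoeff (Y7 K) = 1 := by
  unfold Y7
  rw [map_mul, PowerSeries.constantCoeff_invOfUnit]
  simp

omit [CharZero K] in
theorem d7h_Y_ne : PowerSeries.constantCoeff (Y7 K) ≠ 0 := by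
  rw [d7h_const_Y]
  exact one_ne_zero

/-- `S^s` -/
def d7hR (s : K) : PowerSeries K := ppow (S7 K) s

theorem d7hR_add (s t : K) : d7hR (s + t) = d7hR s * d7hR t :=
  ub_ppow_add (constantCoeff_S7 K) s t

theorem d7hR_zero : d7hR (0 : K) = 1 := ub_ppow_zero (constantCoeff_S7 K)

theorem d7hR_one : d7hR (1 : K) = S7 K := ub_ppow_one (constantCoeff_S7 K)

theorem d7hR_nat (n : ℕ) : d7hR (n : K) = S7 K ^ n := ub_ppow_nat (constantCoeff_S7 K) n

theorem d7hR_const (s : K) : PowerSeries.constantCoeff (d7hR s) = 1 :=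
  ub_const_ppow (constantCoeff_S7 K) s

theorem d7hR_neg_one : d7hR (-1 : K) = (S7 K)⁻¹ := by
  have h1 : d7hR (-1 : K) * S7 K = 1 := by
    rw [← d7hR_one, ← d7hR_add]
    have : (-1 : K) + 1 = 0 := by ring
    rw [this, d7hR_zero]
  have h2 : PowerSeries.constantCoeff (S7 K) ≠ 0 := by
    rw [constantCoeff_S7]
    exact one_ne_zero
  rw [PowerSeries.eq_inv_iff_mul_eq_one h2]
  exact h1

theorem d7h_const_Sf :
    PowerSeries.constantCoeff ((S7 K).subst (hauptmodul 7 K) : PowerSeries K) = 1 := by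
  rw [ub_const_subst d7h_const_f, constantCoeff_S7]

theorem d7h_R_subst (s : K) :
    ((d7hR s).subst (hauptmodul 7 K) : PowerSeries K) =
      ppow ((S7 K).subst (hauptmodul 7 K) : PowerSeries K) s := by
  unfold d7hR ppow
  rw [subst_comp_subst_apply (ub_hs (constantCoeff_S7 K)) d7h_hs_f]
  congr 1
  rw [subst_sub d7h_hs_f, ub_subst_one d7h_hs_f]

theorem d7h_phi_expand (x : K) :
    phiPow7 x = (phiPow7 x).expand 7 seven_ne *
      (d7hR (-x)).subst (hauptmodul 7 K) := by
  have h1 : (phiPow7 x).expand 7 seven_ne = phiPow7 x *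
      ppow ((S7 K).subst (hauptmodul 7 K) : PowerSeries K) x := by
    unfold phiPow7
    rw [d7h_ppow_expand d7h_const_phi2, ← S7_subst K, ub_ppow_mul d7h_const_phi2 d7h_const_Sf]
  rw [h1, d7h_R_subst, mul_assoc, ← ub_ppow_add d7h_const_Sf, add_neg_cancel,
    ub_ppow_zero d7h_const_Sf, mul_one]

/-- `C_c = 1, S/Y², 1/Y`. -/
def d7hC (K : Type*) [Field K] (c : ℕ) : PowerSeries K :=
  if c = 0 then 1 else if c = 1 then S7 K * ((Y7 K)⁻¹) ^ 2 else (Y7 K)⁻¹

omit [CharZero K] in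
theorem d7h_Yinv : Y7 K * (Y7 K)⁻¹ = 1 := PowerSeries.mul_inv_cancel _ d7h_Y_ne

theorem d7h_Yinv_subst :
    ((Y7 K).subst (hauptmodul 7 K) : PowerSeries K) *
      ((Y7 K)⁻¹).subst (hauptmodul 7 K) = 1 := by
  rw [← subst_mul d7h_hs_f, d7h_Yinv, ub_subst_one d7h_hs_f]

theorem d7h_D_expand (hK : K7) {c : ℕ} (hc : c ≤ 2) :
    dser7 K c = (dser7 K c).expand 7 seven_ne * (d7hC K c).subst (hauptmodul 7 K) := by
  have hy := d7h_Yinv_subst (K := K)
  interval_cases c
  · unfold dser7 d7hC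
    rw [if_pos rfl, if_pos rfl, map_one, ub_subst_one d7h_hs_f, mul_one]
  · unfold dser7 d7hC
    rw [if_neg one_ne_zero, if_pos rfl, if_neg one_ne_zero, if_pos rfl, subst_mul d7h_hs_f,
      subst_pow d7h_hs_f, ← mul_assoc, dlog7_expand hK, subst_pow d7h_hs_f]
    calc dlog7 K = dlog7 K * (((Y7 K).subst (hauptmodul 7 K) : PowerSeries K) *
          ((Y7 K)⁻¹).subst (hauptmodul 7 K)) ^ 2 := by rw [hy, one_pow, mul_one]
      _ = _ := by ring
  · unfold dser7 d7hC
    rw [if_neg two_ne_zero, if_neg (by norm_num), if_neg two_ne_zero, if_neg (by norm_num),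
      nser7_expand hK, mul_assoc, hy, mul_one]

/-- The product `Y² S^{2i-1} S^{-x} C_c`. -/
theorem d7h_coef {c : ℕ} (hc : c ≤ 2) (x : K) (i : ℕ) :
    Y7 K ^ 2 * S7 K ^ (2 * i) * (S7 K)⁻¹ * (d7hR (-x) * d7hC K c) =
      ppow (S7 K) (2 * (i : K) - x - sh7 c) * Y7 K ^ ey7 c := by
  have hy := d7h_Yinv (K := K)
  have h1 : S7 K ^ (2 * i) = d7hR ((2 * i : ℕ) : K) := (d7hR_nat _).symm
  interval_cases c
  · unfold d7hC sh7 ey7
    rw [if_pos rfl, if_neg (by norm_num), if_pos rfl, h1, ← d7hR_neg_one]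
    change _ = d7hR _ * _
    have h2 : 2 * (i : K) - x - ((1 : ℕ) : K) = ((2 * i : ℕ) : K) + (-1) + (-x) := by
      push_cast
      ring
    rw [h2, d7hR_add, d7hR_add]
    ring
  · unfold d7hC sh7 ey7
    rw [if_neg one_ne_zero, if_pos rfl, if_pos rfl, if_neg one_ne_zero, h1, ← d7hR_neg_one]
    change _ = d7hR _ * _
    have h2 : 2 * (i : K) - x - ((0 : ℕ) : K) = ((2 * i : ℕ) : K) + (-1) + (-x) + 1 := by
      push_cast
      ring
    rw [h2, d7hR_add, d7hR_add, d7hR_add, d7hR_one]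
    calc Y7 K ^ 2 * d7hR ((2 * i : ℕ) : K) * d7hR (-1) *
          (d7hR (-x) * (S7 K * ((Y7 K)⁻¹) ^ 2))
        = d7hR ((2 * i : ℕ) : K) * d7hR (-1) * d7hR (-x) * S7 K *
          (Y7 K * (Y7 K)⁻¹) ^ 2 := by ring
      _ = _ := by rw [hy, one_pow, pow_zero]
  · unfold d7hC sh7 ey7
    rw [if_neg two_ne_zero, if_neg (by norm_num), if_neg (by norm_num), if_neg two_ne_zero,
      h1, ← d7hR_neg_one]
    change _ = d7hR _ * _
    have h2 : 2 * (i : K) - x - ((1 : ℕ) : K) = ((2 * i : ℕ) : K) + (-1) + (-x) := by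
      push_cast
      ring
    rw [h2, d7hR_add, d7hR_add]
    calc Y7 K ^ 2 * d7hR ((2 * i : ℕ) : K) * d7hR (-1) * (d7hR (-x) * (Y7 K)⁻¹)
        = d7hR ((2 * i : ℕ) : K) * d7hR (-1) * d7hR (-x) * Y7 K *
          (Y7 K * (Y7 K)⁻¹) := by ring
      _ = _ := by rw [hy, mul_one, pow_one]

/-! ### The theorems -/

/-- The matrix of `U_7` in the basis `φ^{2x} D_c f^j`. -/
theorem U_frm7_subst (hK : K7) {c : ℕ} (hc : c ≤ 2) (x : K) (u : PowerSeries K) :
    U 7 (phiPow7 x * dser7 K c * u.subst (hauptmodul 7 K)) =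
      phiPow7 x * dser7 K c * (PowerSeries.mk fun i ↦
        ∑ j ∈ Finset.range (7 * i + 1), Mat7 c x i j * PowerSeries.coeff j u).subst
        (hauptmodul 7 K) := by
  have h1 : phiPow7 x * dser7 K c * (u.subst (hauptmodul 7 K) : PowerSeries K) =
      (phiPow7 x * dser7 K c).expand 7 seven_ne *
        PowerSeries.subst (hauptmodul 7 K) (d7hR (-x) * d7hC K c * u) := by
    rw [map_mul, subst_mul d7h_hs_f, subst_mul d7h_hs_f]
    calc phiPow7 x * dser7 K c * (u.subst (hauptmodul 7 K) : PowerSeries K)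
        = ((phiPow7 x).expand 7 seven_ne * (d7hR (-x)).subst (hauptmodul 7 K)) *
          ((dser7 K c).expand 7 seven_ne * (d7hC K c).subst (hauptmodul 7 K)) *
          (u.subst (hauptmodul 7 K) : PowerSeries K) := by
          rw [← d7h_phi_expand x, ← d7h_D_expand hK hc]
      _ = _ := by ring
  rw [h1, d7h_U_expand_mul, U_subst7 hK]
  congr 2
  ext i
  rw [PowerSeries.coeff_mk, PowerSeries.coeff_mk]
  have h2 : Y7 K ^ 2 * S7 K ^ (2 * i) * (S7 K)⁻¹ * (d7hR (-x) * d7hC K c * u) =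
      ppow (S7 K) (2 * (i : K) - x - sh7 c) * Y7 K ^ ey7 c * u := by
    rw [← d7h_coef hc x i]
    ring
  rw [h2, PowerSeries.coeff_mul,
    Finset.Nat.sum_antidiagonal_eq_sum_range_succ (fun a b =>
      PowerSeries.coeff a (ppow (S7 K) (2 * (i : K) - x - sh7 c) * Y7 K ^ ey7 c) *
        PowerSeries.coeff b u), ← Finset.sum_range_reflect]
  refine Finset.sum_congr rfl fun j hj => ?_
  rw [Finset.mem_range] at hj
  unfold Mat7
  rw [if_pos (by omega)]
  congr 3 <;> omega

omit [CharZero K] in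
theorem Mat7_of_lt (c : ℕ) (x : K) {i j : ℕ} (h : 7 * i < j) : Mat7 c x i j = 0 := by
  unfold Mat7
  rw [if_neg (by omega)]

theorem Mat7_zero_zero (x : K) (c : ℕ) : Mat7 c x 0 0 = 1 := by
  unfold Mat7
  rw [if_pos (by omega), mul_zero, Nat.sub_zero, PowerSeries.coeff_zero_eq_constantCoeff_apply,
    map_mul, map_pow, d7h_const_Y, one_pow, mul_one]
  exact d7hR_const _

theorem phiPow7_natCast (m : ℕ) : phiPow7 (m : K) = phi7 K ^ (2 * m) := by
  rw [pow_mul]
  exact ub_ppow_nat d7h_const_phi2 m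

theorem phiPow7_zero : phiPow7 (0 : K) = 1 := ub_ppow_zero d7h_const_phi2

theorem constantCoeff_phiPow7 (x : K) : PowerSeries.constantCoeff (phiPow7 x) = 1 :=
  ub_const_ppow d7h_const_phi2 x

theorem constantCoeff_dser7 (c : ℕ) : PowerSeries.constantCoeff (dser7 K c) = 1 := by
  unfold dser7
  split_ifs
  · rw [map_one]
  · exact constantCoeff_dlog7 K
  · unfold nser7
    have h1 : PowerSeries.constantCoeff
        (1 + C (13 : K) * X + C (49 : K) * X ^ 2 : PowerSeries K) = 1 := by simp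
    rw [map_mul, ub_const_ppow d7h_const_phi, ub_const_subst d7h_const_f, ub_const_ppow h1,
      one_mul]

end D7

end GH
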